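import Pool.Agent.Helper26.Bf.Op2

namespace Pool.Agent.Helper26.Bf

open Finset
open Pool.Agent.Helper26.Loc (ee ee_self sum_ee_mul sum_mul_ee)

variable {V J : Type*} [Fintype V] [Fintype J]

/-- normal equations -/
def IsMin (c : J → V → ℝ) (f : V → ℝ) (w : J → ℝ) (θ u : J → ℝ) : Prop :=
  ∀ j, θ j = u j + w j * sT c f (sg c f u) j

variable {c : J → V → ℝ} {f : V → ℝ} {w : J → ℝ}

theorem exists_isMin (hw : ∀ j, 0 < w j) (θ : J → ℝ) : ∃ u, IsMin c f w θ u := by
  set T : (J → ℝ) →ₗ[ℝ] (J → ℝ) := LinearMap.id + wm w ∘ₗ sT c f ∘ₗ sg c f with hT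
  have hTapp : ∀ u j, T u j = u j + w j * sT c f (sg c f u) j := fun u j => rfl
  have hinj : Function.Injective T := by
    rw [← LinearMap.ker_eq_bot, LinearMap.ker_eq_bot']
    intro u hu
    have h1 : ∀ j, u j = -(w j * sT c f (sg c f u) j) := by
      intro j
      have := congrFun hu j
      rw [hTapp] at this
      have h0 : (0 : J → ℝ) j = 0 := rfl
      rw [h0] at this
      linarith
    have h2 : ∑ j, u j ^ 2 / w j + ∑ i, sg c f u i ^ 2 = 0 := by
      have h3 : ∑ i, sg c f u i ^ 2 = ∑ j, u j * sT c f (sg c f u) j := by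
        rw [adj]
        exact Finset.sum_congr rfl fun i _ => by ring
      rw [h3, ← Finset.sum_add_distrib]
      refine Finset.sum_eq_zero fun j _ => ?_
      have h4 : u j + w j * sT c f (sg c f u) j = 0 := by linarith [h1 j]
      have h5 := hw j
      have h6 : u j ^ 2 / w j + u j * sT c f (sg c f u) j
          = u j / w j * (u j + w j * sT c f (sg c f u) j) := by
        field_simp
      rw [h6, h4, mul_zero]
    have h3 : ∑ j, u j ^ 2 / w j = 0 := by
      have p1 : 0 ≤ ∑ j, u j ^ 2 / w j :=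
        Finset.sum_nonneg fun j _ => div_nonneg (sq_nonneg _) (hw j).le
      have p2 : 0 ≤ ∑ i, sg c f u i ^ 2 := Finset.sum_nonneg fun i _ => sq_nonneg _
      linarith
    rw [Finset.sum_eq_zero_iff_of_nonneg
      (fun j _ => div_nonneg (sq_nonneg _) (hw j).le)] at h3
    funext j
    have h4 := h3 j (Finset.mem_univ j)
    rw [div_eq_zero_iff] at h4
    rcases h4 with h4 | h4
    · exact pow_eq_zero_iff two_ne_zero |>.1 h4
    · exact absurd h4 (hw j).ne'
  have hsurj : Function.Surjective T := LinearMap.injective_iff_surjective.1 hinj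
  obtain ⟨u, hu⟩ := hsurj θ
  exact ⟨u, fun j => by rw [← hTapp, hu]⟩

/-- energy -/
noncomputable def En (c : J → V → ℝ) (f : V → ℝ) (w : J → ℝ) (θ u : J → ℝ) : ℝ :=
  ∑ i, sg c f u i ^ 2 + ∑ j, (θ j - u j) ^ 2 / w j

open Classical in
/-- minimizer -/
noncomputable def um (c : J → V → ℝ) (f : V → ℝ) (w : J → ℝ) (θ : J → ℝ) : J → ℝ :=
  if h : ∃ u, IsMin c f w θ u then h.choose else 0

theorem um_isMin (hw : ∀ j, 0 < w j) (θ : J → ℝ) : IsMin c f w θ (um c f w θ) := by
  unfold um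
  rw [dif_pos (exists_isMin hw θ)]
  exact (exists_isMin hw θ).choose_spec

/-- minimal energy -/
noncomputable def qf (c : J → V → ℝ) (f : V → ℝ) (w : J → ℝ) (θ : J → ℝ) : ℝ :=
  En c f w θ (um c f w θ)

theorem En_nonneg (hw : ∀ j, 0 < w j) (θ u : J → ℝ) : 0 ≤ En c f w θ u :=
  add_nonneg (Finset.sum_nonneg fun i _ => sq_nonneg _)
    (Finset.sum_nonneg fun j _ => div_nonneg (sq_nonneg _) (hw j).le)

theorem qf_nonneg (hw : ∀ j, 0 < w j) (θ : J → ℝ) : 0 ≤ qf c f w θ := En_nonneg hw _ _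

theorem En_min (hw : ∀ j, 0 < w j) {θ u : J → ℝ} (hu : IsMin c f w θ u) (u' : J → ℝ) :
    En c f w θ u ≤ En c f w θ u' := by
  set v : J → ℝ := u' - u with hv
  have hu' : u' = u + v := by rw [hv]; abel
  have h1 : ∑ i, sg c f u' i ^ 2 = ∑ i, sg c f u i ^ 2 + 2 * ∑ j, v j * sT c f (sg c f u) j
      + ∑ i, sg c f v i ^ 2 := by
    rw [adj, Finset.mul_sum, ← Finset.sum_add_distrib, ← Finset.sum_add_distrib]
    refine Finset.sum_congr rfl fun i _ => ?_
    rw [hu', map_add, Pi.add_apply]; ring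
  have h2 : ∑ j, (θ j - u' j) ^ 2 / w j = ∑ j, (θ j - u j) ^ 2 / w j
      - 2 * ∑ j, v j * sT c f (sg c f u) j + ∑ j, v j ^ 2 / w j := by
    rw [Finset.mul_sum, ← Finset.sum_sub_distrib, ← Finset.sum_add_distrib]
    refine Finset.sum_congr rfl fun j _ => ?_
    have h3 := hu j
    have h4 := hw j
    have h5 : u' j = u j + v j := by rw [hu']; rfl
    rw [h5]
    have h6 : sT c f (sg c f u) j = (θ j - u j) / w j := by
      rw [eq_div_iff h4.ne']; linarith
    rw [h6]
    field_simp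
    ring
  unfold En
  rw [h1, h2]
  have h3 : 0 ≤ ∑ i, sg c f v i ^ 2 := Finset.sum_nonneg fun i _ => sq_nonneg _
  have h4 : 0 ≤ ∑ j, v j ^ 2 / w j :=
    Finset.sum_nonneg fun j _ => div_nonneg (sq_nonneg _) (hw j).le
  linarith

theorem qf_le (hw : ∀ j, 0 < w j) (θ u : J → ℝ) : qf c f w θ ≤ En c f w θ u :=
  En_min hw (um_isMin hw θ) u

/-- effect of a change of the mobilities and of the weights -/
theorem qf_update (hw : ∀ j, 0 < w j) {f' : V → ℝ} {w' : J → ℝ} (hw' : ∀ j, w j ≤ w' j)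
    (θ : J → ℝ) : qf c f' w' θ ≤ qf c f w θ
      + ∑ i, (f' i ^ 2 - f i ^ 2) * (∑ j, c j i * um c f w θ j) ^ 2 := by
  refine (qf_le (fun j => (hw j).trans_le (hw' j)) θ (um c f w θ)).trans ?_
  unfold qf En
  have h1 : ∑ i, sg c f' (um c f w θ) i ^ 2 = ∑ i, sg c f (um c f w θ) i ^ 2
      + ∑ i, (f' i ^ 2 - f i ^ 2) * (∑ j, c j i * um c f w θ j) ^ 2 := by
    rw [← Finset.sum_add_distrib]
    refine Finset.sum_congr rfl fun i _ => ?_
    simp only [sg_apply]; ring
  rw [h1]
  have h2 : ∑ j, (θ j - um c f w θ j) ^ 2 / w' j ≤ ∑ j, (θ j - um c f w θ j) ^ 2 / w j :=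
    Finset.sum_le_sum fun j _ => div_le_div_of_nonneg_left (sq_nonneg _) (hw j) (hw' j)
  linarith

theorem isMin_dual {θ θ' u u' : J → ℝ} (hw : ∀ j, 0 < w j) (hu : IsMin c f w θ u)
    (hu' : IsMin c f w θ' u') : ∑ j, θ j / w j * u' j = ∑ j, θ' j / w j * u j := by
  have h1 : ∀ {θ u : J → ℝ}, IsMin c f w θ u → ∀ v : J → ℝ,
      ∑ j, θ j / w j * v j = ∑ j, u j * v j / w j + ∑ i, sg c f u i * sg c f v i := by
    intro θ u hu v
    have h2 : ∑ i, sg c f u i * sg c f v i = ∑ j, v j * sT c f (sg c f u) j := by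
      rw [adj]
      exact Finset.sum_congr rfl fun i _ => by ring
    rw [h2, ← Finset.sum_add_distrib]
    refine Finset.sum_congr rfl fun j _ => ?_
    have h3 := hw j
    rw [hu j]
    field_simp
  rw [h1 hu, h1 hu']
  congr 1
  · exact Finset.sum_congr rfl fun j _ => by ring
  · exact Finset.sum_congr rfl fun i _ => by ring

variable [DecidableEq J]

/-- indicator of a row -/
def es (j : J) : J → ℝ := Pi.single j 1

omit [Fintype J] in
theorem es_self (j : J) : es j j = 1 := by simp [es]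

theorem sum_es_mul (j : J) (g : J → ℝ) : ∑ l, es j l * g l = g j := by
  simp [es, Pi.single_apply]

/-- coefficient of the row `j` at the column `i` -/
noncomputable def bb (c : J → V → ℝ) (f : V → ℝ) (w : J → ℝ) (j : J) (i : V) : ℝ :=
  ∑ l, c l i * um c f w (es j) l

theorem sum_bb_le (hw : ∀ j, 0 < w j) (i : V) :
    ∑ j, w j * bb c f w j i ^ 2 ≤ ∑ j, w j * c j i ^ 2 := by
  set θ : J → ℝ := fun j => w j * c j i with hθ
  set y := um c f w θ with hy
  have hym : IsMin c f w θ y := um_isMin hw θ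
  have h1 : ∀ j, bb c f w j i = y j / w j := by
    intro j
    have h2 := isMin_dual hw hym (um_isMin hw (es j))
    have h3 : ∑ l, θ l / w l * um c f w (es j) l = bb c f w j i := by
      unfold bb
      refine Finset.sum_congr rfl fun l _ => ?_
      rw [hθ]
      have := hw l
      field_simp
    have h4 : ∑ l, es j l / w l * y l = y j / w j := by
      calc ∑ l, es j l / w l * y l = ∑ l, es j l * (y l / w l) :=
            Finset.sum_congr rfl fun l _ => by ring
        _ = _ := sum_es_mul j _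
    rw [← h3, h2, h4]
  have h2 : ∑ j, w j * bb c f w j i ^ 2 = ∑ j, y j ^ 2 / w j := by
    refine Finset.sum_congr rfl fun j _ => ?_
    rw [h1]
    have := hw j
    field_simp
  rw [h2]
  set Y := ∑ j, y j ^ 2 / w j with hY
  set h := ∑ j, w j * c j i ^ 2 with hh
  have hY0 : 0 ≤ Y := Finset.sum_nonneg fun j _ => div_nonneg (sq_nonneg _) (hw j).le
  have hh0 : 0 ≤ h := Finset.sum_nonneg fun j _ => mul_nonneg (hw j).le (sq_nonneg _)
  set X := ∑ j, c j i * y j with hX
  have h3 : Y ≤ X := by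
    have h4 : X = Y + ∑ i', sg c f y i' ^ 2 := by
      have h5 : ∑ i', sg c f y i' ^ 2 = ∑ j, y j * sT c f (sg c f y) j := by
        rw [adj]
        exact Finset.sum_congr rfl fun i _ => by ring
      rw [h5, hX, hY, ← Finset.sum_add_distrib]
      refine Finset.sum_congr rfl fun j _ => ?_
      have h6 := hym j
      have h7 := hw j
      simp only [hθ] at h6
      have h8 : c j i = y j / w j + sT c f (sg c f y) j := by
        field_simp
        linarith
      rw [h8]
      field_simp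
    rw [h4]
    have : 0 ≤ ∑ i', sg c f y i' ^ 2 := Finset.sum_nonneg fun i _ => sq_nonneg _
    linarith
  have h4 : X ^ 2 ≤ Y * h := by
    have h5 := Finset.sum_mul_sq_le_sq_mul_sq Finset.univ
      (fun j => y j / Real.sqrt (w j)) (fun j => Real.sqrt (w j) * c j i)
    have e1 : ∑ j, y j / Real.sqrt (w j) * (Real.sqrt (w j) * c j i) = X := by
      refine Finset.sum_congr rfl fun j _ => ?_
      have := Real.sqrt_pos.2 (hw j)
      field_simp
    have e2 : ∑ j, (y j / Real.sqrt (w j)) ^ 2 = Y := by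
      refine Finset.sum_congr rfl fun j _ => ?_
      rw [div_pow, Real.sq_sqrt (hw j).le]
    have e3 : ∑ j, (Real.sqrt (w j) * c j i) ^ 2 = h := by
      refine Finset.sum_congr rfl fun j _ => ?_
      rw [mul_pow, Real.sq_sqrt (hw j).le]
    rw [e1, e2, e3] at h5
    exact h5
  rcases hY0.eq_or_lt with h5 | h5
  · rw [← h5]; exact hh0
  · have h6 : Y * Y ≤ Y * h := by nlinarith
    exact le_of_mul_le_mul_left h6 h5

/-- energy of a row -/
noncomputable def qr (c : J → V → ℝ) (f : V → ℝ) (w : J → ℝ) (j : J) : ℝ := qf c f w (es j)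

/-- variance of a row -/
noncomputable def vr (c : J → V → ℝ) (f : V → ℝ) (w : J → ℝ) (j : J) : ℝ :=
  ∑ i, f i ^ 2 * bb c f w j i ^ 2

theorem vr_eq (j : J) : vr c f w j = ∑ i, sg c f (um c f w (es j)) i ^ 2 := by
  unfold vr bb
  refine Finset.sum_congr rfl fun i _ => ?_
  rw [sg_apply]; ring

omit [DecidableEq J] in
theorem vr_nonneg [DecidableEq J] (j : J) : 0 ≤ vr c f w j :=
  Finset.sum_nonneg fun i _ => mul_nonneg (sq_nonneg _) (sq_nonneg _)

theorem qr_nonneg (hw : ∀ j, 0 < w j) (j : J) : 0 ≤ qr c f w j := qf_nonneg hw _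

theorem qr_le (hw : ∀ j, 0 < w j) (j : J) : qr c f w j ≤ 1 / w j := by
  refine (qf_le hw (es j) 0).trans (le_of_eq ?_)
  unfold En
  rw [map_zero]
  simp only [Pi.zero_apply, sub_zero, ne_eq, OfNat.ofNat_ne_zero, not_false_eq_true, zero_pow,
    Finset.sum_const_zero, zero_add]
  rw [Finset.sum_eq_single j]
  · rw [es_self]; ring
  · intro l _ hl
    simp [es, hl]
  · intro h; exact absurd (Finset.mem_univ j) h

theorem qr_update (hw : ∀ j, 0 < w j) {f' : V → ℝ} {w' : J → ℝ} (hw' : ∀ j, w j ≤ w' j) (j : J) :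
    qr c f' w' j ≤ qr c f w j + ∑ i, (f' i ^ 2 - f i ^ 2) * bb c f w j i ^ 2 :=
  qf_update hw hw' (es j)

theorem vr_le_qr (hw : ∀ j, 0 < w j) (j : J) : vr c f w j ≤ qr c f w j := by
  rw [vr_eq]
  unfold qr qf En
  have : 0 ≤ ∑ l, (es j l - um c f w (es j) l) ^ 2 / w l :=
    Finset.sum_nonneg fun j _ => div_nonneg (sq_nonneg _) (hw j).le
  linarith

end Pool.Agent.Helper26.Bf
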