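import Pool.Agent.Helper26.Bf.Pot

set_option linter.unusedSectionVars false

namespace Pool.Agent.Helper26.Bf

open Finset Real
open Pool.Agent.Helper26.Loc (ee ee_self sum_ee_mul sum_mul_ee avg avg_mul_left avg_mul_right
  avg_mono avg_const avg_slice sgb abs_sgb setSlice ind ind_true ind_false)
open Pool.Agent.Helper26.Gsw (dev)

namespace Par

variable {V J : Type*} [Fintype V] [DecidableEq V] [Fintype J] [DecidableEq J]
variable {P : Par V J} (hP : P.Ok)
include hP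

/-- exponential moment of the potential at time `n` -/
theorem Phi_moment {ε κ : ℝ} (hε1 : 591872 * ε ≤ 1)
    (hε2 : 128 * P.γ ^ 2 * 8 ^ (P.K + 2) * P.D ^ 4 * P.U ^ 4 ≤ ε) (hκ : 0 ≤ κ)
    (μ : J → ℝ) (hμ : ∀ j, 0 ≤ μ j) (hμε : ∀ j, κ * μ j * P.M ≤ ε) (n : ℕ)
    (hn : n ≤ P.N) :
    avg (fun ω : V → Fin P.N → Bool =>
        exp (κ / (1 + 2 * P.γ ^ 2 * ε) ^ n * ∑ j, μ j * P.Phi (P.xs ω n) j))
      ≤ exp (κ * ∑ j, μ j * P.Phi P.st0 j) := by
  have hU0 := U_pos hP
  have hε0 : 0 ≤ ε := le_trans (by positivity) hε2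
  set a : ℝ := 1 + 2 * P.γ ^ 2 * ε with ha
  have ha1 : 1 ≤ a := by
    have : 0 ≤ 2 * P.γ ^ 2 * ε := by positivity
    linarith
  have ha0 : 0 < a := by linarith
  induction n with
  | zero =>
    simp only [pow_zero, div_one]
    have : ∀ ω : V → Fin P.N → Bool, P.xs ω 0 = P.st0 := fun ω => rfl
    simp only [this]
    rw [avg_const]
  | succ n ih =>
    have ih := ih (by omega)
    set n' : Fin P.N := ⟨n, hn⟩ with hn'
    rw [avg_slice n']
    refine le_trans (avg_mono fun ω => ?_) ih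
    have hstep : ∀ ξ : V → Bool, P.xs (setSlice n' ω ξ) (n + 1)
        = P.step (P.xs ω n) (fun p => sgb (ξ p)) := fun ξ => xs_succ_setSlice ω n' ξ
    simp only [hstep]
    have hκ' : 0 ≤ κ / a ^ (n + 1) := by positivity
    have h1 : κ / a ^ (n + 1) ≤ κ := div_le_self hκ (one_le_pow₀ ha1)
    refine (Phi_one hP (inv_xs hP ω n) hε1 hε2 hκ' μ hμ (fun j => ?_)).trans (le_of_eq ?_)
    · refine le_trans ?_ (hμε j)
      apply mul_le_mul_of_nonneg_right _ (zero_le_one.trans hP.hM)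
      exact mul_le_mul_of_nonneg_right h1 (hμ j)
    · congr 2
      rw [← ha, pow_succ]
      field_simp

theorem Phi_st0_le (j : J) : P.Phi P.st0 j ≤ 2 := by
  have hb0 : P.Bk 0 ≤ 1 := by
    unfold Bk
    have := P.bk_le_two 0
    simpa using this
  have hb1 := Bk_pos hP 0
  unfold Phi
  have h1 : P.qj P.st0 j ≤ 1 := by
    have := qr_le (c := P.c) (f := P.ff P.st0) (P.wt_pos P.st0.k) j
    unfold qj
    refine this.trans (le_of_eq ?_)
    simp [wt, st0]
  have h2 : dev P.c P.z j P.st0.x - P.st0.s j = 0 := by simp [dev, st0]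
  have h3 : P.st0.k j = 0 := rfl
  rw [h2, h3]
  have hq0 := P.qj_nonneg P.st0 j
  have h4 : P.Bk 0 * (0 ^ 2 / 9248 + P.qj P.st0 j) ≤ 1 * 1 :=
    mul_le_mul hb0 (by linarith) (by positivity) zero_le_one
  simp only [pow_zero]
  linarith

/-- joint probability that all columns in a sparse family are overloaded -/
theorem over_prob {ε κ t0 : ℝ} (hε1 : 591872 * ε ≤ 1)
    (hε2 : 128 * P.γ ^ 2 * 8 ^ (P.K + 2) * P.D ^ 4 * P.U ^ 4 ≤ ε) (hκ : 0 ≤ κ)
    (hε3 : (1 + 2 * P.γ ^ 2 * ε) ^ P.N ≤ 2)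
    (hent : ∀ j i, P.c j i ^ 2 ≤ t0) (ht0 : κ * t0 * P.M ≤ ε) (A : Finset V)
    (hA : ∀ i ∈ A, ∀ i' ∈ A, i ≠ i' → ∀ j, P.c j i = 0 ∨ P.c j i' = 0) :
    avg (fun ω : V → Fin P.N → Bool => ind (∀ i ∈ A, 8 < P.load (P.xs ω P.N).k i))
      ≤ exp (-(2 * κ)) ^ #A := by
  have hU0 := U_pos hP
  have hε0 : 0 ≤ ε := le_trans (by positivity) hε2
  set μ : J → ℝ := fun j => ∑ i ∈ A, P.c j i ^ 2 with hμ
  have hμ0 : ∀ j, 0 ≤ μ j := fun j => Finset.sum_nonneg fun i _ => sq_nonneg _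
  rcases A.eq_empty_or_nonempty with hemp | ⟨i1, hi1⟩
  · rw [hemp]
    simp only [Finset.notMem_empty, IsEmpty.forall_iff, implies_true, Finset.card_empty, pow_zero]
    rw [show (fun ω : V → Fin P.N → Bool => ind True) = fun _ => (1 : ℝ) from
      funext fun _ => ind_true trivial, avg_const]
  have hμt : ∀ j, μ j ≤ t0 := by
    intro j
    by_cases h : ∃ i ∈ A, P.c j i ≠ 0
    · obtain ⟨i, hi, hci⟩ := h
      have : μ j = P.c j i ^ 2 := by
        rw [hμ]
        apply Finset.sum_eq_single i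
        · intro b hb hbi
          rcases hA i hi b hb (Ne.symm hbi) j with h1 | h1
          · exact absurd h1 hci
          · rw [h1]; ring
        · intro h1; exact absurd hi h1
      rw [this]; exact hent j i
    · push Not at h
      have : μ j = 0 := Finset.sum_eq_zero fun i hi => by rw [h i hi]; ring
      rw [this]
      exact le_trans (sq_nonneg _) (hent j i1)
  have hμε : ∀ j, κ * μ j * P.M ≤ ε := fun j =>
    le_trans (mul_le_mul_of_nonneg_right (mul_le_mul_of_nonneg_left (hμt j) hκ)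
      (zero_le_one.trans hP.hM)) ht0
  have hmom := Phi_moment hP hε1 hε2 hκ μ hμ0 hμε P.N le_rfl
  set a : ℝ := (1 + 2 * P.γ ^ 2 * ε) ^ P.N with ha
  have ha1 : 1 ≤ a := one_le_pow₀ (by
    have : 0 ≤ 2 * P.γ ^ 2 * ε := by positivity
    linarith)
  have hstart : κ * ∑ j, μ j * P.Phi P.st0 j ≤ κ * (2 * #A) := by
    apply mul_le_mul_of_nonneg_left _ hκ
    calc ∑ j, μ j * P.Phi P.st0 j ≤ ∑ j, μ j * 2 :=
          Finset.sum_le_sum fun j _ => mul_le_mul_of_nonneg_left (Phi_st0_le hP j) (hμ0 j)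
      _ = 2 * ∑ i ∈ A, ∑ j, P.c j i ^ 2 := by
          rw [← Finset.sum_mul, hμ, Finset.sum_comm, mul_comm]
      _ ≤ 2 * ∑ _i ∈ A, (1 : ℝ) := by
          apply mul_le_mul_of_nonneg_left _ (by norm_num)
          exact Finset.sum_le_sum fun i _ => hP.hc i
      _ = _ := by simp
  have hpt : ∀ ω : V → Fin P.N → Bool, ind (∀ i ∈ A, 8 < P.load (P.xs ω P.N).k i)
      ≤ exp (-(4 * κ * #A)) * exp (κ / a * ∑ j, μ j * P.Phi (P.xs ω P.N) j) := by
    intro ω
    by_cases h : ∀ i ∈ A, 8 < P.load (P.xs ω P.N).k i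
    · rw [ind_true h, ← exp_add]
      apply one_le_exp
      have h1 : 8 * (#A : ℝ) ≤ ∑ j, μ j * P.Phi (P.xs ω P.N) j := by
        calc 8 * (#A : ℝ) = ∑ _i ∈ A, (8 : ℝ) := by simp [mul_comm]
          _ ≤ ∑ i ∈ A, P.load (P.xs ω P.N).k i := Finset.sum_le_sum fun i hi => (h i hi).le
          _ = ∑ j, μ j * P.wt (P.xs ω P.N).k j := by
              unfold load
              rw [Finset.sum_comm]
              refine Finset.sum_congr rfl fun j _ => ?_
              rw [hμ, ← Finset.mul_sum, mul_comm]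
          _ ≤ _ := Finset.sum_le_sum fun j _ =>
              mul_le_mul_of_nonneg_left (four_le_Phi hP _ j) (hμ0 j)
      have h2 : κ / 2 ≤ κ / a := div_le_div_of_nonneg_left hκ (by linarith) hε3
      have h3 : κ / 2 * (8 * (#A : ℝ)) ≤ κ / a * ∑ j, μ j * P.Phi (P.xs ω P.N) j :=
        mul_le_mul h2 h1 (by positivity) (by positivity)
      linarith
    · rw [ind_false h]
      positivity
  refine (avg_mono hpt).trans ?_
  rw [avg_mul_left]
  refine (mul_le_mul_of_nonneg_left (hmom.trans (exp_le_exp.2 hstart)) (exp_pos _).le).trans ?_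
  rw [← exp_add, ← exp_nat_mul]
  apply exp_le_exp.2
  linarith

end Par

end Pool.Agent.Helper26.Bf
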