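import Pool.Agent.Helper26.GswChain

namespace Pool.Agent.Helper26.Bf

open Finset
open Pool.Agent.Helper26.Gsw (chains card_chains mem_chains cl mem_cl long_chain)

variable {Q : Type*}

/-- reflexive closure -/
def Rr (R : Q → Q → Prop) (a b : Q) : Prop := a = b ∨ R a b

/-- distance at most three -/
def R3 (R : Q → Q → Prop) (a b : Q) : Prop := ∃ u v, Rr R a u ∧ Rr R u v ∧ Rr R v b

theorem Rr.symm {R : Q → Q → Prop} (hR : ∀ a b, R a b → R b a) {a b : Q} (h : Rr R a b) :
    Rr R b a := by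
  rcases h with h | h
  · exact Or.inl h.symm
  · exact Or.inr (hR _ _ h)

theorem R3.symm {R : Q → Q → Prop} (hR : ∀ a b, R a b → R b a) {a b : Q} (h : R3 R a b) :
    R3 R b a := by
  obtain ⟨u, v, h1, h2, h3⟩ := h
  exact ⟨v, u, h3.symm hR, h2.symm hR, h1.symm hR⟩

variable [Fintype Q]

open Classical in
/-- long separated chain of bad elements -/
def SepCh (R : Q → Q → Prop) (bad : Q → Prop) (k : ℕ) (a : Q) : Prop :=
  ∃ l ∈ chains (R3 R) (2 * k) a, k + 1 ≤ #l.toFinset ∧ (∀ b ∈ l, bad b) ∧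
    ∀ b ∈ l, ∀ b' ∈ l, b ≠ b' → ¬ R b b'

open Classical in
theorem card_R3 {R : Q → Q → Prop} {m : ℕ} (hm : ∀ a, #(univ.filter (R a)) ≤ m) (a : Q) :
    #(univ.filter (R3 R a)) ≤ (1 + m) ^ 3 := by
  have hb : ∀ a, #(insert a (univ.filter (R a))) ≤ 1 + m := fun a =>
    (Finset.card_insert_le _ _).trans (by have := hm a; omega)
  have hmem : ∀ a b, Rr R a b → b ∈ insert a (univ.filter (R a)) := by
    intro a b h
    rcases h with h | h
    · rw [h]; exact Finset.mem_insert_self _ _
    · exact Finset.mem_insert_of_mem (by simpa using h)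
  have hsub : univ.filter (R3 R a) ⊆ (insert a (univ.filter (R a))).biUnion (fun u =>
      (insert u (univ.filter (R u))).biUnion fun v => insert v (univ.filter (R v))) := by
    intro b hb'
    obtain ⟨u, v, h1, h2, h3⟩ := (Finset.mem_filter.1 hb').2
    rw [Finset.mem_biUnion]
    refine ⟨u, hmem _ _ h1, ?_⟩
    rw [Finset.mem_biUnion]
    exact ⟨v, hmem _ _ h2, hmem _ _ h3⟩
  calc _ ≤ _ := Finset.card_le_card hsub
    _ ≤ ∑ u ∈ insert a (univ.filter (R a)), (1 + m) * (1 + m) := by
        refine Finset.card_biUnion_le.trans (Finset.sum_le_sum fun u _ => ?_)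
        refine Finset.card_biUnion_le.trans ?_
        calc _ ≤ ∑ _v ∈ insert u (univ.filter (R u)), (1 + m) :=
              Finset.sum_le_sum fun v _ => hb v
          _ = #(insert u (univ.filter (R u))) * (1 + m) := by simp
          _ ≤ _ := Nat.mul_le_mul_right _ (hb u)
    _ = #(insert a (univ.filter (R a))) * ((1 + m) * (1 + m)) := by simp
    _ ≤ (1 + m) * ((1 + m) * (1 + m)) := Nat.mul_le_mul_right _ (hb a)
    _ = _ := by ring

open Classical in
theorem cl_le_of_no_chain {R : Q → Q → Prop} (hR : ∀ a b, R a b → R b a) {m : ℕ}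
    (hm : ∀ a, #(univ.filter (R a)) ≤ m) (bad : Q → Prop) (k : ℕ)
    (h : ∀ a, ¬ SepCh R bad k a) (a : Q) (ha : bad a) :
    #(cl (fun x y => bad x ∧ bad y ∧ R x y) a) ≤ (1 + m) * k := by
  -- maximal separated set
  set F : Finset (Finset Q) := univ.filter fun S => (∀ b ∈ S, bad b) ∧
    ∀ b ∈ S, ∀ b' ∈ S, b ≠ b' → ¬ R b b' with hF
  have hFne : F.Nonempty := ⟨∅, by simp [hF]⟩
  obtain ⟨S, hS, hmax⟩ := Finset.exists_max_image F Finset.card hFne
  obtain ⟨hS1, hS2⟩ := (Finset.mem_filter.1 hS).2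
  have hdom : ∀ b, bad b → ∃ s ∈ S, Rr R s b := by
    intro b hb
    by_contra hcon
    push Not at hcon
    have hbS : b ∉ S := fun hb' => hcon b hb' (Or.inl rfl)
    have hin : insert b S ∈ F := by
      rw [hF, Finset.mem_filter]
      refine ⟨Finset.mem_univ _, fun x hx => ?_, fun x hx y hy hxy => ?_⟩
      · rcases Finset.mem_insert.1 hx with rfl | hx
        · exact hb
        · exact hS1 x hx
      · rcases Finset.mem_insert.1 hx with hx' | hx'
        · rcases Finset.mem_insert.1 hy with hy' | hy'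
          · exact absurd (hx'.trans hy'.symm) hxy
          · rw [hx']; exact fun hr => hcon y hy' (Or.inr (hR _ _ hr))
        · rcases Finset.mem_insert.1 hy with hy' | hy'
          · rw [hy']; exact fun hr => hcon x hx' (Or.inr hr)
          · exact hS2 x hx' y hy' hxy
    have := hmax _ hin
    rw [Finset.card_insert_of_notMem hbS] at this
    omega
  set r3 : Q → Q → Prop := fun x y => x ∈ S ∧ y ∈ S ∧ R3 R x y with hr3
  have hr3s : ∀ x y, r3 x y → r3 y x := fun x y h => ⟨h.2.1, h.1, h.2.2.symm hR⟩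
  obtain ⟨s0, hs0, hs0a⟩ := hdom a ha
  have hcov : ∀ x, Relation.ReflTransGen (fun x y => bad x ∧ bad y ∧ R x y) a x →
      ∃ s ∈ S, Relation.ReflTransGen r3 s0 s ∧ Rr R s x := by
    intro x hx
    induction hx with
    | refl => exact ⟨s0, hs0, Relation.ReflTransGen.refl, hs0a⟩
    | @tail x y _ hxy ih =>
      obtain ⟨s, hs, h1, h2⟩ := ih
      obtain ⟨s', hs', h3⟩ := hdom y hxy.2.1
      exact ⟨s', hs', h1.tail ⟨hs, hs', x, y, h2, Or.inr hxy.2.2, h3.symm hR⟩, h3⟩
  have hk : #(cl r3 s0) ≤ k := by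
    by_contra hcon
    push Not at hcon
    obtain ⟨l, hl1, hl2, hl3, hl4, hl5⟩ := long_chain (r := r3) hr3s s0 k hcon
    have hlS : ∀ b ∈ l, b ∈ S := by
      intro b hb
      have h1 := hl5 b hb
      rw [mem_cl] at h1
      rcases Relation.ReflTransGen.cases_tail h1 with h2 | ⟨b', _, h2⟩
      · rw [h2]; exact hs0
      · exact h2.2.1
    obtain ⟨b, l', rfl⟩ : ∃ b l', l = b :: l' := by
      cases l with
      | nil => simp at hl2
      | cons b l' => exact ⟨b, l', rfl⟩
    have hchain : List.IsChain (R3 R) (b :: l') := hl1.imp (fun _ _ h => h.2.2)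
    have hmem := mem_chains (R3 R) l' b hchain
    have hlen : l'.length = 2 * k := by simpa using hl2
    rw [hlen] at hmem
    have h3 : #(b :: l').toFinset = k + 1 := by
      rw [← hl3]
    exact h b ⟨b :: l', hmem, h3.ge, fun x hx => hS1 x (hlS x hx),
      fun x hx y hy hxy => hS2 x (hlS x hx) y (hlS y hy) hxy⟩
  have hsub : cl (fun x y => bad x ∧ bad y ∧ R x y) a ⊆
      (cl r3 s0).biUnion fun s => insert s (univ.filter (R s)) := by
    intro x hx
    rw [mem_cl] at hx
    obtain ⟨s, hs, h1, h2⟩ := hcov x hx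
    rw [Finset.mem_biUnion]
    refine ⟨s, mem_cl.2 h1, ?_⟩
    rcases h2 with h2 | h2
    · rw [h2]; exact Finset.mem_insert_self _ _
    · exact Finset.mem_insert_of_mem (by simpa using h2)
  calc _ ≤ _ := Finset.card_le_card hsub
    _ ≤ ∑ s ∈ cl r3 s0, #(insert s (univ.filter (R s))) := Finset.card_biUnion_le
    _ ≤ ∑ _s ∈ cl r3 s0, (1 + m) := by
        refine Finset.sum_le_sum fun s _ => ?_
        refine (Finset.card_insert_le _ _).trans ?_
        have := hm s
        omega
    _ = #(cl r3 s0) * (1 + m) := by simp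
    _ ≤ k * (1 + m) := Nat.mul_le_mul_right _ hk
    _ = _ := mul_comm _ _

end Pool.Agent.Helper26.Bf
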