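import Pool.Agent.Helper26.Bf.Pot

set_option linter.unusedSectionVars false

namespace Pool.Agent.Helper26.Bf

open Finset Real
open Pool.Agent.Helper26.Loc (ee ee_self sum_ee_mul sum_mul_ee avg avg_mul_left avg_mul_right
  avg_mono avg_const avg_slice sgb abs_sgb setSlice ind ind_true ind_false)
open Pool.Agent.Helper26.Gsw (dev)

namespace Par

variable {V J : Type*} [Fintype V] [DecidableEq V] [Fintype J] [DecidableEq J]

/-- top level functional -/
noncomputable def Gt (P : Par V J) (lam : ℝ) (st : St V J) (j : J) : ℝ :=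
  if st.k j = P.K then lam * (dev P.c P.z j st.x - st.s j) ^ 2
  else if st.k j = P.K + 1 then lam * 46240 else 0

variable {P : Par V J} (hP : P.Ok)
include hP

theorem Gt_one {st : St V J} (hI : P.Inv st) {lam : ℝ} (hl : 0 ≤ lam)
    (hγs : 128 * P.γ ^ 2 * P.D ^ 4 * P.U ^ 4 ≤ 1 / 4 ^ P.K) (T : Finset J) :
    avg (fun ξ : V → Bool => exp (∑ j ∈ T, P.Gt lam (P.step st fun p => sgb (ξ p)) j))
      ≤ exp (∑ j ∈ T, P.Gt lam st j + P.γ ^ 2 / 4 ^ P.K * (lam + 92481 * lam ^ 2) * #T) := by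
  have hst := stOk hP hI
  set α : J → ℝ := fun j => if j ∈ T ∧ st.k j = P.K then lam else 0 with hα
  have hα0 : ∀ j, 0 ≤ α j := fun j => by simp only [hα]; split_ifs <;> simp [hl]
  have hαM : ∀ j, α j ≤ lam := fun j => by
    simp only [hα]; split_ifs
    · exact le_rfl
    · exact hl
  set C1 : ℝ := ∑ j ∈ T, (if st.k j = P.K + 1 then lam * 46240 else 0) with hC1
  have hQQ : ∀ x' : V → ℝ, QQ P.c P.z α st.s (fun _ => 0) x'
      = ∑ j ∈ T, (if st.k j = P.K then lam * (dev P.c P.z j x' - st.s j) ^ 2 else 0) := by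
    intro x'
    unfold QQ
    simp only [zero_mul, Finset.sum_const_zero, sub_zero]
    rw [← Finset.sum_subset (Finset.subset_univ T)]
    · refine Finset.sum_congr rfl fun j hj => ?_
      by_cases h : st.k j = P.K
      · simp [hα, h, hj]
      · simp [hα, h]
    · intro j _ hj
      simp [hα, hj]
  have hpt : ∀ ξ : V → Bool, exp (∑ j ∈ T, P.Gt lam (P.step st fun p => sgb (ξ p)) j)
      ≤ exp C1 * exp (QQ P.c P.z α st.s (fun _ => 0)
          (mvx P.c (P.ff st) (P.wt st.k) P.e P.d P.γ st.x fun p => sgb (ξ p))) := by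
    intro ξ
    rw [← exp_add]
    apply exp_le_exp.2
    rw [hQQ, hC1, ← Finset.sum_add_distrib]
    refine Finset.sum_le_sum fun j _ => ?_
    set ξ' : V → ℝ := fun p => sgb (ξ p) with hξ'
    have hnx : mvx P.c (P.ff st) (P.wt st.k) P.e P.d P.γ st.x ξ' = P.nx st ξ' := rfl
    rw [hnx]
    by_cases h : P.Up st (P.nx st ξ') j
    · have h3 : P.gp (st.k j) ^ 2 ≤ (dev P.c P.z j (P.nx st ξ') - st.s j) ^ 2 := by
        rw [← sq_abs (dev P.c P.z j (P.nx st ξ') - st.s j)]
        exact pow_le_pow_left₀ (hP.gp_pos _).le h.2 2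
      have h4 : st.k j ≤ P.K := h.1
      have h5 : ¬ st.k j = P.K + 1 := by omega
      unfold Gt
      rw [step_k_of_up h, step_s_of_up h, step_x, if_neg h5, zero_add]
      by_cases h6 : st.k j = P.K
      · rw [h6, P.gp_sq'] at h3
        have h7 : ¬ st.k j + 1 = P.K := by omega
        have h8 : st.k j + 1 = P.K + 1 := by omega
        rw [if_neg h7, if_pos h8, if_pos h6]
        exact mul_le_mul_of_nonneg_left h3 hl
      · rw [if_neg h6]
        have h8 : ¬ st.k j + 1 = P.K + 1 := by omega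
        rw [if_neg h8, sub_self]
        split_ifs <;> simp
    · unfold Gt
      rw [step_k_of_not_up h, step_s_of_not_up h, step_x]
      by_cases h6 : st.k j = P.K
      · have h5 : ¬ st.k j = P.K + 1 := by omega
        rw [if_pos h6, if_neg h5, if_pos h6, zero_add]
      · rw [if_neg h6, if_neg h6, add_zero]
  have hmain := step_exp hst P.z st.x hI.hx α st.s (fun _ => 0) hα0 (fun _ => le_rfl) hαM
    (fun _ => hl) (fun i hi => absurd rfl hi) hP.hγ.le
  refine (avg_mono hpt).trans ?_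
  rw [avg_mul_left]
  refine (mul_le_mul_of_nonneg_left hmain (exp_pos _).le).trans ?_
  rw [← exp_add]
  apply exp_le_exp.2
  have hstart : ∑ j ∈ T, P.Gt lam st j = C1 + QQ P.c P.z α st.s (fun _ => 0) st.x := by
    rw [hQQ, hC1, ← Finset.sum_add_distrib]
    refine Finset.sum_congr rfl fun j _ => ?_
    unfold Gt
    by_cases h6 : st.k j = P.K
    · have h5 : ¬ st.k j = P.K + 1 := by omega
      rw [if_pos h6, if_neg h5, if_pos h6, zero_add]
    · rw [if_neg h6, if_neg h6, add_zero]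
  have hU0 := U_pos hP
  have hγ := hP.hγ
  have h4K : (0 : ℝ) < 4 ^ P.K := by positivity
  have hαT : ∀ g : J → ℝ, ∀ B : ℝ, 0 ≤ B → (∀ j, j ∈ T → st.k j = P.K → α j * g j ≤ B) →
      ∑ j, α j * g j ≤ B * #T := by
    intro g B hB hg
    calc ∑ j, α j * g j = ∑ j ∈ T, α j * g j := by
          symm
          apply Finset.sum_subset (Finset.subset_univ T)
          intro j _ hj
          simp [hα, hj]
      _ ≤ ∑ _j ∈ T, B := by
          refine Finset.sum_le_sum fun j hj => ?_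
          by_cases h : st.k j = P.K
          · exact hg j hj h
          · have : α j = 0 := by simp [hα, h]
            rw [this, zero_mul]; exact hB
      _ = _ := by rw [Finset.sum_const, nsmul_eq_mul, mul_comm]
  have hwK : ∀ j, st.k j = P.K → P.wt st.k j = 4 ^ P.K := fun j h => by unfold wt; rw [h]
  have t1 : ∑ j, α j * vr P.c (P.ff st) (P.wt st.k) j ≤ lam / 4 ^ P.K * #T := by
    apply hαT _ _ (by positivity)
    intro j _ h
    have h1 := (vr_le_qr (c := P.c) (f := P.ff st) (P.wt_pos st.k) j).trans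
      (qr_le (P.wt_pos st.k) j)
    rw [hwK j h] at h1
    calc α j * vr P.c (P.ff st) (P.wt st.k) j ≤ lam * (1 / 4 ^ P.K) :=
          mul_le_mul (hαM j) h1 (vr_nonneg j) hl
      _ = _ := by ring
  have t2 : ∑ j, α j ^ 2 * (dev P.c P.z j st.x - st.s j) ^ 2 / P.wt st.k j
      ≤ lam ^ 2 * 46240 / 4 ^ P.K * #T := by
    have e1 : ∀ j, α j ^ 2 * (dev P.c P.z j st.x - st.s j) ^ 2 / P.wt st.k j
        = α j * (α j * (dev P.c P.z j st.x - st.s j) ^ 2 / P.wt st.k j) := fun j => by ring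
    simp only [e1]
    apply hαT _ _ (by positivity)
    intro j _ h
    have h1 := hI.h1 j h.le
    rw [h] at h1
    have h2 : (dev P.c P.z j st.x - st.s j) ^ 2 ≤ 46240 := by
      rw [← P.gp_sq', ← sq_abs]
      exact pow_le_pow_left₀ (abs_nonneg _) h1.le 2
    rw [hwK j h]
    calc α j * (α j * (dev P.c P.z j st.x - st.s j) ^ 2 / 4 ^ P.K)
        = α j ^ 2 * (dev P.c P.z j st.x - st.s j) ^ 2 / 4 ^ P.K := by ring
      _ ≤ lam ^ 2 * 46240 / 4 ^ P.K := by
          apply div_le_div_of_nonneg_right _ h4K.le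
          exact mul_le_mul (pow_le_pow_left₀ (hα0 j) (hαM j) 2) h2 (sq_nonneg _) (by positivity)
  have t3 : ∑ j, α j ≤ lam * #T := by
    have := hαT (fun _ => 1) lam hl (fun j _ _ => by rw [mul_one]; exact hαM j)
    simpa using this
  have t4 : 128 * P.γ ^ 4 * lam * P.D ^ 4 * UU P.D P.W P.d ^ 4 * (∑ j, α j + ∑ _i : V, (0 : ℝ))
      ≤ P.γ ^ 2 / 4 ^ P.K * lam ^ 2 * #T := by
    have hUU : UU P.D P.W P.d = P.U := rfl
    rw [hUU, Finset.sum_const_zero, add_zero]
    calc 128 * P.γ ^ 4 * lam * P.D ^ 4 * P.U ^ 4 * ∑ j, α j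
        ≤ 128 * P.γ ^ 4 * lam * P.D ^ 4 * P.U ^ 4 * (lam * #T) :=
          mul_le_mul_of_nonneg_left t3 (by positivity)
      _ = (128 * P.γ ^ 2 * P.D ^ 4 * P.U ^ 4) * (P.γ ^ 2 * lam ^ 2 * #T) := by ring
      _ ≤ 1 / 4 ^ P.K * (P.γ ^ 2 * lam ^ 2 * #T) :=
          mul_le_mul_of_nonneg_right hγs (by positivity)
      _ = _ := by ring
  have hg2 : 0 ≤ P.γ ^ 2 := sq_nonneg _
  simp only [zero_mul, Finset.sum_const_zero, zero_div, sub_zero, mul_zero, add_zero, ne_eq,
    OfNat.ofNat_ne_zero, not_false_eq_true, zero_pow]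
  simp only [Finset.sum_const_zero, add_zero] at t4
  have t1' := mul_le_mul_of_nonneg_left t1 hg2
  have t2' := mul_le_mul_of_nonneg_left t2 (show 0 ≤ P.γ ^ 2 * 2 by positivity)
  have hfin : P.γ ^ 2 / 4 ^ P.K * (lam + 92481 * lam ^ 2) * #T
      = P.γ ^ 2 * (lam / 4 ^ P.K * #T) + P.γ ^ 2 * 2 * (lam ^ 2 * 46240 / 4 ^ P.K * #T)
        + P.γ ^ 2 / 4 ^ P.K * lam ^ 2 * #T := by ring
  rw [hstart, hfin]
  linarith

/-- joint probability of stopping -/
theorem stop_prob {lam : ℝ} (hl : 0 ≤ lam)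
    (hγs : 128 * P.γ ^ 2 * P.D ^ 4 * P.U ^ 4 ≤ 1 / 4 ^ P.K)
    (hτ : P.N * P.γ ^ 2 / 4 ^ P.K * (1 + 92481 * lam) ≤ 23120) (T : Finset J) :
    avg (fun ω : V → Fin P.N → Bool => ind (∀ j ∈ T, (P.xs ω P.N).k j = P.K + 1))
      ≤ exp (-(23120 * lam)) ^ #T := by
  have hmom : ∀ n : ℕ, n ≤ P.N → avg (fun ω : V → Fin P.N → Bool =>
      exp (∑ j ∈ T, P.Gt lam (P.xs ω n) j))
      ≤ exp (n * (P.γ ^ 2 / 4 ^ P.K * (lam + 92481 * lam ^ 2) * #T)) := by
    intro n
    induction n with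
    | zero =>
      intro _
      have : ∀ ω : V → Fin P.N → Bool, ∑ j ∈ T, P.Gt lam (P.xs ω 0) j = 0 := by
        intro ω
        refine Finset.sum_eq_zero fun j _ => ?_
        have h1 : P.xs ω 0 = P.st0 := rfl
        rw [h1]
        unfold Gt
        have h2 : P.st0.k j = 0 := rfl
        have h3 : dev P.c P.z j P.st0.x - P.st0.s j = 0 := by simp [dev, st0]
        rw [h2, h3]
        have h4 : ¬ (0 : ℕ) = P.K + 1 := by omega
        rw [if_neg h4]
        split_ifs <;> simp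
      simp only [this, exp_zero, avg_const]
      simp
    | succ n ih =>
      intro hn
      have ih := ih (by omega)
      set n' : Fin P.N := ⟨n, hn⟩ with hn'
      rw [avg_slice n']
      have hstep : ∀ (ω : V → Fin P.N → Bool) (ξ : V → Bool), P.xs (setSlice n' ω ξ) (n + 1)
          = P.step (P.xs ω n) (fun p => sgb (ξ p)) := fun ω ξ => xs_succ_setSlice ω n' ξ
      simp only [hstep]
      refine (avg_mono fun ω => Gt_one hP (inv_xs hP ω n) hl hγs T).trans ?_
      simp only [exp_add]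
      rw [avg_mul_right]
      refine (mul_le_mul_of_nonneg_right ih (exp_pos _).le).trans (le_of_eq ?_)
      rw [← exp_add]
      congr 1
      push_cast
      ring
  have hpt : ∀ ω : V → Fin P.N → Bool, ind (∀ j ∈ T, (P.xs ω P.N).k j = P.K + 1)
      ≤ exp (-(46240 * lam * #T)) * exp (∑ j ∈ T, P.Gt lam (P.xs ω P.N) j) := by
    intro ω
    by_cases h : ∀ j ∈ T, (P.xs ω P.N).k j = P.K + 1
    · rw [ind_true h, ← exp_add]
      apply one_le_exp
      have : ∑ j ∈ T, P.Gt lam (P.xs ω P.N) j = ∑ _j ∈ T, lam * 46240 := by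
        refine Finset.sum_congr rfl fun j hj => ?_
        unfold Gt
        rw [h j hj, if_neg (by omega), if_pos rfl]
      rw [this, Finset.sum_const, nsmul_eq_mul]
      apply le_of_eq
      ring
    · rw [ind_false h]; positivity
  refine (avg_mono hpt).trans ?_
  rw [avg_mul_left]
  refine (mul_le_mul_of_nonneg_left (hmom P.N le_rfl) (exp_pos _).le).trans ?_
  rw [← exp_add, ← exp_nat_mul]
  apply exp_le_exp.2
  have h1 : P.N * (P.γ ^ 2 / 4 ^ P.K * (lam + 92481 * lam ^ 2) * #T)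
      = (P.N * P.γ ^ 2 / 4 ^ P.K * (1 + 92481 * lam)) * (lam * #T) := by ring
  rw [h1]
  have h2 := mul_le_mul_of_nonneg_right hτ (show 0 ≤ lam * (#T : ℝ) by positivity)
  linarith

end Par

end Pool.Agent.Helper26.Bf
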