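import Pool.Agent.Helper26.Bf.Params
import Pool.Agent.Helper26.Loc.Pre

namespace Pool.Agent.Helper26.Bf

open Finset Real
open Pool.Agent.Helper26.Loc (exists_pre)
open Pool.Agent.Helper26.Gsw (dev eq_or_of_abs)

variable {V J : Type*} [Fintype V] [Fintype J]

/-- The bound, normalised matrix form. -/
theorem bf_matrix (c : J → V → ℝ) (hc : ∀ i, ∑ j, c j i ^ 2 ≤ 1) {D : ℕ}
    (hD : ∀ j, #(open Classical in univ.filter fun l => ∃ i, c j i ≠ 0 ∧ c l i ≠ 0) ≤ D)
    {t0 : ℝ} (ht00 : 0 ≤ t0) (hent : ∀ j i, c j i ^ 2 ≤ t0)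
    (ht0 : t0 * (10 ^ 17 * (log (2 * D) * (1 + log (1 + log (2 * D)))) ^ 2) ≤ 1)
    (z : V → ℝ) (hz : ∀ i, |z i| ≤ 1) :
    ∃ χ : V → ℤ, (∀ i, χ i = 1 ∨ χ i = -1) ∧
      ∀ j, |∑ i, c j i * ((χ i : ℝ) - z i)| ≤ 3900 := by
  classical
  rcases Nat.eq_zero_or_pos D with hD0 | hD1
  · refine ⟨fun _ => 1, fun _ => Or.inl rfl, fun j => ?_⟩
    have h0 : ∀ i, c j i = 0 := by
      intro i
      by_contra h
      have h1 := hD j
      rw [hD0, Nat.le_zero, Finset.card_eq_zero] at h1
      have : j ∈ univ.filter fun l => ∃ i, c j i ≠ 0 ∧ c l i ≠ 0 := by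
        simp only [Finset.mem_filter, Finset.mem_univ, true_and]
        exact ⟨i, h, h⟩
      rw [h1] at this
      exact absurd this (Finset.notMem_empty j)
    simp only [h0, zero_mul, Finset.sum_const_zero, abs_zero]
    norm_num
  · obtain ⟨x, hx1, hx2, hx3⟩ := exists_pre c hD z hz
    set c' : J → V → ℝ := fun j i => if |x i| < 1 then c j i else 0 with hc'
    have hc'1 : ∀ j i, c' j i ≠ 0 → c j i ≠ 0 ∧ |x i| < 1 := by
      intro j i h
      by_cases h1 : |x i| < 1
      · simp only [hc', if_pos h1] at h; exact ⟨h, h1⟩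
      · simp [hc', h1] at h
    have hc'2 : ∀ j i, c' j i ^ 2 ≤ c j i ^ 2 := by
      intro j i
      simp only [hc']
      split_ifs
      · exact le_rfl
      · rw [zero_pow two_ne_zero]; exact sq_nonneg _
    obtain ⟨χ, hχ1, hχ2⟩ := bf_core c'
      (fun i => le_trans (Finset.sum_le_sum fun j _ => hc'2 j i) (hc i)) hD1
      (fun j => by
        refine le_trans (Finset.card_le_card fun i hi => ?_) (hx3 j)
        exact Finset.mem_filter.2 ⟨Finset.mem_univ _, hc'1 j i (Finset.mem_filter.1 hi).2⟩)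
      (fun i => by
        by_cases h : ∃ j, c' j i ≠ 0
        · obtain ⟨j, hj⟩ := h
          refine le_trans (Finset.card_le_card fun l hl => ?_) (hD j)
          exact Finset.mem_filter.2 ⟨Finset.mem_univ _, i, (hc'1 j i hj).1,
            (hc'1 l i (Finset.mem_filter.1 hl).2).1⟩
        · push Not at h
          rw [Finset.card_eq_zero.2]
          · exact Nat.zero_le _
          · exact Finset.filter_eq_empty_iff.2 fun j _ => by simpa using h j)
      (fun j => by
        refine le_trans (Finset.card_le_card fun l hl => ?_) (hD j)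
        obtain ⟨i, h1, h2⟩ := (Finset.mem_filter.1 hl).2
        exact Finset.mem_filter.2 ⟨Finset.mem_univ _, i, (hc'1 j i h1).1, (hc'1 l i h2).1⟩)
      (t0 := t0) ht00 (fun j i => (hc'2 j i).trans (hent j i)) ht0 x hx1
    set ψ : V → ℝ := fun i => if |x i| < 1 then χ i else x i with hψ
    have hψ1 : ∀ i, ψ i = 1 ∨ ψ i = -1 := by
      intro i
      by_cases h : |x i| < 1
      · simp only [hψ, if_pos h]; exact hχ1 i
      · simp only [hψ, if_neg h]
        exact eq_or_of_abs (le_antisymm (hx1 i) (not_lt.1 h))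
    refine ⟨fun i => if ψ i = 1 then 1 else -1, fun i => ?_, fun j => ?_⟩
    · by_cases h : ψ i = 1
      · left; simp [h]
      · right; simp [h]
    · have e0 : ∑ i, c j i * ((((if ψ i = 1 then 1 else -1 : ℤ)) : ℝ) - z i) =
          ∑ i, c j i * (((if ψ i = 1 then 1 else -1 : ℤ)) : ℝ) - ∑ i, c j i * z i := by
        rw [← Finset.sum_sub_distrib]
        exact Finset.sum_congr rfl fun i _ => by ring
      have e1 : ∀ i, (((if ψ i = 1 then 1 else -1 : ℤ)) : ℝ) = ψ i := by
        intro i
        rcases hψ1 i with h | h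
        · simp [h]
        · rw [h]; norm_num
      have e2 : ∑ i, c j i * (((if ψ i = 1 then 1 else -1 : ℤ)) : ℝ) - ∑ i, c j i * z i =
          dev c' x j χ := by
        have e3 : ∑ i, c j i * ψ i = ∑ i, c j i * x i + dev c' x j χ := by
          unfold dev
          rw [← Finset.sum_add_distrib]
          refine Finset.sum_congr rfl fun i _ => ?_
          by_cases h : |x i| < 1
          · simp only [hψ, hc', if_pos h]; ring
          · simp only [hψ, hc', if_neg h]; ring
        simp only [e1]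
        rw [e3, hx2, add_sub_cancel_left]
      rw [e0, e2]
      exact hχ2 j

/-- The bound for matrices with bounded entries. -/
theorem local_bf (c : J → V → ℝ) (t a : ℝ) (D : ℕ) (ha : 0 ≤ a) (hent : ∀ j i, |c j i| ≤ a)
    (hcol : ∀ i : V, ∑ j : J, c j i ^ 2 ≤ t)
    (hD : ∀ j : J, {l : J | ∃ i : V, c j i ≠ 0 ∧ c l i ≠ 0}.ncard ≤ D)
    (z : V → ℝ) (hz : ∀ i : V, |z i| ≤ 1) :
    ∃ χ : V → ℤ, (∀ i, χ i = 1 ∨ χ i = -1) ∧
      ∀ j : J, |∑ i : V, c j i * ((χ i : ℝ) - z i)|
        ≤ 3900 * (√t + 10 ^ 9 * a * (log (2 * D) * (1 + log (1 + log (2 * D))))) := by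
  classical
  have hlog : 0 ≤ Real.log (2 * D) := by
    rcases Nat.eq_zero_or_pos D with h | h
    · rw [h]; simp
    · exact Real.log_nonneg (by
        have : (1 : ℝ) ≤ D := by exact_mod_cast h
        linarith)
  set Λ := log (2 * D) * (1 + log (1 + log (2 * D))) with hΛ
  have hΛ0 : 0 ≤ Λ := mul_nonneg hlog (by
    have : 0 ≤ log (1 + log (2 * D)) := log_nonneg (by linarith)
    linarith)
  set T : ℝ := max t ((10 ^ 9 * a * Λ) ^ 2) with hT
  have hT0 : 0 ≤ T := le_max_of_le_right (by positivity)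
  rcases hT0.eq_or_lt with h0 | hTpos
  · -- degenerate case: all entries vanish
    refine ⟨fun _ => 1, fun _ => Or.inl rfl, fun j => ?_⟩
    have h0' : ∀ i, c j i = 0 := by
      intro i
      have h1 := hcol i
      have h2 : c j i ^ 2 ≤ ∑ j : J, c j i ^ 2 :=
        Finset.single_le_sum (f := fun j => c j i ^ 2) (fun j _ => sq_nonneg _)
          (Finset.mem_univ j)
      have h4 : t ≤ 0 := by rw [h0]; exact le_max_left _ _
      have h3 : c j i ^ 2 = 0 := le_antisymm (h2.trans (h1.trans h4)) (sq_nonneg _)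
      exact pow_eq_zero_iff two_ne_zero |>.1 h3
    simp only [h0', zero_mul, Finset.sum_const_zero, abs_zero]
    positivity
  · have hst : 0 < √T := Real.sqrt_pos.2 hTpos
    have hst2 : √T ^ 2 = T := Real.sq_sqrt hTpos.le
    obtain ⟨χ, h1, h2⟩ := bf_matrix (fun j i => c j i / √T) (fun i => by
        simp only [div_pow, hst2]
        rw [← Finset.sum_div, div_le_one hTpos]
        exact (hcol i).trans (le_max_left _ _)) (D := D) (fun j => by
        refine le_trans (le_of_eq ?_) (hD j)
        rw [Set.ncard_eq_toFinset_card']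
        congr 1
        ext l
        simp only [Finset.mem_filter, Finset.mem_univ, true_and, Set.mem_toFinset,
          Set.mem_ofPred_eq, ne_eq, div_eq_zero_iff, hst.ne', or_false])
      (t0 := a ^ 2 / T) (by positivity) (fun j i => by
        simp only [div_pow, hst2]
        apply div_le_div_of_nonneg_right _ hTpos.le
        rw [← sq_abs]
        exact pow_le_pow_left₀ (abs_nonneg _) (hent j i) 2) (by
        rw [← hΛ, div_mul_eq_mul_div, div_le_one hTpos]
        refine le_trans ?_ (le_max_right _ _)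
        have : 0 ≤ a ^ 2 * Λ ^ 2 := by positivity
        calc a ^ 2 * (10 ^ 17 * Λ ^ 2) = 10 ^ 17 * (a ^ 2 * Λ ^ 2) := by ring
          _ ≤ 10 ^ 18 * (a ^ 2 * Λ ^ 2) := mul_le_mul_of_nonneg_right (by norm_num) this
          _ = (10 ^ 9 * a * Λ) ^ 2 := by ring) z hz
    refine ⟨χ, h1, fun j => ?_⟩
    have h3 := mul_le_mul_of_nonneg_left (h2 j) hst.le
    have e1 : √T * |∑ i : V, c j i / √T * ((χ i : ℝ) - z i)| =
        |∑ i : V, c j i * ((χ i : ℝ) - z i)| := by
      rw [← abs_of_pos hst, ← abs_mul, abs_of_pos hst, Finset.mul_sum]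
      congr 1
      refine Finset.sum_congr rfl fun i _ => ?_
      field_simp
    rw [e1] at h3
    refine h3.trans ?_
    rw [mul_comm]
    apply mul_le_mul_of_nonneg_left _ (by norm_num)
    rcases le_total t ((10 ^ 9 * a * Λ) ^ 2) with h | h
    · rw [hT, max_eq_right h, Real.sqrt_sq (by positivity)]
      linarith [Real.sqrt_nonneg t]
    · rw [hT, max_eq_left h]
      have : 0 ≤ 10 ^ 9 * a * Λ := by positivity
      linarith

end Pool.Agent.Helper26.Bf
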