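import Pool.Agent.Helper26.Bf.Three

namespace Pool.Agent.Helper26.Bf

open Finset Real

/-- choice of the top level -/
theorem exists_K {Tg : ℝ} (h : 1 ≤ Tg) : ∃ K : ℕ, Tg ≤ 4 ^ K ∧ (4 : ℝ) ^ K ≤ 4 * Tg := by
  obtain ⟨n, h1, h2⟩ := exists_nat_pow_near h (y := (4 : ℝ)) (by norm_num)
  exact ⟨n + 1, h2.le, by rw [pow_succ]; linarith⟩

theorem geom_le (K : ℕ) : ∑ l ∈ range K, ((3 : ℝ) / 4) ^ l ≤ 4 := by
  have h := geom_sum_eq (x := (3 : ℝ) / 4) (by norm_num) K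
  rw [h]
  have : 0 ≤ ((3 : ℝ) / 4) ^ K := by positivity
  rw [div_le_iff_of_neg (by norm_num)]
  linarith

/-- smallness of the step -/
theorem gam (D U T1 : ℝ) (K : ℕ) (hD : 1 ≤ D) (hU : 1 ≤ U) (hT : 1 ≤ T1) :
    0 < 1 / (100 * D ^ 2 * U ^ 2 * 8 ^ (K + 2) * T1) ∧
    1 / (100 * D ^ 2 * U ^ 2 * 8 ^ (K + 2) * T1) ≤ 1 ∧
    128 * (1 / (100 * D ^ 2 * U ^ 2 * 8 ^ (K + 2) * T1)) ^ 2 * 8 ^ (K + 2) * D ^ 4 * U ^ 4
      ≤ 1 / (3 * T1) ∧
    128 * (1 / (100 * D ^ 2 * U ^ 2 * 8 ^ (K + 2) * T1)) ^ 2 * D ^ 4 * U ^ 4 ≤ 1 / 4 ^ K ∧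
    ((K : ℝ) + 1) * ((1 / (100 * D ^ 2 * U ^ 2 * 8 ^ (K + 2) * T1)) * (2 * D * U)) ≤ 1 ∧
    (1 / (100 * D ^ 2 * U ^ 2 * 8 ^ (K + 2) * T1)) * (2 * U) ≤ 1 / (2 * D) := by
  set Q : ℝ := 8 ^ (K + 2) with hQ
  have hQ1 : 1 ≤ Q := one_le_pow₀ (by norm_num)
  have hQ0 : 0 < Q := by linarith
  have hD0 : 0 < D := by linarith
  have hU0 : 0 < U := by linarith
  have hT0 : 0 < T1 := by linarith
  have hD2 : 1 ≤ D ^ 2 := one_le_pow₀ hD
  have hU2 : 1 ≤ U ^ 2 := one_le_pow₀ hU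
  set G : ℝ := 100 * D ^ 2 * U ^ 2 * Q * T1 with hG
  have hG1 : 1 ≤ G := by
    have h1 : 1 ≤ 100 * D ^ 2 := by linarith
    have h2 : 1 ≤ 100 * D ^ 2 * U ^ 2 := one_le_mul_of_one_le_of_one_le h1 hU2
    have h3 : 1 ≤ 100 * D ^ 2 * U ^ 2 * Q := one_le_mul_of_one_le_of_one_le h2 hQ1
    exact one_le_mul_of_one_le_of_one_le h3 hT
  have hG0 : 0 < G := by linarith
  have hga : (1 / G) ^ 2 * D ^ 4 * U ^ 4 = 1 / (10000 * Q ^ 2 * T1 ^ 2) := by
    rw [hG]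
    field_simp
    norm_num
  have hQ4 : (4 : ℝ) ^ K ≤ Q := by
    rw [hQ]
    calc (4 : ℝ) ^ K ≤ 8 ^ K := pow_le_pow_left₀ (by norm_num) (by norm_num) K
      _ ≤ 8 ^ (K + 2) := pow_le_pow_right₀ (by norm_num) (by omega)
  have hKQ : ((K : ℝ) + 1) ≤ Q := by
    have h1 : K + 1 ≤ 8 ^ (K + 2) := by
      have h2 : K + 2 < 8 ^ (K + 2) := Nat.lt_pow_self (by norm_num)
      omega
    rw [hQ]
    exact_mod_cast h1
  have hDU : D * U ≤ (D * U) ^ 2 := by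
    have : 1 ≤ D * U := one_le_mul_of_one_le_of_one_le hD hU
    nlinarith
  have hDU0 : 0 < D * U := mul_pos hD0 hU0
  have e100 : 4 * (D * U) ≤ 100 * D ^ 2 * U ^ 2 := by
    have : 100 * D ^ 2 * U ^ 2 = 100 * (D * U) ^ 2 := by ring
    rw [this]; linarith
  refine ⟨by positivity, by rw [div_le_one hG0]; exact hG1, ?_, ?_, ?_, ?_⟩
  · have e1 : 128 * (1 / G) ^ 2 * Q * D ^ 4 * U ^ 4
        = 128 * Q * ((1 / G) ^ 2 * D ^ 4 * U ^ 4) := by ring
    rw [e1, hga, mul_one_div, div_le_div_iff₀ (by positivity) (by positivity)]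
    have e2 : 1 ≤ Q * T1 := one_le_mul_of_one_le_of_one_le hQ1 hT
    have e3 : 0 ≤ Q * T1 := by positivity
    have e4 : Q * T1 ≤ Q * T1 * (Q * T1) := le_mul_of_one_le_right e3 e2
    have e5 : 1 * (10000 * Q ^ 2 * T1 ^ 2) = 10000 * (Q * T1 * (Q * T1)) := by ring
    rw [e5]
    have e6 : 128 * Q * (3 * T1) = 384 * (Q * T1) := by ring
    rw [e6]
    linarith
  · have e1 : 128 * (1 / G) ^ 2 * D ^ 4 * U ^ 4
        = 128 * ((1 / G) ^ 2 * D ^ 4 * U ^ 4) := by ring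
    rw [e1, hga, mul_one_div, div_le_div_iff₀ (by positivity) (by positivity)]
    have e2 : 1 ≤ T1 ^ 2 := one_le_pow₀ hT
    have e3 : Q ≤ Q ^ 2 := by nlinarith
    have e4 : Q ^ 2 ≤ Q ^ 2 * T1 ^ 2 := le_mul_of_one_le_right (by positivity) e2
    have e5 : 1 * (10000 * Q ^ 2 * T1 ^ 2) = 10000 * (Q ^ 2 * T1 ^ 2) := by ring
    rw [e5]
    linarith
  · have e1 : ((K : ℝ) + 1) * ((1 / G) * (2 * D * U)) = (((K : ℝ) + 1) * (2 * D * U)) / G := by
      ring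
    rw [e1, div_le_one hG0, hG]
    have e2 : (2 : ℝ) * D * U ≤ 100 * D ^ 2 * U ^ 2 := by linarith
    calc ((K : ℝ) + 1) * (2 * D * U) ≤ Q * (100 * D ^ 2 * U ^ 2) :=
          mul_le_mul hKQ e2 (by positivity) (by positivity)
      _ = 100 * D ^ 2 * U ^ 2 * Q * 1 := by ring
      _ ≤ 100 * D ^ 2 * U ^ 2 * Q * T1 := by
          apply mul_le_mul_of_nonneg_left hT (by positivity)
  · rw [one_div_mul_eq_div, div_le_div_iff₀ hG0 (by positivity), hG]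
    have e1 : 2 * U * (2 * D) ≤ 100 * D ^ 2 * U ^ 2 := by linarith
    calc 2 * U * (2 * D) ≤ 100 * D ^ 2 * U ^ 2 := e1
      _ ≤ 100 * D ^ 2 * U ^ 2 * Q := le_mul_of_one_le_right (by positivity) hQ1
      _ ≤ 100 * D ^ 2 * U ^ 2 * Q * T1 :=
          le_mul_of_one_le_right (by positivity) hT
      _ = _ := by ring

/-- the number of balancing steps -/
theorem balance (D : ℕ) :
    ((1 - 1 / (1 + 16 * (D : ℝ))) ^ 2) ^ (1 + 16 * D) ≤ 1 / 2 := by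
  set d : ℕ := 1 + 16 * D with hd
  have hdr : (1 + 16 * (D : ℝ)) = (d : ℝ) := by rw [hd]; push_cast; ring
  have hd1 : (1 : ℝ) ≤ d := by rw [← hdr]; have : (0 : ℝ) ≤ D := by positivity
                               linarith
  have hd0 : (0 : ℝ) < d := by linarith
  rw [hdr, ← pow_mul]
  have h1 : (1 : ℝ) - 1 / d ≤ exp (-(1 / d)) := by
    have := Real.add_one_le_exp (-(1 / (d : ℝ)))
    linarith
  have h0 : (0 : ℝ) ≤ 1 - 1 / d := by
    rw [sub_nonneg, div_le_one hd0]; exact hd1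
  calc (1 - 1 / (d : ℝ)) ^ (2 * d) ≤ exp (-(1 / d)) ^ (2 * d) := pow_le_pow_left₀ h0 h1 _
    _ = exp (-2) := by
        rw [← exp_nat_mul]
        congr 1
        push_cast
        field_simp
    _ ≤ 1 / 2 := by
        have h2 : exp (-2) ≤ exp (-log 2) := by
          apply exp_le_exp.2
          have := Real.log_two_lt_d9
          linarith
        rw [exp_neg (log 2), exp_log (by norm_num)] at h2
        linarith

/-- sizes -/
theorem sizes {X T1 Q W U G N Dr : ℝ} {K d D : ℕ} (hX2 : 2 ≤ X) (hX : X = 2 * (D : ℝ))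
    (hDr : Dr = (D : ℝ)) (hD1 : 1 ≤ D) (hd : d = 1 + 16 * D)
    (hT1 : T1 ≤ X ^ 40) (hT10 : 1 ≤ T1) (h4K : (4 : ℝ) ^ K ≤ X ^ 38) (hQ : Q = 8 ^ (K + 2))
    (hW : W = 4 ^ (K + 1)) (hU : U = (2 + 4 * Dr ^ 2 * W) ^ (2 * d))
    (hG : G = 100 * Dr ^ 2 * U ^ 2 * Q * T1) (hN : N ≤ T1 * G ^ 2) (hN0 : 0 ≤ N) :
    (1 + 2 * Dr ^ 2) * (N * (2 * d + 1)) * Dr * (1 + Dr) < X ^ (52 * (2 * D) ^ 20 + 64) := by
  have hX0 : 0 < X := by linarith
  have hX1 : 1 ≤ X := by linarith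
  have hD1r : (1 : ℝ) ≤ Dr := by rw [hDr]; exact_mod_cast hD1
  have hXD : X = 2 * Dr := by rw [hX, hDr]
  have hDX : Dr ≤ X := by linarith
  have hQX : Q ≤ X ^ 82 := by
    have e1 : (8 : ℝ) ^ K ≤ X ^ 76 := by
      calc (8 : ℝ) ^ K ≤ 16 ^ K := pow_le_pow_left₀ (by norm_num) (by norm_num) K
        _ = ((4 : ℝ) ^ K) ^ 2 := by rw [← pow_mul, mul_comm, pow_mul]; norm_num
        _ ≤ (X ^ 38) ^ 2 := pow_le_pow_left₀ (by positivity) h4K 2
        _ = X ^ 76 := by rw [← pow_mul]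
    rw [hQ, pow_add]
    calc (8 : ℝ) ^ K * 8 ^ 2 ≤ X ^ 76 * X ^ 6 := by
          apply mul_le_mul e1 _ (by norm_num) (by positivity)
          calc (8 : ℝ) ^ 2 = 2 ^ 6 := by norm_num
            _ ≤ X ^ 6 := pow_le_pow_left₀ (by norm_num) hX2 6
      _ = X ^ 82 := by rw [← pow_add]
  have hQ0 : 0 < Q := by rw [hQ]; positivity
  have hW0 : 0 < W := by rw [hW]; positivity
  have hU0 : 0 < U := by rw [hU]; positivity
  have hG0 : 0 < G := by rw [hG]; positivity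
  have hUX : U ≤ X ^ (86 * d) := by
    have e1 : 2 + 4 * Dr ^ 2 * W ≤ X ^ 43 := by
      have e2 : W ≤ X ^ 40 := by
        rw [hW, pow_succ]
        calc (4 : ℝ) ^ K * 4 ≤ X ^ 38 * X ^ 2 := by
              apply mul_le_mul h4K _ (by norm_num) (by positivity)
              nlinarith
          _ = X ^ 40 := by rw [← pow_add]
      have e3 : 4 * Dr ^ 2 * W ≤ X ^ 42 := by
        calc 4 * Dr ^ 2 * W = X ^ 2 * W := by rw [hXD]; ring
          _ ≤ X ^ 2 * X ^ 40 := mul_le_mul_of_nonneg_left e2 (by positivity)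
          _ = X ^ 42 := by rw [← pow_add]
      have e4 : (2 : ℝ) ≤ X ^ 42 := by
        calc (2 : ℝ) ≤ X := hX2
          _ ≤ X ^ 42 := le_self_pow₀ hX1 (by norm_num)
      calc 2 + 4 * Dr ^ 2 * W ≤ X ^ 42 + X ^ 42 := add_le_add e4 e3
        _ = 2 * X ^ 42 := by ring
        _ ≤ X * X ^ 42 := mul_le_mul_of_nonneg_right hX2 (by positivity)
        _ = X ^ 43 := by rw [← pow_succ']
    rw [hU]
    calc (2 + 4 * Dr ^ 2 * W) ^ (2 * d) ≤ (X ^ 43) ^ (2 * d) :=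
          pow_le_pow_left₀ (by positivity) e1 _
      _ = X ^ (86 * d) := by rw [← pow_mul]; congr 1; ring
  have hGX : G ≤ X ^ (131 + 172 * d) := by
    rw [hG]
    have e1 : 100 * Dr ^ 2 ≤ X ^ 9 := by
      calc 100 * Dr ^ 2 ≤ 2 ^ 7 * X ^ 2 := by
            have : Dr ^ 2 ≤ X ^ 2 := pow_le_pow_left₀ (by positivity) hDX 2
            nlinarith
        _ ≤ X ^ 7 * X ^ 2 := mul_le_mul_of_nonneg_right (pow_le_pow_left₀ (by norm_num) hX2 7)
            (by positivity)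
        _ = X ^ 9 := by rw [← pow_add]
    have e2 : U ^ 2 ≤ X ^ (172 * d) := by
      calc U ^ 2 ≤ (X ^ (86 * d)) ^ 2 := pow_le_pow_left₀ hU0.le hUX 2
        _ = _ := by rw [← pow_mul]; congr 1; ring
    calc 100 * Dr ^ 2 * U ^ 2 * Q * T1
        ≤ X ^ 9 * X ^ (172 * d) * X ^ 82 * X ^ 40 := by
          apply mul_le_mul _ hT1 (by positivity) (by positivity)
          apply mul_le_mul _ hQX (by positivity) (by positivity)
          exact mul_le_mul e1 e2 (by positivity) (by positivity)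
      _ = X ^ (131 + 172 * d) := by rw [← pow_add, ← pow_add, ← pow_add]; congr 1; ring
  have hNX : N ≤ X ^ (302 + 344 * d) := by
    calc N ≤ T1 * G ^ 2 := hN
      _ ≤ X ^ 40 * (X ^ (131 + 172 * d)) ^ 2 :=
          mul_le_mul hT1 (pow_le_pow_left₀ hG0.le hGX 2) (by positivity) (by positivity)
      _ = _ := by rw [← pow_mul, ← pow_add]; congr 1; ring
  have e1 : (1 + 2 * Dr ^ 2) * (N * (2 * d + 1)) * Dr * (1 + Dr) ≤ X ^ (312 + 344 * d) := by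
    have a1 : 1 + 2 * Dr ^ 2 ≤ X ^ 2 := by rw [hXD]; nlinarith
    have a2 : (2 * (d : ℝ) + 1) ≤ X ^ 6 := by
      have : (2 * (d : ℝ) + 1) ≤ 2 ^ 5 * X := by
        rw [hd]; push_cast; rw [hXD, ← hDr]; linarith
      calc _ ≤ 2 ^ 5 * X := this
        _ ≤ X ^ 5 * X := mul_le_mul_of_nonneg_right (pow_le_pow_left₀ (by norm_num) hX2 5) hX0.le
        _ = X ^ 6 := by rw [← pow_succ]
    have a3 : 1 + Dr ≤ X := by rw [hXD]; linarith
    calc (1 + 2 * Dr ^ 2) * (N * (2 * d + 1)) * Dr * (1 + Dr)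
        ≤ X ^ 2 * (X ^ (302 + 344 * d) * X ^ 6) * X * X := by
          apply mul_le_mul _ a3 (by positivity) (by positivity)
          apply mul_le_mul _ hDX (by positivity) (by positivity)
          apply mul_le_mul a1 _ (by positivity) (by positivity)
          exact mul_le_mul hNX a2 (by positivity) (by positivity)
      _ = X ^ (312 + 344 * d) := by
          rw [← pow_add, ← pow_add, ← pow_succ, ← pow_succ]
          congr 1
          ring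
  refine lt_of_le_of_lt e1 ?_
  apply pow_lt_pow_right₀ (by linarith)
  have h1 : 2 ^ 20 * D ≤ (2 * D) ^ 20 := by
    rw [mul_pow]
    apply Nat.mul_le_mul_left
    calc D = D ^ 1 := (pow_one D).symm
      _ ≤ D ^ 20 := Nat.pow_le_pow_right hD1 (by norm_num)
  have h2 : (2 : ℕ) ^ 20 = 1048576 := by norm_num
  rw [h2] at h1
  generalize (2 * D) ^ 20 = Y at h1 ⊢
  rw [hd]
  omega

end Pool.Agent.Helper26.Bf
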