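import Mathlib

namespace Pool.Agent.Helper26.Bf

open Finset

variable {V J : Type*} [Fintype V] [DecidableEq V] [Fintype J]

/-- scaled matrix applied to a vector of columns -/
def sT (c : J → V → ℝ) (f : V → ℝ) : (V → ℝ) →ₗ[ℝ] (J → ℝ) where
  toFun y j := ∑ i, c j i * (f i * y i)
  map_add' y z := by
    funext j; simp only [Pi.add_apply, mul_add, Finset.sum_add_distrib]
  map_smul' r y := by
    funext j
    simp only [Pi.smul_apply, smul_eq_mul, RingHom.id_apply, Finset.mul_sum]
    exact Finset.sum_congr rfl fun i _ => by ring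

/-- transposed scaled matrix -/
def sg (c : J → V → ℝ) (f : V → ℝ) : (J → ℝ) →ₗ[ℝ] (V → ℝ) where
  toFun g i := f i * ∑ j, c j i * g j
  map_add' y z := by
    funext j; simp only [Pi.add_apply, mul_add, Finset.sum_add_distrib]
  map_smul' r y := by
    funext j
    simp only [Pi.smul_apply, smul_eq_mul, RingHom.id_apply, Finset.mul_sum]
    exact Finset.sum_congr rfl fun i _ => by ring

/-- multiplication by the weights -/
def wm (w : J → ℝ) : (J → ℝ) →ₗ[ℝ] (J → ℝ) where
  toFun g j := w j * g j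
  map_add' y z := by
    funext j; simp only [Pi.add_apply, mul_add]
  map_smul' r y := by
    funext j
    simp only [Pi.smul_apply, smul_eq_mul, RingHom.id_apply]
    ring

/-- the weighted Gram operator on columns -/
def Hop (c : J → V → ℝ) (f : V → ℝ) (w : J → ℝ) : Module.End ℝ (V → ℝ) :=
  sg c f ∘ₗ wm w ∘ₗ sT c f

/-- one balancing step -/
noncomputable def NO (c : J → V → ℝ) (f : V → ℝ) (w : J → ℝ) (e : ℝ) : Module.End ℝ (V → ℝ) :=
  (1 - e) • 1 - e • Hop c f w

/-- truncated resolvent -/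
noncomputable def RO (c : J → V → ℝ) (f : V → ℝ) (w : J → ℝ) (e : ℝ) :
    ℕ → Module.End ℝ (V → ℝ)
  | 0 => 0
  | d + 1 => e • 1 + NO c f w e * RO c f w e d

variable {c : J → V → ℝ} {f : V → ℝ} {w : J → ℝ} {e : ℝ}

omit [DecidableEq V] [Fintype J] in
theorem sT_apply (y : V → ℝ) (j : J) : sT c f y j = ∑ i, c j i * (f i * y i) := rfl

omit [Fintype V] [DecidableEq V] in
theorem sg_apply (g : J → ℝ) (i : V) : sg c f g i = f i * ∑ j, c j i * g j := rfl

omit [DecidableEq V] in
theorem Hop_apply (y : V → ℝ) : Hop c f w y = sg c f (fun j => w j * sT c f y j) := rfl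

omit [DecidableEq V] in
theorem NO_apply (y : V → ℝ) (i : V) : NO c f w e y i = (1 - e) * y i - e * Hop c f w y i := rfl

omit [DecidableEq V] in
theorem RO_zero (y : V → ℝ) : RO c f w e 0 y = 0 := rfl

omit [DecidableEq V] in
theorem RO_succ (d : ℕ) (y : V → ℝ) (i : V) :
    RO c f w e (d + 1) y i = e * y i + NO c f w e (RO c f w e d y) i := rfl

omit [DecidableEq V] in
/-- adjointness -/
theorem adj (y : V → ℝ) (g : J → ℝ) : ∑ j, g j * sT c f y j = ∑ i, sg c f g i * y i := by
  simp only [sT_apply, sg_apply, Finset.mul_sum, Finset.sum_mul]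
  rw [Finset.sum_comm]
  exact Finset.sum_congr rfl fun i _ => Finset.sum_congr rfl fun j _ => by ring

omit [DecidableEq V] in
theorem ip_Hop (y z : V → ℝ) : ∑ i, y i * Hop c f w z i = ∑ j, w j * (sT c f y j * sT c f z j) := by
  rw [Hop_apply]
  have h := adj (c := c) (f := f) y (fun j => w j * sT c f z j)
  rw [Finset.sum_congr rfl fun i _ => mul_comm (y i) _, ← h]
  exact Finset.sum_congr rfl fun j _ => by ring

/-- symmetric operator -/
def Symm (T : Module.End ℝ (V → ℝ)) : Prop := ∀ y z, ∑ i, y i * T z i = ∑ i, T y i * z i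

omit [DecidableEq V] in
theorem Hop_symm : Symm (Hop c f w) := by
  intro y z
  rw [ip_Hop, Finset.sum_congr rfl fun i _ => mul_comm (Hop c f w y i) _, ip_Hop]
  exact Finset.sum_congr rfl fun j _ => by ring

omit [DecidableEq V] in
theorem NO_symm : Symm (NO c f w e) := by
  intro y z
  have h := Hop_symm (c := c) (f := f) (w := w) y z
  have h1 : ∑ i, y i * NO c f w e z i
      = (1 - e) * ∑ i, y i * z i - e * ∑ i, y i * Hop c f w z i := by
    rw [Finset.mul_sum, Finset.mul_sum, ← Finset.sum_sub_distrib]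
    exact Finset.sum_congr rfl fun i _ => by rw [NO_apply]; ring
  have h2 : ∑ i, NO c f w e y i * z i
      = (1 - e) * ∑ i, y i * z i - e * ∑ i, Hop c f w y i * z i := by
    rw [Finset.mul_sum, Finset.mul_sum, ← Finset.sum_sub_distrib]
    exact Finset.sum_congr rfl fun i _ => by rw [NO_apply]; ring
  rw [h1, h2, h]

omit [DecidableEq V] in
theorem Symm.mul {S T : Module.End ℝ (V → ℝ)} (hS : Symm S) (hT : Symm T) (h : S * T = T * S) :
    Symm (S * T) := by
  intro y z
  rw [Module.End.mul_apply, hS, hT, ← Module.End.mul_apply, h]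

omit [DecidableEq V] in
theorem Symm.pow {T : Module.End ℝ (V → ℝ)} (hT : Symm T) (k : ℕ) : Symm (T ^ k) := by
  induction k with
  | zero => intro y z; simp
  | succ k ih =>
    rw [pow_succ]
    exact ih.mul hT (by rw [← pow_succ, ← pow_succ'])

omit [DecidableEq V] in
theorem comm_HN : Hop c f w * NO c f w e = NO c f w e * Hop c f w := by
  unfold NO
  rw [mul_sub, sub_mul, mul_smul_comm, smul_mul_assoc, mul_smul_comm, smul_mul_assoc, mul_one,
    one_mul]

omit [DecidableEq V] in
theorem comm_NR (d : ℕ) : NO c f w e * RO c f w e d = RO c f w e d * NO c f w e := by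
  induction d with
  | zero => simp [RO]
  | succ d ih =>
    simp only [RO]
    rw [mul_add, add_mul, mul_smul_comm, smul_mul_assoc, mul_one, one_mul, mul_assoc, ← ih]

omit [DecidableEq V] in
theorem comm_HR (d : ℕ) : Hop c f w * RO c f w e d = RO c f w e d * Hop c f w := by
  induction d with
  | zero => simp [RO]
  | succ d ih =>
    simp only [RO]
    rw [mul_add, add_mul, mul_smul_comm, smul_mul_assoc, mul_one, one_mul, ← mul_assoc, comm_HN,
      mul_assoc, mul_assoc, ih]

omit [DecidableEq V] in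
theorem RO_symm (d : ℕ) : Symm (RO c f w e d) := by
  induction d with
  | zero => intro y z; simp [RO]
  | succ d ih =>
    have h1 : Symm (NO c f w e * RO c f w e d) := NO_symm.mul ih (comm_NR d)
    intro y z
    have h2 := h1 y z
    simp only [Module.End.mul_apply] at h2
    simp only [RO_succ, mul_add, add_mul, Finset.sum_add_distrib]
    rw [h2]
    congr 1
    exact Finset.sum_congr rfl fun i _ => by ring

omit [DecidableEq V] in
theorem e_id : e • (1 + Hop c f w) = 1 - NO c f w e := by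
  refine LinearMap.ext fun y => funext fun i => ?_
  change e * (y i + Hop c f w y i) = y i - NO c f w e y i
  rw [NO_apply]
  ring

omit [DecidableEq V] in
theorem res_apply (d : ℕ) (y : V → ℝ) (i : V) :
    RO c f w e d y i + Hop c f w (RO c f w e d y) i = y i - (NO c f w e ^ d) y i := by
  have h : (1 + Hop c f w) * RO c f w e d = 1 - NO c f w e ^ d := by
    induction d with
    | zero => simp [RO]
    | succ d ih =>
      simp only [RO]
      have h2 : (1 + Hop c f w) * NO c f w e = NO c f w e * (1 + Hop c f w) := by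
        rw [add_mul, mul_add, comm_HN, one_mul, mul_one]
      rw [mul_add, mul_smul_comm, mul_one, e_id, ← mul_assoc, h2, mul_assoc, ih, pow_succ',
        mul_sub, mul_one]
      abel
  have h2 := congrFun (LinearMap.congr_fun h y) i
  exact h2

omit [DecidableEq V] in
theorem res_apply' (d : ℕ) (y : V → ℝ) (i : V) :
    RO c f w e d y i + RO c f w e d (Hop c f w y) i = y i - (NO c f w e ^ d) y i := by
  rw [← res_apply]
  congr 1
  have h := congrFun (LinearMap.congr_fun (comm_HR (c := c) (f := f) (w := w) (e := e) d) y) i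
  exact h.symm

/-- hypotheses on the weights and the step -/
structure OpOk (c : J → V → ℝ) (f : V → ℝ) (w : J → ℝ) (e Λ : ℝ) : Prop where
  hw : ∀ j, 0 < w j
  hΛ0 : 0 ≤ Λ
  hΛ : ∀ g : J → ℝ, ∑ i, sg c f g i ^ 2 ≤ Λ * ∑ j, g j ^ 2 / w j
  he : e * (1 + Λ) = 1

section
variable {Λ : ℝ} (h : OpOk c f w e Λ)
include h

omit [DecidableEq V] in
theorem OpOk.e_pos : 0 < e := by
  have h1 := h.he
  have h2 := h.hΛ0
  by_contra hcon
  push Not at hcon
  nlinarith

omit [DecidableEq V] in
theorem OpOk.e_le : e ≤ 1 := by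
  have h1 := h.he
  have h2 := h.hΛ0
  have h3 := h.e_pos
  nlinarith [mul_nonneg h3.le h2]

omit [DecidableEq V] in
theorem Hop_sq_le (y : V → ℝ) :
    ∑ i, Hop c f w y i ^ 2 ≤ Λ * ∑ j, w j * sT c f y j ^ 2 := by
  have h1 := h.hΛ (fun j => w j * sT c f y j)
  refine h1.trans (le_of_eq ?_)
  congr 1
  refine Finset.sum_congr rfl fun j _ => ?_
  have := h.hw j
  field_simp

omit [DecidableEq V] in
theorem NO_sq_le (y : V → ℝ) : ∑ i, NO c f w e y i ^ 2 ≤ (1 - e) ^ 2 * ∑ i, y i ^ 2 := by
  have he0 := h.e_pos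
  have he1 := h.e_le
  have hΛ0 := h.hΛ0
  set E := ∑ j, w j * sT c f y j ^ 2 with hE
  have hE0 : 0 ≤ E := Finset.sum_nonneg fun j _ => mul_nonneg (h.hw j).le (sq_nonneg _)
  have e1 : ∑ i, y i * Hop c f w y i = E := by
    rw [ip_Hop, hE]
    exact Finset.sum_congr rfl fun j _ => by ring
  have e2 := Hop_sq_le h y
  have e3 : ∑ i, NO c f w e y i ^ 2 = (1 - e) ^ 2 * ∑ i, y i ^ 2
      - 2 * (1 - e) * e * ∑ i, y i * Hop c f w y i + e ^ 2 * ∑ i, Hop c f w y i ^ 2 := by
    simp only [NO_apply, Finset.mul_sum]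
    rw [← Finset.sum_sub_distrib, ← Finset.sum_add_distrib]
    exact Finset.sum_congr rfl fun i _ => by ring
  rw [e3, e1]
  have e4 : e ^ 2 * ∑ i, Hop c f w y i ^ 2 ≤ (1 - e) * e * E := by
    calc e ^ 2 * ∑ i, Hop c f w y i ^ 2 ≤ e ^ 2 * (Λ * E) :=
          mul_le_mul_of_nonneg_left e2 (sq_nonneg _)
      _ = (e * Λ) * e * E := by ring
      _ = (1 - e) * e * E := by
          have : e * Λ = 1 - e := by have := h.he; linarith
          rw [this]
  have : 0 ≤ (1 - e) * e * E := mul_nonneg (mul_nonneg (by linarith) he0.le) hE0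
  linarith

omit [DecidableEq V] in
theorem NOpow_sq_le (k : ℕ) (y : V → ℝ) :
    ∑ i, (NO c f w e ^ k) y i ^ 2 ≤ ((1 - e) ^ 2) ^ k * ∑ i, y i ^ 2 := by
  induction k with
  | zero => simp
  | succ k ih =>
    rw [pow_succ', Module.End.mul_apply]
    calc _ ≤ (1 - e) ^ 2 * ∑ i, ((NO c f w e ^ k) y i) ^ 2 := NO_sq_le h _
      _ ≤ (1 - e) ^ 2 * (((1 - e) ^ 2) ^ k * ∑ i, y i ^ 2) :=
          mul_le_mul_of_nonneg_left ih (sq_nonneg _)
      _ = _ := by rw [pow_succ']; ring

omit [DecidableEq V] in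
theorem NOpow_contr (k : ℕ) (y : V → ℝ) :
    ∑ i, (NO c f w e ^ k) y i ^ 2 ≤ ∑ i, y i ^ 2 := by
  refine (NOpow_sq_le h k y).trans ?_
  have h1 : ((1 - e) ^ 2) ^ k ≤ 1 := by
    apply pow_le_one₀ (sq_nonneg _)
    have := h.e_pos
    have := h.e_le
    nlinarith
  have h2 : 0 ≤ ∑ i, y i ^ 2 := Finset.sum_nonneg fun i _ => sq_nonneg _
  nlinarith

omit [DecidableEq V] in
theorem RO_contr (d : ℕ) (y : V → ℝ) : ∑ i, RO c f w e d y i ^ 2 ≤ ∑ i, y i ^ 2 := by
  have he0 := h.e_pos
  have he1 := h.e_le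
  induction d with
  | zero =>
    simp only [RO_zero, Pi.zero_apply, ne_eq, OfNat.ofNat_ne_zero, not_false_eq_true, zero_pow,
      Finset.sum_const_zero]
    exact Finset.sum_nonneg fun i _ => sq_nonneg _
  | succ d ih =>
    set z := RO c f w e d y with hz
    set S := ∑ i, y i ^ 2 with hS
    have hS0 : 0 ≤ S := Finset.sum_nonneg fun i _ => sq_nonneg _
    have h1 := (NO_sq_le h z).trans (mul_le_mul_of_nonneg_left ih (sq_nonneg _))
    set X := ∑ i, NO c f w e z i ^ 2 with hX
    -- cross term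
    have h2 : (∑ i, y i * NO c f w e z i) ^ 2 ≤ S * X := Finset.sum_mul_sq_le_sq_mul_sq _ _ _
    have h3 : (∑ i, y i * NO c f w e z i) ^ 2 ≤ ((1 - e) * S) ^ 2 := by
      refine h2.trans ?_
      nlinarith [mul_le_mul_of_nonneg_left h1 hS0]
    have h4 : ∑ i, y i * NO c f w e z i ≤ (1 - e) * S :=
      (abs_le_of_sq_le_sq' h3 (mul_nonneg (by linarith) hS0)).2
    have e1 : ∑ i, RO c f w e (d + 1) y i ^ 2
        = e ^ 2 * S + 2 * e * ∑ i, y i * NO c f w e z i + X := by
      simp only [RO_succ, ← hz, hS, hX, Finset.mul_sum]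
      rw [← Finset.sum_add_distrib, ← Finset.sum_add_distrib]
      exact Finset.sum_congr rfl fun i _ => by ring
    rw [e1]
    nlinarith [mul_le_mul_of_nonneg_left h4 he0.le]

end

end Pool.Agent.Helper26.Bf
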