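import Pool.Agent.Helper26.Bf.Op
import Pool.Agent.Helper26.Loc.Op

namespace Pool.Agent.Helper26.Bf

open Finset
open Pool.Agent.Helper26.Loc (ee ee_self sum_ee_mul sum_mul_ee)

variable {V J : Type*} [Fintype V] [DecidableEq V] [Fintype J]
variable {c : J → V → ℝ} {f : V → ℝ} {w : J → ℝ} {e Λ : ℝ}

omit [DecidableEq V] in
theorem NO_even (d : ℕ) (y : V → ℝ) :
    ∑ i, y i * (NO c f w e ^ (2 * d)) y i = ∑ i, (NO c f w e ^ d) y i ^ 2 := by
  rw [two_mul, pow_add, Module.End.mul_apply]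
  have h1 := (NO_symm (c := c) (f := f) (w := w) (e := e)).pow d y ((NO c f w e ^ d) y)
  rw [h1]
  exact Finset.sum_congr rfl fun i _ => by ring

omit [DecidableEq V] in
theorem row_id {θ u : J → ℝ} (hu : ∀ j, θ j = u j + w j * sT c f (sg c f u) j) (d : ℕ) (i : V) :
    RO c f w e d (sg c f θ) i = sg c f u i - (NO c f w e ^ d) (sg c f u) i := by
  have h1 : sg c f θ = sg c f u + Hop c f w (sg c f u) := by
    have : θ = u + fun j => w j * sT c f (sg c f u) j := funext hu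
    rw [this, map_add, Hop_apply]
  rw [h1, map_add, ← res_apply']
  rfl

section
variable (h : OpOk c f w e Λ)
include h

omit [DecidableEq V] in
theorem sub_sq_le (d : ℕ) (y : V → ℝ) :
    ∑ i, (y i - (NO c f w e ^ (2 * d)) y i) ^ 2 ≤ ∑ i, y i ^ 2 := by
  have h1 : ∑ i, (y i - (NO c f w e ^ (2 * d)) y i) ^ 2 = ∑ i, y i ^ 2
      - 2 * ∑ i, y i * (NO c f w e ^ (2 * d)) y i + ∑ i, (NO c f w e ^ (2 * d)) y i ^ 2 := by
    rw [Finset.mul_sum, ← Finset.sum_sub_distrib, ← Finset.sum_add_distrib]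
    exact Finset.sum_congr rfl fun i _ => by ring
  rw [h1, NO_even]
  have h2 : ∑ i, (NO c f w e ^ (2 * d)) y i ^ 2 ≤ ∑ i, (NO c f w e ^ d) y i ^ 2 := by
    rw [two_mul, pow_add, Module.End.mul_apply]
    exact NOpow_contr h d _
  have h3 : 0 ≤ ∑ i, (NO c f w e ^ d) y i ^ 2 := Finset.sum_nonneg fun i _ => sq_nonneg _
  linarith

omit [DecidableEq V] in
/-- variance in the direction `θ` -/
theorem row_var {θ u : J → ℝ} (hu : ∀ j, θ j = u j + w j * sT c f (sg c f u) j) (d : ℕ) :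
    ∑ i, RO c f w e (2 * d) (sg c f θ) i ^ 2 ≤ ∑ i, sg c f u i ^ 2 := by
  simp only [row_id hu]
  exact sub_sq_le h d _

omit [DecidableEq V] in
theorem sgu_le {θ u : J → ℝ} (hu : ∀ j, θ j = u j + w j * sT c f (sg c f u) j) :
    ∑ i, sg c f u i ^ 2 ≤ (∑ j, θ j ^ 2 / w j) / 4 := by
  have h1 : ∑ i, sg c f u i ^ 2 = ∑ j, u j * sT c f (sg c f u) j := by
    rw [adj]
    exact Finset.sum_congr rfl fun i _ => by ring
  rw [h1, Finset.sum_div]
  refine Finset.sum_le_sum fun j _ => ?_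
  have hw := h.hw j
  rw [hu j, div_div, le_div_iff₀ (by positivity)]
  nlinarith [sq_nonneg (u j - w j * sT c f (sg c f u) j)]

/-- the step has large diagonal -/
theorem diag_lower (d : ℕ) (hd : ((1 - e) ^ 2) ^ d ≤ 1 / 2) {i : V}
    (hH : Hop c f w (ee i) i ≤ 16) :
    (1 : ℝ) / 4624 ≤ ∑ p, RO c f w e (2 * d) (ee i) p ^ 2 := by
  set y := RO c f w e (2 * d) (ee i) with hy
  set Y := ∑ p, y p ^ 2 with hY
  have hY0 : 0 ≤ Y := Finset.sum_nonneg fun p _ => sq_nonneg _
  set M := NO c f w e ^ (2 * d) with hM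
  have hee : ∑ p, ee i p ^ 2 = 1 := by
    have := sum_ee_mul i (ee i)
    rw [ee_self] at this
    rw [← this]
    exact Finset.sum_congr rfl fun p _ => by ring
  -- diagonal of the remainder
  have h1 : M (ee i) i ≤ 1 / 2 := by
    have h2 := NO_even (c := c) (f := f) (w := w) (e := e) d (ee i)
    rw [sum_ee_mul] at h2
    rw [hM, h2]
    refine (NOpow_sq_le h d _).trans ?_
    rw [hee, mul_one]; exact hd
  -- `<e_i, (1+H) y>`
  have h2 : ∀ p, y p + Hop c f w y p = ee i p - M (ee i) p := fun p => res_apply _ _ _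
  have h3 : 1 / 2 ≤ ∑ p, ee i p * (y p + Hop c f w y p) := by
    simp only [h2]
    rw [sum_ee_mul, ee_self]
    linarith
  -- quadratic form
  set P := ∑ p, ee i p * y p with hP
  set Q := ∑ j, w j * (sT c f (ee i) j * sT c f y j) with hQ
  have h4 : ∑ p, ee i p * (y p + Hop c f w y p) = P + Q := by
    simp only [mul_add, Finset.sum_add_distrib]
    rw [ip_Hop]
  set Q1 := ∑ j, w j * (sT c f (ee i) j * sT c f (ee i) j) with hQ1
  set Q2 := ∑ j, w j * (sT c f y j * sT c f y j) with hQ2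
  have hQ1le : Q1 ≤ 16 := by
    rw [hQ1, ← ip_Hop, sum_ee_mul]; exact hH
  have hQ10 : 0 ≤ Q1 := Finset.sum_nonneg fun j _ => mul_nonneg (h.hw j).le (mul_self_nonneg _)
  have hQ20 : 0 ≤ Q2 := Finset.sum_nonneg fun j _ => mul_nonneg (h.hw j).le (mul_self_nonneg _)
  have hPc : P ^ 2 ≤ 1 * Y := by
    rw [← hee]; exact Finset.sum_mul_sq_le_sq_mul_sq _ _ _
  have hQc : Q ^ 2 ≤ Q1 * Q2 := by
    have h5 := Finset.sum_mul_sq_le_sq_mul_sq Finset.univ
      (fun j => Real.sqrt (w j) * sT c f (ee i) j) (fun j => Real.sqrt (w j) * sT c f y j)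
    have e1 : ∀ j, Real.sqrt (w j) * Real.sqrt (w j) = w j :=
      fun j => Real.mul_self_sqrt (h.hw j).le
    have e2 : ∑ j, (Real.sqrt (w j) * sT c f (ee i) j) * (Real.sqrt (w j) * sT c f y j) = Q :=
      Finset.sum_congr rfl fun j _ => by
        calc _ = (Real.sqrt (w j) * Real.sqrt (w j)) * (sT c f (ee i) j * sT c f y j) := by ring
          _ = _ := by rw [e1]
    have e3 : ∑ j, (Real.sqrt (w j) * sT c f (ee i) j) ^ 2 = Q1 :=
      Finset.sum_congr rfl fun j _ => by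
        calc _ = (Real.sqrt (w j) * Real.sqrt (w j)) * (sT c f (ee i) j * sT c f (ee i) j) := by ring
          _ = _ := by rw [e1]
    have e4 : ∑ j, (Real.sqrt (w j) * sT c f y j) ^ 2 = Q2 :=
      Finset.sum_congr rfl fun j _ => by
        calc _ = (Real.sqrt (w j) * Real.sqrt (w j)) * (sT c f y j * sT c f y j) := by ring
          _ = _ := by rw [e1]
    rw [e2, e3, e4] at h5
    exact h5
  have hPQ : (P + Q) ^ 2 ≤ (1 + Q1) * (Y + Q2) := by
    have h6 : (P * Q) ^ 2 ≤ (Q2) * (Q1 * Y) := by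
      calc (P * Q) ^ 2 = P ^ 2 * Q ^ 2 := by ring
        _ ≤ (1 * Y) * (Q1 * Q2) := mul_le_mul hPc hQc (sq_nonneg _) (by linarith)
        _ = _ := by ring
    have h7 : 2 * (P * Q) ≤ Q2 + Q1 * Y := by
      have h8 : (2 * (P * Q)) ^ 2 ≤ (Q2 + Q1 * Y) ^ 2 := by
        nlinarith [sq_nonneg (Q2 - Q1 * Y)]
      exact (abs_le_of_sq_le_sq' h8 (by positivity)).2
    nlinarith
  -- `<y, (1+H) y> = <y, e_i - M e_i> ≤ |y|`
  have h5 : Y + Q2 = ∑ p, y p * (ee i p - M (ee i) p) := by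
    have : ∑ p, y p * (y p + Hop c f w y p) = Y + Q2 := by
      simp only [mul_add, Finset.sum_add_distrib]
      rw [ip_Hop, hY]
      congr 1
      exact Finset.sum_congr rfl fun p _ => by ring
    rw [← this]
    simp only [h2]
  have h6 : (Y + Q2) ^ 2 ≤ Y * 1 := by
    rw [h5]
    refine (Finset.sum_mul_sq_le_sq_mul_sq _ _ _).trans ?_
    apply mul_le_mul_of_nonneg_left _ hY0
    have := sub_sq_le h d (ee i)
    rw [hee] at this
    exact this
  -- conclusion
  rw [h4] at h3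
  have h7 : (1 / 4 : ℝ) ≤ (1 + Q1) * (Y + Q2) := by nlinarith
  have h8 : (1 / 4 : ℝ) ≤ 17 * (Y + Q2) := by nlinarith
  have h9 : (1 / 68 : ℝ) ≤ Y + Q2 := by linarith
  nlinarith

end

section sup

variable {D : ℕ} (hc : ∀ j i, |c j i| ≤ 1) (hrow : ∀ j, #(univ.filter fun i => c j i ≠ 0) ≤ D)
  (hcol : ∀ i, #(univ.filter fun j => c j i ≠ 0) ≤ D) (hf0 : ∀ i, 0 ≤ f i) (hf : ∀ i, f i ≤ 2)

include hc hrow hf0 hf in
omit [DecidableEq V] [Fintype J] in
theorem abs_sT_le {y : V → ℝ} {B : ℝ} (hB : 0 ≤ B) (hy : ∀ i, |y i| ≤ B) (j : J) :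
    |sT c f y j| ≤ 2 * D * B := by
  rw [sT_apply]
  have e1 : ∑ i, c j i * (f i * y i)
      = ∑ i ∈ univ.filter (fun i => c j i ≠ 0), c j i * (f i * y i) := by
    rw [Finset.sum_filter_of_ne]
    intro i _ h h0
    exact h (by rw [h0, zero_mul])
  rw [e1]
  calc _ ≤ ∑ i ∈ univ.filter (fun i => c j i ≠ 0), |c j i * (f i * y i)| :=
        Finset.abs_sum_le_sum_abs _ _
    _ ≤ ∑ _i ∈ univ.filter (fun i => c j i ≠ 0), 2 * B := by
        refine Finset.sum_le_sum fun i _ => ?_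
        rw [abs_mul, abs_mul, abs_of_nonneg (hf0 i)]
        calc |c j i| * (f i * |y i|) ≤ 1 * (2 * B) :=
              mul_le_mul (hc j i) (mul_le_mul (hf i) (hy i) (abs_nonneg _) (by norm_num))
                (mul_nonneg (hf0 i) (abs_nonneg _)) zero_le_one
          _ = _ := one_mul _
    _ = #(univ.filter fun i => c j i ≠ 0) * (2 * B) := by simp
    _ ≤ D * (2 * B) := by
        apply mul_le_mul_of_nonneg_right _ (by positivity)
        exact_mod_cast hrow j
    _ = _ := by ring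

variable {W : ℝ} (hw0 : ∀ j, 0 < w j) (hw : ∀ j, w j ≤ W)

include hc hrow hcol hf0 hf hw0 hw in
omit [DecidableEq V] in
theorem abs_Hop_le {y : V → ℝ} {B : ℝ} (hB : 0 ≤ B) (hW : 0 ≤ W) (hy : ∀ i, |y i| ≤ B) (i : V) :
    |Hop c f w y i| ≤ 4 * D ^ 2 * W * B := by
  rw [Hop_apply, sg_apply]
  have e1 : ∑ j, c j i * (w j * sT c f y j)
      = ∑ j ∈ univ.filter (fun j => c j i ≠ 0), c j i * (w j * sT c f y j) := by
    rw [Finset.sum_filter_of_ne]
    intro j _ h h0
    exact h (by rw [h0, zero_mul])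
  rw [e1, abs_mul, abs_of_nonneg (hf0 i)]
  have h1 : |∑ j ∈ univ.filter (fun j => c j i ≠ 0), c j i * (w j * sT c f y j)|
      ≤ D * (W * (2 * D * B)) := by
    calc _ ≤ ∑ j ∈ univ.filter (fun j => c j i ≠ 0), |c j i * (w j * sT c f y j)| :=
          Finset.abs_sum_le_sum_abs _ _
      _ ≤ ∑ _j ∈ univ.filter (fun j => c j i ≠ 0), W * (2 * D * B) := by
          refine Finset.sum_le_sum fun j _ => ?_
          rw [abs_mul, abs_mul, abs_of_pos (hw0 j)]
          calc |c j i| * (w j * |sT c f y j|) ≤ 1 * (W * (2 * D * B)) :=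
                mul_le_mul (hc j i) (mul_le_mul (hw j) (abs_sT_le hc hrow hf0 hf hB hy j)
                  (abs_nonneg _) hW) (mul_nonneg (hw0 j).le (abs_nonneg _)) zero_le_one
            _ = _ := one_mul _
      _ = #(univ.filter fun j => c j i ≠ 0) * (W * (2 * D * B)) := by simp
      _ ≤ _ := by
          apply mul_le_mul_of_nonneg_right _ (by positivity)
          exact_mod_cast hcol i
  calc f i * _ ≤ 2 * (D * (W * (2 * D * B))) :=
        mul_le_mul (hf i) h1 (abs_nonneg _) (by norm_num)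
    _ = _ := by ring

include hc hrow hcol hf0 hf hw0 hw in
omit [DecidableEq V] in
theorem abs_RO_le (h : OpOk c f w e Λ) {y : V → ℝ} {B : ℝ} (hB : 0 ≤ B) (hW : 0 ≤ W)
    (hy : ∀ i, |y i| ≤ B) (d : ℕ) :
    ∀ i, |RO c f w e d y i| ≤ (2 + 4 * D ^ 2 * W) ^ d * B := by
  have he0 := h.e_pos
  have he1 := h.e_le
  set X : ℝ := 4 * (D : ℝ) ^ 2 * W with hX
  have hX0 : 0 ≤ X := by positivity
  induction d with
  | zero => intro i; rw [RO_zero]; simp only [Pi.zero_apply, abs_zero]; positivity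
  | succ d ih =>
    intro i
    rw [RO_succ, NO_apply]
    set z := RO c f w e d y with hz
    have hZ0 : 0 ≤ (2 + X) ^ d * B := by positivity
    have h1 := abs_Hop_le hc hrow hcol hf0 hf hw0 hw hZ0 hW ih i
    rw [← hX] at h1
    have h2 : |e * y i + ((1 - e) * z i - e * Hop c f w z i)|
        ≤ e * B + ((1 - e) * ((2 + X) ^ d * B) + e * (X * ((2 + X) ^ d * B))) := by
      refine (abs_add_le _ _).trans (add_le_add ?_ ((abs_sub _ _).trans (add_le_add ?_ ?_)))
      · rw [abs_mul, abs_of_pos he0]; exact mul_le_mul_of_nonneg_left (hy i) he0.le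
      · rw [abs_mul, abs_of_nonneg (by linarith)]
        exact mul_le_mul_of_nonneg_left (ih i) (by linarith)
      · rw [abs_mul, abs_of_pos he0]; exact mul_le_mul_of_nonneg_left h1 he0.le
    refine h2.trans ?_
    have h3 : (1 : ℝ) ≤ (2 + X) ^ d := one_le_pow₀ (by linarith)
    have h4 : e * B ≤ 1 * ((2 + X) ^ d * B) := by
      apply mul_le_mul he1 _ hB zero_le_one
      nlinarith
    have h5 : (1 - e) * ((2 + X) ^ d * B) ≤ 1 * ((2 + X) ^ d * B) :=
      mul_le_mul_of_nonneg_right (by linarith) hZ0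
    have h6 : e * (X * ((2 + X) ^ d * B)) ≤ 1 * (X * ((2 + X) ^ d * B)) :=
      mul_le_mul_of_nonneg_right he1 (by positivity)
    calc _ ≤ 1 * ((2 + X) ^ d * B) + (1 * ((2 + X) ^ d * B) + 1 * (X * ((2 + X) ^ d * B))) :=
          add_le_add h4 (add_le_add h5 h6)
      _ = _ := by ring

theorem RO_ee_symm (d : ℕ) (i p : V) : RO c f w e d (ee i) p = RO c f w e d (ee p) i := by
  have := RO_symm (c := c) (f := f) (w := w) (e := e) d (ee p) (ee i)
  rwa [sum_ee_mul, sum_mul_ee] at this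

include hc hrow hcol hf0 hf hw0 hw in
theorem sum_abs_RO_le (h : OpOk c f w e Λ) (hW : 0 ≤ W) (d : ℕ) (i : V) :
    ∑ p, |RO c f w e d (ee p) i| ≤ (2 + 4 * D ^ 2 * W) ^ d := by
  set y : V → ℝ := fun p => if 0 ≤ RO c f w e d (ee p) i then 1 else -1 with hy
  have hy1 : ∀ p, |y p| ≤ 1 := by
    intro p; simp only [hy]; split_ifs <;> simp
  have h1 := abs_RO_le hc hrow hcol hf0 hf hw0 hw h zero_le_one hW hy1 d i
  rw [mul_one] at h1
  refine le_trans (le_of_eq ?_) ((le_abs_self _).trans h1)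
  have h2 : y = ∑ p, y p • ee p := by
    funext q
    rw [Finset.sum_apply]
    simp [ee, Pi.single_apply]
  have h3 : RO c f w e d y i = ∑ p, y p * RO c f w e d (ee p) i := by
    conv_lhs => rw [h2]
    rw [map_sum, Finset.sum_apply]
    exact Finset.sum_congr rfl fun p _ => by rw [map_smul, Pi.smul_apply, smul_eq_mul]
  rw [h3]
  refine Finset.sum_congr rfl fun p _ => ?_
  simp only [hy]
  split_ifs with h0
  · rw [abs_of_nonneg h0, one_mul]
  · rw [abs_of_neg (not_le.1 h0)]; ring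

end sup

end Pool.Agent.Helper26.Bf
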