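import Pool.Agent.Helper26.Bf.Proc

set_option linter.unusedSectionVars false

namespace Pool.Agent.Helper26.Bf

open Finset Real
open Pool.Agent.Helper26.Loc (ee ee_self sum_ee_mul sum_mul_ee avg avg_mul_left avg_mul_right
  avg_mono avg_const avg_slice sgb abs_sgb setSlice)
open Pool.Agent.Helper26.Gsw (dev)

namespace Par

variable {V J : Type*} [Fintype V] [DecidableEq V] [Fintype J] [DecidableEq J]

/-- energy of a row -/
noncomputable def qj (P : Par V J) (st : St V J) (j : J) : ℝ :=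
  qr P.c (P.ff st) (P.wt st.k) j

/-- coefficients -/
noncomputable def bj (P : Par V J) (st : St V J) (j : J) (i : V) : ℝ :=
  bb P.c (P.ff st) (P.wt st.k) j i

/-- factor of the quadratic part -/
noncomputable def Bk (P : Par V J) (k : ℕ) : ℝ := P.bk k * 4 ^ k

/-- potential of a row -/
noncomputable def Phi (P : Par V J) (st : St V J) (j : J) : ℝ :=
  4 ^ st.k j + P.Bk (st.k j) * ((dev P.c P.z j st.x - st.s j) ^ 2 / 9248 + P.qj st j)

/-- energy after a move, before the update -/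
noncomputable def Rj (P : Par V J) (st : St V J) (x' : V → ℝ) (j : J) : ℝ :=
  P.qj st j + ∑ i ∈ P.alive st, (st.x i ^ 2 - x' i ^ 2) * P.bj st j i ^ 2

theorem qj_nonneg (P : Par V J) (st : St V J) (j : J) : 0 ≤ P.qj st j := qr_nonneg (P.wt_pos _) j

variable {P : Par V J} (hP : P.Ok)
include hP

theorem Bk_pos (k : ℕ) : 0 < P.Bk k := by
  have := hP.bk_pos k
  unfold Bk
  positivity

theorem four_le_Phi (st : St V J) (j : J) : 4 ^ st.k j ≤ P.Phi st j := by
  unfold Phi
  have h1 := P.qj_nonneg st j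
  have h2 := Bk_pos hP (st.k j)
  have : 0 ≤ P.Bk (st.k j) * ((dev P.c P.z j st.x - st.s j) ^ 2 / 9248 + P.qj st j) := by
    positivity
  linarith

theorem Phi_nonneg (st : St V J) (j : J) : 0 ≤ P.Phi st j :=
  le_trans (by positivity) (four_le_Phi hP st j)

omit hP in
theorem sum_alive (st : St V J) (g : V → ℝ) :
    ∑ i ∈ P.alive st, g i = ∑ i, if i ∈ P.alive st then g i else 0 := by
  rw [Finset.sum_ite_mem, Finset.univ_inter]

omit hP in
theorem sum_alive' {st : St V J} {x' : V → ℝ} {j : J} {f' : V → ℝ} (hI : P.Inv st)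
    (h1 : ∀ i ∈ P.alive st, f' i ^ 2 ≤ 2 - x' i ^ 2) (h2 : ∀ i ∉ P.alive st, f' i = 0) :
    ∑ i, (f' i ^ 2 - P.ff st i ^ 2) * bb P.c (P.ff st) (P.wt st.k) j i ^ 2
      ≤ ∑ i ∈ P.alive st, (st.x i ^ 2 - x' i ^ 2) * P.bj st j i ^ 2 := by
  rw [sum_alive]
  refine Finset.sum_le_sum fun i _ => ?_
  by_cases hi : i ∈ P.alive st
  · rw [if_pos hi]
    unfold bj
    apply mul_le_mul_of_nonneg_right _ (sq_nonneg _)
    rw [ff_sq hI.hx hi]
    linarith [h1 i hi]
  · rw [if_neg hi, h2 i hi, ff_zero hi]; simp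

theorem qj_step_le {st : St V J} (hI : P.Inv st) {ξ : V → ℝ} (hξ : ∀ i, |ξ i| ≤ 1) (j : J) :
    P.qj (P.step st ξ) j ≤ P.Rj st (P.nx st ξ) j := by
  have hI' := inv_step hP hI hξ
  refine (qr_update (P.wt_pos st.k) (f := P.ff st) (f' := P.ff (P.step st ξ))
    (w' := P.wt (P.step st ξ).k) (fun l => ?_) j).trans ?_
  · unfold wt
    exact pow_le_pow_right₀ (by norm_num) (k_le_step st ξ l)
  · unfold Rj
    apply add_le_add le_rfl
    apply sum_alive' hI
    · intro i _
      by_cases hi : i ∈ P.alive (P.step st ξ)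
      · rw [ff_sq hI'.hx hi, step_x]
      · rw [ff_zero hi]
        have := (sq_le_one_iff_abs_le_one _).2 (abs_nx_le hP hI hξ i)
        nlinarith
    · intro i hi
      exact ff_zero fun h => hi (alive_step_subset st ξ h)

theorem Rj_nonneg {st : St V J} (hI : P.Inv st) {ξ : V → ℝ} (hξ : ∀ i, |ξ i| ≤ 1) (j : J) :
    0 ≤ P.Rj st (P.nx st ξ) j := by
  classical
  set f' : V → ℝ := fun i => if i ∈ P.alive st then √(2 - P.nx st ξ i ^ 2) else 0 with hf'
  have h1 := qr_update (P.wt_pos st.k) (c := P.c) (f := P.ff st) (f' := f')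
    (w' := P.wt st.k) (fun l => le_rfl) j
  have h2 : 0 ≤ qr P.c f' (P.wt st.k) j := qr_nonneg (P.wt_pos _) j
  refine h2.trans (h1.trans ?_)
  unfold Rj
  apply add_le_add le_rfl
  apply sum_alive' hI
  · intro i hi
    simp only [hf', if_pos hi]
    have := (sq_le_one_iff_abs_le_one _).2 (abs_nx_le hP hI hξ i)
    rw [sq_sqrt (by linarith)]
  · intro i hi
    simp only [hf', if_neg hi]

/-- the potential after a step is dominated by a quadratic function of the new position -/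
theorem Phi_step_le {st : St V J} (hI : P.Inv st) {ξ : V → ℝ} (hξ : ∀ i, |ξ i| ≤ 1) (j : J) :
    P.Phi (P.step st ξ) j ≤ 4 ^ st.k j + P.Bk (st.k j) *
      ((dev P.c P.z j (P.nx st ξ) - st.s j) ^ 2 / 9248 + P.Rj st (P.nx st ξ) j) := by
  set x' := P.nx st ξ with hx'
  have hR0 := Rj_nonneg hP hI hξ j
  have hq := qj_step_le hP hI hξ j
  rw [← hx'] at hR0 hq
  by_cases h : P.Up st (P.nx st ξ) j
  · unfold Phi
    rw [step_k_of_up h, step_s_of_up h, step_x, sub_self]
    have h1 : P.qj (P.step st ξ) j ≤ 1 / 4 ^ (st.k j + 1) := by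
      have := qr_le (c := P.c) (f := P.ff (P.step st ξ)) (P.wt_pos (P.step st ξ).k) j
      unfold qj
      refine this.trans (le_of_eq ?_)
      unfold wt
      rw [step_k_of_up h]
    have hb0 := hP.bk_pos (st.k j)
    have h2 : P.Bk (st.k j + 1) * (0 ^ 2 / 9248 + P.qj (P.step st ξ) j)
        ≤ P.bk (st.k j + 1) := by
      calc P.Bk (st.k j + 1) * (0 ^ 2 / 9248 + P.qj (P.step st ξ) j)
          = P.Bk (st.k j + 1) * P.qj (P.step st ξ) j := by ring
        _ ≤ P.Bk (st.k j + 1) * (1 / 4 ^ (st.k j + 1)) :=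
            mul_le_mul_of_nonneg_left h1 (Bk_pos hP _).le
        _ = _ := by unfold Bk; field_simp
    have h3 : P.gp (st.k j) ^ 2 ≤ (dev P.c P.z j x' - st.s j) ^ 2 := by
      rw [← sq_abs (dev P.c P.z j x' - st.s j)]
      exact pow_le_pow_left₀ (hP.gp_pos _).le h.2 2
    have h4 : 5 * (4 : ℝ) ^ st.k j ≤ P.Bk (st.k j) * (P.gp (st.k j) ^ 2 / 9248) := by
      unfold Bk
      rcases lt_or_eq_of_le h.1 with h5 | h5
      · rw [hP.gp_sq _ h5]
        apply le_of_eq
        field_simp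
        norm_num
      · rw [h5, P.gp_sq', ← h5]
        have h6 : 1 ≤ P.bk (st.k j) := hP.one_le_bk _
        have h7 : (0 : ℝ) < 4 ^ st.k j := by positivity
        nlinarith
    have h5 : P.Bk (st.k j) * (P.gp (st.k j) ^ 2 / 9248)
        ≤ P.Bk (st.k j) * ((dev P.c P.z j x' - st.s j) ^ 2 / 9248 + P.Rj st x' j) := by
      apply mul_le_mul_of_nonneg_left _ (Bk_pos hP _).le
      linarith
    have h6 : P.bk (st.k j + 1) ≤ 2 * 4 ^ st.k j := by
      have h7 := hP.bk_succ (st.k j)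
      have h8 := P.bk_le_two (st.k j)
      have : (2 : ℝ) ^ st.k j ≤ 4 ^ st.k j := pow_le_pow_left₀ (by norm_num) (by norm_num) _
      linarith
    have h7 : (4 : ℝ) ^ (st.k j + 1) = 4 * 4 ^ st.k j := by rw [pow_succ]; ring
    have h8 : (0 : ℝ) < 4 ^ st.k j := by positivity
    rw [h7]
    linarith
  · unfold Phi
    rw [step_k_of_not_up h, step_s_of_not_up h, step_x]
    have h8 : 0 < P.Bk (st.k j) := Bk_pos hP _
    nlinarith

/-- one step of the exponential moment of the potential -/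
theorem Phi_one {st : St V J} (hI : P.Inv st) {ε κ : ℝ} (hε1 : 591872 * ε ≤ 1)
    (hε2 : 128 * P.γ ^ 2 * 8 ^ (P.K + 2) * P.D ^ 4 * P.U ^ 4 ≤ ε) (hκ : 0 ≤ κ)
    (μ : J → ℝ) (hμ : ∀ j, 0 ≤ μ j) (hμε : ∀ j, κ * μ j * P.M ≤ ε) :
    avg (fun ξ : V → Bool => exp (κ * ∑ j, μ j * P.Phi (P.step st fun p => sgb (ξ p)) j))
      ≤ exp (κ * (1 + 2 * P.γ ^ 2 * ε) * ∑ j, μ j * P.Phi st j) := by
  classical
  have hst := stOk hP hI
  have hD1 : (1 : ℝ) ≤ P.D := by exact_mod_cast hP.hD1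
  have hU1 : 1 ≤ P.U := hst.one_le_U
  have hγ := hP.hγ
  have hε0 : 0 ≤ ε := le_trans (by positivity) hε2
  have hε3 : ε ≤ 1 := by linarith
  set A := P.alive st with hA
  set w := P.wt st.k with hw
  have hw0 : ∀ j, 0 < w j := P.wt_pos st.k
  set f := P.ff st with hf
  set α : J → ℝ := fun j => κ * μ j * P.Bk (st.k j) / 9248 with hα
  set η : V → ℝ := fun i => if i ∈ A then κ * ∑ j, μ j * P.Bk (st.k j) * P.bj st j i ^ 2 else 0 with hη
  have h84 : ∀ j, P.Bk (st.k j) = P.bk (st.k j) * w j := by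
    intro j; rw [hw]; rfl
  have hb0 : ∀ j, 0 < P.bk (st.k j) := fun j => hP.bk_pos _
  have hB0 : ∀ j, 0 < P.Bk (st.k j) := fun j => Bk_pos hP _
  have h2K : ∀ j, P.bk (st.k j) ≤ 2 ^ (P.K + 1) :=
    fun j => (P.bk_le_two _).trans (pow_le_pow_right₀ (by norm_num) (hI.hk j))
  have h4K : ∀ j, w j ≤ 4 ^ (P.K + 1) := fun j => pow_le_pow_right₀ (by norm_num) (hI.hk j)
  have hκμ : ∀ j, κ * μ j * P.bk (st.k j) ≤ ε := fun j =>
    (mul_le_mul_of_nonneg_left (P.bk_le_M _) (mul_nonneg hκ (hμ j))).trans (hμε j)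
  have hκμ0 : ∀ j, 0 ≤ κ * μ j := fun j => mul_nonneg hκ (hμ j)
  have hα0 : ∀ j, 0 ≤ α j := fun j => by
    simp only [hα]; have := hκμ0 j; have := hB0 j; positivity
  have hη0 : ∀ i, 0 ≤ η i := by
    intro i
    simp only [hη]
    split_ifs
    · exact mul_nonneg hκ (Finset.sum_nonneg fun j _ =>
        mul_nonneg (mul_nonneg (hμ j) (hB0 j).le) (sq_nonneg _))
    · exact le_rfl
  -- bound for η
  have hηle : ∀ i, η i ≤ 8 * ε := by
    intro i
    by_cases hi : i ∈ A
    · simp only [hη, if_pos hi]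
      rw [Finset.mul_sum]
      calc ∑ j, κ * (μ j * P.Bk (st.k j) * P.bj st j i ^ 2)
          ≤ ∑ j, ε * (w j * P.bj st j i ^ 2) := by
            refine Finset.sum_le_sum fun j _ => ?_
            rw [h84]
            calc κ * (μ j * (P.bk (st.k j) * w j) * P.bj st j i ^ 2)
                = (κ * μ j * P.bk (st.k j)) * (w j * P.bj st j i ^ 2) := by ring
              _ ≤ _ := mul_le_mul_of_nonneg_right (hκμ j)
                  (mul_nonneg (hw0 j).le (sq_nonneg _))
        _ = ε * ∑ j, w j * P.bj st j i ^ 2 := by rw [Finset.mul_sum]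
        _ ≤ ε * 8 := by
            apply mul_le_mul_of_nonneg_left _ hε0
            exact (sum_bb_le hw0 i).trans (mem_alive.1 hi).2.1
        _ = _ := mul_comm _ _
    · simp only [hη, if_neg hi]; positivity
  set M : ℝ := 4 ^ (P.K + 1) with hM
  have hM1 : 1 ≤ M := one_le_pow₀ (by norm_num)
  have hαM : ∀ j, α j ≤ M := by
    intro j
    simp only [hα]
    rw [h84, div_le_iff₀ (by norm_num)]
    calc κ * μ j * (P.bk (st.k j) * w j) = (κ * μ j * P.bk (st.k j)) * w j := by ring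
      _ ≤ 1 * M := mul_le_mul ((hκμ j).trans hε3) (h4K j) (hw0 j).le zero_le_one
      _ ≤ M * 9248 := by linarith
  have hηM : ∀ i, η i ≤ M := fun i => (hηle i).trans (by linarith)
  have hH : ∀ i, η i ≠ 0 → Hop P.c f w (ee i) i ≤ 16 := by
    intro i hi
    by_cases hiA : i ∈ A
    · exact Hop_le hP hI hiA
    · exact absurd (by simp only [hη, if_neg hiA]) hi
  -- the constant part
  set C0 : ℝ := κ * ∑ j, μ j * (4 ^ st.k j + P.Bk (st.k j) *
    (P.qj st j + ∑ i ∈ A, st.x i ^ 2 * P.bj st j i ^ 2)) with hC0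
  have hid : ∀ x' : V → ℝ, κ * ∑ j, μ j * (4 ^ st.k j + P.Bk (st.k j) *
      ((dev P.c P.z j x' - st.s j) ^ 2 / 9248 + P.Rj st x' j))
      = C0 + QQ P.c P.z α st.s η x' := by
    intro x'
    have e1 : ∑ i, η i * x' i ^ 2
        = κ * ∑ j, μ j * P.Bk (st.k j) * ∑ i ∈ A, P.bj st j i ^ 2 * x' i ^ 2 := by
      have e2 : ∀ i, η i * x' i ^ 2 = if i ∈ A then
          κ * ∑ j, μ j * P.Bk (st.k j) * (P.bj st j i ^ 2 * x' i ^ 2) else 0 := by
        intro i
        by_cases hi : i ∈ A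
        · simp only [hη, if_pos hi]
          rw [mul_assoc, Finset.sum_mul]
          congr 1
          exact Finset.sum_congr rfl fun j _ => by ring
        · simp only [hη, if_neg hi, zero_mul]
      simp only [e2]
      rw [Finset.sum_ite_mem, Finset.univ_inter, ← Finset.mul_sum, Finset.sum_comm]
      congr 1
      exact Finset.sum_congr rfl fun j _ => by rw [Finset.mul_sum]
    unfold QQ
    rw [e1, hC0, Finset.mul_sum, Finset.mul_sum, Finset.mul_sum, add_sub_assoc',
      ← Finset.sum_add_distrib, ← Finset.sum_sub_distrib]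
    refine Finset.sum_congr rfl fun j _ => ?_
    unfold Rj
    have e3 : ∑ i ∈ P.alive st, (st.x i ^ 2 - x' i ^ 2) * P.bj st j i ^ 2
        = ∑ i ∈ A, st.x i ^ 2 * P.bj st j i ^ 2 - ∑ i ∈ A, P.bj st j i ^ 2 * x' i ^ 2 := by
      rw [← Finset.sum_sub_distrib]
      exact Finset.sum_congr rfl fun i _ => by ring
    rw [e3]
    simp only [hα]
    ring
  have hstart : κ * ∑ j, μ j * P.Phi st j = C0 + QQ P.c P.z α st.s η st.x := by
    rw [← hid st.x]
    congr 1
    refine Finset.sum_congr rfl fun j _ => ?_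
    unfold Phi Rj
    simp
  have hpt : ∀ ξ : V → Bool, exp (κ * ∑ j, μ j * P.Phi (P.step st fun p => sgb (ξ p)) j)
      ≤ exp C0 * exp (QQ P.c P.z α st.s η
          (mvx P.c f w P.e P.d P.γ st.x fun p => sgb (ξ p))) := by
    intro ξ
    rw [← exp_add]
    apply exp_le_exp.2
    have hξ : ∀ i, |(fun p => sgb (ξ p)) i| ≤ 1 := fun i => (abs_sgb _).le
    have h1 := hid (P.nx st fun p => sgb (ξ p))
    have h2 : mvx P.c f w P.e P.d P.γ st.x (fun p => sgb (ξ p))
        = P.nx st fun p => sgb (ξ p) := rfl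
    rw [h2, ← h1]
    apply mul_le_mul_of_nonneg_left _ hκ
    exact Finset.sum_le_sum fun j _ => mul_le_mul_of_nonneg_left (Phi_step_le hP hI hξ j) (hμ j)
  have hmain := step_exp hst P.z st.x hI.hx α st.s η hα0 hη0 hαM hηM hH hγ.le
  refine (avg_mono hpt).trans ?_
  rw [avg_mul_left]
  refine (mul_le_mul_of_nonneg_left hmain (exp_pos _).le).trans ?_
  rw [← exp_add]
  apply exp_le_exp.2
  -- sums
  set F := κ * ∑ j, μ j * P.Phi st j with hF
  set X := κ * ∑ j, μ j * P.Bk (st.k j) * vr P.c f w j with hX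
  have hvr0 : ∀ j, 0 ≤ vr P.c f w j := fun j => vr_nonneg j
  have hX0 : 0 ≤ X := mul_nonneg hκ (Finset.sum_nonneg fun j _ =>
    mul_nonneg (mul_nonneg (hμ j) (hB0 j).le) (hvr0 j))
  have hηf : ∑ i, η i * f i ^ 2 = X := by
    have e2 : ∀ i, η i * f i ^ 2
        = κ * ∑ j, μ j * P.Bk (st.k j) * (f i ^ 2 * bb P.c f w j i ^ 2) := by
      intro i
      by_cases hi : i ∈ A
      · simp only [hη, if_pos hi]
        rw [mul_assoc, Finset.sum_mul]
        congr 1
        refine Finset.sum_congr rfl fun j _ => ?_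
        unfold bj
        ring
      · have hf0 : f i = 0 := ff_zero hi
        rw [hf0]
        simp
    simp only [e2]
    rw [← Finset.mul_sum, Finset.sum_comm, hX]
    congr 1
    refine Finset.sum_congr rfl fun j _ => ?_
    rw [← Finset.mul_sum]
    rfl
  have hαv : ∑ j, α j * vr P.c f w j = X / 9248 := by
    rw [hX, Finset.mul_sum, Finset.sum_div]
    exact Finset.sum_congr rfl fun j _ => by simp only [hα]; ring
  have hPhiF : ∑ j, α j * (dev P.c P.z j st.x - st.s j) ^ 2 + X ≤ F := by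
    rw [hX, hF, Finset.mul_sum, Finset.mul_sum, ← Finset.sum_add_distrib]
    refine Finset.sum_le_sum fun j _ => ?_
    have h1 : vr P.c f w j ≤ P.qj st j := vr_le_qr hw0 j
    unfold Phi
    have h2 : 0 ≤ κ * μ j := hκμ0 j
    have h3 : (0 : ℝ) < 4 ^ st.k j := by positivity
    have h4 : 0 < P.Bk (st.k j) := hB0 j
    have h5 : 0 ≤ κ * μ j * 4 ^ st.k j := by positivity
    have h6 : κ * μ j * P.Bk (st.k j) * vr P.c f w j ≤ κ * μ j * P.Bk (st.k j) * P.qj st j :=
      mul_le_mul_of_nonneg_left h1 (by positivity)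
    simp only [hα]
    nlinarith
  have hαd0 : 0 ≤ ∑ j, α j * (dev P.c P.z j st.x - st.s j) ^ 2 :=
    Finset.sum_nonneg fun j _ => mul_nonneg (hα0 j) (sq_nonneg _)
  have hlin : ∑ j, α j ^ 2 * (dev P.c P.z j st.x - st.s j) ^ 2 / w j
      ≤ ε / 9248 * ∑ j, α j * (dev P.c P.z j st.x - st.s j) ^ 2 := by
    rw [Finset.mul_sum]
    refine Finset.sum_le_sum fun j _ => ?_
    have h1 : α j / w j ≤ ε / 9248 := by
      simp only [hα]
      rw [h84, div_div, div_le_div_iff₀ (by have := hw0 j; positivity) (by norm_num)]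
      have := hκμ j
      have hwj := hw0 j
      calc κ * μ j * (P.bk (st.k j) * w j) * 9248
          = (κ * μ j * P.bk (st.k j)) * (w j * 9248) := by ring
        _ ≤ ε * (w j * 9248) := mul_le_mul_of_nonneg_right this (by positivity)
        _ = _ := by ring
    calc α j ^ 2 * (dev P.c P.z j st.x - st.s j) ^ 2 / w j
        = (α j / w j) * (α j * (dev P.c P.z j st.x - st.s j) ^ 2) := by ring
      _ ≤ _ := mul_le_mul_of_nonneg_right h1 (mul_nonneg (hα0 j) (sq_nonneg _))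
  have hη2 : ∑ i, f i ^ 2 * η i ^ 2 ≤ 8 * ε * X := by
    rw [← hηf, Finset.mul_sum]
    refine Finset.sum_le_sum fun i _ => ?_
    calc f i ^ 2 * η i ^ 2 = η i * (η i * f i ^ 2) := by ring
      _ ≤ 8 * ε * (η i * f i ^ 2) :=
          mul_le_mul_of_nonneg_right (hηle i) (mul_nonneg (hη0 i) (sq_nonneg _))
  have hαsum : ∑ j, α j ≤ 2 ^ (P.K + 1) * F := by
    rw [hF, Finset.mul_sum, Finset.mul_sum]
    refine Finset.sum_le_sum fun j _ => ?_
    have h1 := four_le_Phi hP st j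
    have h2 : 0 ≤ κ * μ j := hκμ0 j
    have h3 : w j ≤ P.Phi st j := h1
    simp only [hα]
    rw [h84]
    calc κ * μ j * (P.bk (st.k j) * w j) / 9248 ≤ κ * μ j * (P.bk (st.k j) * w j) := by
          apply div_le_self _ (by norm_num)
          have := hw0 j
          have := hb0 j
          positivity
      _ ≤ κ * μ j * (2 ^ (P.K + 1) * P.Phi st j) := by
          apply mul_le_mul_of_nonneg_left _ h2
          exact mul_le_mul (h2K j) h3 (hw0 j).le (by positivity)
      _ = _ := by ring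
  have hηsum : ∑ i, η i ≤ F := by
    have h1 : ∑ i, η i ≤ ∑ i, η i * f i ^ 2 := by
      refine Finset.sum_le_sum fun i _ => ?_
      by_cases hi : i ∈ A
      · have := one_le_ff_sq hI.hx hi
        nlinarith [hη0 i]
      · simp only [hη, if_neg hi, zero_mul, le_refl]
    rw [hηf] at h1
    linarith
  have hF0 : 0 ≤ F := by linarith
  have herr : 128 * P.γ ^ 4 * M * P.D ^ 4 * UU P.D P.W P.d ^ 4 * (∑ j, α j + ∑ i, η i)
      ≤ P.γ ^ 2 * (ε * F) := by
    have hUU : UU P.D P.W P.d = P.U := rfl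
    rw [hUU]
    have h1 : ∑ j, α j + ∑ i, η i ≤ 2 ^ (P.K + 2) * F := by
      have : (1 : ℝ) ≤ 2 ^ (P.K + 1) := one_le_pow₀ (by norm_num)
      calc ∑ j, α j + ∑ i, η i ≤ 2 ^ (P.K + 1) * F + 2 ^ (P.K + 1) * F := by
            apply add_le_add hαsum
            nlinarith
        _ = _ := by rw [pow_succ 2 (P.K + 1)]; ring
    have hU0 : 0 < P.U := by linarith
    calc 128 * P.γ ^ 4 * M * P.D ^ 4 * P.U ^ 4 * (∑ j, α j + ∑ i, η i)
        ≤ 128 * P.γ ^ 4 * M * P.D ^ 4 * P.U ^ 4 * (2 ^ (P.K + 2) * F) :=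
          mul_le_mul_of_nonneg_left h1 (by positivity)
      _ = P.γ ^ 2 * ((128 * P.γ ^ 2 * (M * 2 ^ (P.K + 2)) * P.D ^ 4 * P.U ^ 4) * F) := by ring
      _ ≤ P.γ ^ 2 * ((128 * P.γ ^ 2 * 8 ^ (P.K + 2) * P.D ^ 4 * P.U ^ 4) * F) := by
          apply mul_le_mul_of_nonneg_left _ (by positivity)
          apply mul_le_mul_of_nonneg_right _ hF0
          apply mul_le_mul_of_nonneg_right _ (by positivity)
          apply mul_le_mul_of_nonneg_right _ (by positivity)
          apply mul_le_mul_of_nonneg_left _ (by positivity)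
          rw [hM, show (8 : ℝ) = 4 * 2 by norm_num, mul_pow]
          apply mul_le_mul_of_nonneg_right _ (by positivity)
          exact pow_le_pow_right₀ (by norm_num) (by omega)
      _ ≤ P.γ ^ 2 * (ε * F) := by
          apply mul_le_mul_of_nonneg_left _ (by positivity)
          exact mul_le_mul_of_nonneg_right hε2 hF0
  have hg2 : 0 ≤ P.γ ^ 2 := sq_nonneg _
  rw [hαv, hηf]
  have hεX : ε * X ≤ X / 591872 := by
    rw [le_div_iff₀ (by norm_num)]
    nlinarith
  have hbr : X / 9248 - X / 4624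
      + (2 * ∑ j, α j ^ 2 * (dev P.c P.z j st.x - st.s j) ^ 2 / w j
          + 8 * ∑ i, f i ^ 2 * η i ^ 2) ≤ ε * F := by
    have h1 : 8 * ∑ i, f i ^ 2 * η i ^ 2 ≤ X / 9248 := by linarith
    have h2 : 2 * ∑ j, α j ^ 2 * (dev P.c P.z j st.x - st.s j) ^ 2 / w j ≤ ε * F := by
      have h3 : ε * ∑ j, α j * (dev P.c P.z j st.x - st.s j) ^ 2 ≤ ε * F :=
        mul_le_mul_of_nonneg_left (by linarith) hε0
      have h4 : 0 ≤ ε * ∑ j, α j * (dev P.c P.z j st.x - st.s j) ^ 2 :=
        mul_nonneg hε0 hαd0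
      have h5 : ε / 9248 * ∑ j, α j * (dev P.c P.z j st.x - st.s j) ^ 2
          = (ε * ∑ j, α j * (dev P.c P.z j st.x - st.s j) ^ 2) / 9248 := by ring
      rw [h5] at hlin
      linarith
    linarith
  have hbr2 := mul_le_mul_of_nonneg_left hbr hg2
  have hfin : κ * (1 + 2 * P.γ ^ 2 * ε) * ∑ j, μ j * P.Phi st j
      = F + P.γ ^ 2 * (ε * F) + P.γ ^ 2 * (ε * F) := by rw [hF]; ring
  rw [hfin]
  have hQF : C0 + QQ P.c P.z α st.s η st.x = F := hstart.symm
  linarith

end Par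

end Pool.Agent.Helper26.Bf
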