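import Pool.Agent.Helper26.Bf.Step

set_option linter.unusedSectionVars false

namespace Pool.Agent.Helper26.Bf

open Finset Real
open Pool.Agent.Helper26.Loc (ee ee_self sum_ee_mul sum_mul_ee avg avg_mul_left avg_mono sgb
  abs_sgb setSlice)
open Pool.Agent.Helper26.Gsw (dev)

/-- parameters of the walk -/
structure Par (V J : Type*) where
  c : J → V → ℝ
  D : ℕ
  K : ℕ
  d : ℕ
  z : V → ℝ
  γ : ℝ
  δ : ℝ
  N : ℕ
  M : ℝ

/-- state of the walk: position, levels, anchors -/
structure St (V J : Type*) where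
  x : V → ℝ
  k : J → ℕ
  s : J → ℝ

namespace Par

variable {V J : Type*} [Fintype V] [DecidableEq V] [Fintype J] [DecidableEq J]

/-- step of the truncated resolvent -/
noncomputable def e (P : Par V J) : ℝ := 1 / (1 + 16 * (P.D : ℝ))

/-- maximal weight -/
noncomputable def W (P : Par V J) : ℝ := 4 ^ (P.K + 1)

/-- sup norm bound -/
noncomputable def U (P : Par V J) : ℝ := UU P.D P.W P.d

/-- capped factor of the level `k` -/
noncomputable def bk (P : Par V J) (k : ℕ) : ℝ := min (2 ^ k) P.M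

/-- gap for leaving the level `k` -/
noncomputable def gp (P : Par V J) (k : ℕ) : ℝ := if k < P.K then √(46240 / P.bk k) else √46240

/-- weights of the rows -/
noncomputable def wt (_P : Par V J) (k : J → ℕ) (j : J) : ℝ := 4 ^ k j

/-- load of a column -/
noncomputable def load (P : Par V J) (k : J → ℕ) (i : V) : ℝ := ∑ j, P.wt k j * P.c j i ^ 2

open Classical in
/-- alive columns -/
noncomputable def alive (P : Par V J) (st : St V J) : Finset V :=
  univ.filter fun i => |st.x i| < 1 - P.δ ∧ P.load st.k i ≤ 8 ∧ ∀ j, P.c j i ≠ 0 → st.k j ≤ P.K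

omit [DecidableEq V] [DecidableEq J] in
theorem mem_alive {P : Par V J} {st : St V J} {i : V} : i ∈ P.alive st ↔
    |st.x i| < 1 - P.δ ∧ P.load st.k i ≤ 8 ∧ ∀ j, P.c j i ≠ 0 → st.k j ≤ P.K := by
  simp [alive]

/-- mobilities -/
noncomputable def ff (P : Par V J) (st : St V J) (i : V) : ℝ :=
  if i ∈ P.alive st then √(2 - st.x i ^ 2) else 0

/-- new position -/
noncomputable def nx (P : Par V J) (st : St V J) (ξ : V → ℝ) : V → ℝ :=
  mvx P.c (P.ff st) (P.wt st.k) P.e P.d P.γ st.x ξ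

/-- the row reaches the next level -/
def Up (P : Par V J) (st : St V J) (x' : V → ℝ) (j : J) : Prop :=
  st.k j ≤ P.K ∧ P.gp (st.k j) ≤ |dev P.c P.z j x' - st.s j|

open Classical in
/-- one step -/
noncomputable def step (P : Par V J) (st : St V J) (ξ : V → ℝ) : St V J where
  x := P.nx st ξ
  k := fun j => if P.Up st (P.nx st ξ) j then st.k j + 1 else st.k j
  s := fun j => if P.Up st (P.nx st ξ) j then dev P.c P.z j (P.nx st ξ) else st.s j

/-- bits of time `n` as signs -/
def bit (P : Par V J) (ω : V → Fin P.N → Bool) (n : ℕ) (p : V) : ℝ :=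
  sgb (if h : n < P.N then ω p ⟨n, h⟩ else true)

/-- initial state -/
def st0 (P : Par V J) : St V J := ⟨P.z, fun _ => 0, fun _ => 0⟩

/-- the walk -/
noncomputable def xs (P : Par V J) (ω : V → Fin P.N → Bool) : ℕ → St V J
  | 0 => P.st0
  | n + 1 => P.step (P.xs ω n) (P.bit ω n)

/-- overshoot -/
noncomputable def ov (P : Par V J) : ℝ := P.γ * (2 * P.D * P.U)

/-- bound for the anchors -/
noncomputable def GG (P : Par V J) (k : ℕ) : ℝ := ∑ l ∈ range k, (P.gp l + P.ov)

/-- conditions on the parameters -/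
structure Ok (P : Par V J) : Prop where
  hc : ∀ i, ∑ j, P.c j i ^ 2 ≤ 1
  hrow : ∀ j, #(univ.filter fun i => P.c j i ≠ 0) ≤ P.D
  hcol : ∀ i, #(univ.filter fun j => P.c j i ≠ 0) ≤ P.D
  hD1 : 1 ≤ P.D
  hd : ((1 - P.e) ^ 2) ^ P.d ≤ 1 / 2
  hz : ∀ i, |P.z i| ≤ 1
  hγ : 0 < P.γ
  hδ : P.γ * (2 * P.U) ≤ P.δ
  hM : 1 ≤ P.M

/-- invariants -/
structure Inv (P : Par V J) (st : St V J) : Prop where
  hx : ∀ i, |st.x i| ≤ 1
  hk : ∀ j, st.k j ≤ P.K + 1
  h1 : ∀ j, st.k j ≤ P.K → |dev P.c P.z j st.x - st.s j| < P.gp (st.k j)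
  h2 : ∀ j, st.k j = P.K + 1 → dev P.c P.z j st.x = st.s j
  h3 : ∀ j, |st.s j| ≤ P.GG (st.k j)

theorem bk_le_two (P : Par V J) (k : ℕ) : P.bk k ≤ 2 ^ k := min_le_left _ _

theorem bk_le_M (P : Par V J) (k : ℕ) : P.bk k ≤ P.M := min_le_right _ _

theorem Ok.one_le_bk {P : Par V J} (hP : P.Ok) (k : ℕ) : 1 ≤ P.bk k :=
  le_min (one_le_pow₀ (by norm_num)) hP.hM

theorem Ok.bk_pos {P : Par V J} (hP : P.Ok) (k : ℕ) : 0 < P.bk k :=
  lt_of_lt_of_le one_pos (hP.one_le_bk k)

theorem Ok.bk_succ {P : Par V J} (hP : P.Ok) (k : ℕ) : P.bk (k + 1) ≤ 2 * P.bk k := by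
  have hM := hP.hM
  unfold bk
  rcases le_total ((2 : ℝ) ^ k) P.M with h | h
  · rw [min_eq_left h]
    exact (min_le_left _ _).trans (by rw [pow_succ]; linarith)
  · rw [min_eq_right h]
    exact (min_le_right _ _).trans (by linarith)

theorem Ok.gp_pos {P : Par V J} (hP : P.Ok) (k : ℕ) : 0 < P.gp k := by
  have := hP.bk_pos k
  unfold gp
  split_ifs
  · exact sqrt_pos.2 (by positivity)
  · exact sqrt_pos.2 (by norm_num)

theorem Ok.gp_sq {P : Par V J} (hP : P.Ok) (k : ℕ) (hk : k < P.K) :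
    P.gp k ^ 2 = 46240 / P.bk k := by
  have := hP.bk_pos k
  unfold gp
  rw [if_pos hk, sq_sqrt (by positivity)]

omit [DecidableEq V] [DecidableEq J] [Fintype V] [Fintype J] in
theorem gp_sq' (P : Par V J) : P.gp P.K ^ 2 = 46240 := by
  unfold gp
  rw [if_neg (lt_irrefl _), sq_sqrt (by norm_num)]

omit [DecidableEq V] [Fintype V] [Fintype J] [DecidableEq J] in
theorem wt_pos (P : Par V J) (k : J → ℕ) (j : J) : 0 < P.wt k j := by
  unfold wt; positivity

theorem abs_bit (P : Par V J) (ω : V → Fin P.N → Bool) (n : ℕ) (p : V) : |P.bit ω n p| = 1 :=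
  abs_sgb _

theorem e_pos (P : Par V J) : 0 < P.e := by unfold e; positivity

theorem ff_nonneg (P : Par V J) (st : St V J) (i : V) : 0 ≤ P.ff st i := by
  unfold ff; split_ifs
  · exact sqrt_nonneg _
  · exact le_rfl

theorem ff_sq {P : Par V J} {st : St V J} (hx : ∀ i, |st.x i| ≤ 1) {i : V} (hi : i ∈ P.alive st) :
    P.ff st i ^ 2 = 2 - st.x i ^ 2 := by
  unfold ff
  rw [if_pos hi, sq_sqrt]
  have := (sq_le_one_iff_abs_le_one _).2 (hx i)
  linarith

theorem ff_zero {P : Par V J} {st : St V J} {i : V} (hi : i ∉ P.alive st) : P.ff st i = 0 := by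
  unfold ff; rw [if_neg hi]

theorem ff_sq_le {P : Par V J} {st : St V J} (hx : ∀ i, |st.x i| ≤ 1) (i : V) :
    P.ff st i ^ 2 ≤ 2 := by
  by_cases hi : i ∈ P.alive st
  · rw [ff_sq hx hi]; nlinarith [sq_nonneg (st.x i)]
  · rw [ff_zero hi]; norm_num

theorem ff_le {P : Par V J} {st : St V J} (hx : ∀ i, |st.x i| ≤ 1) (i : V) : P.ff st i ≤ 2 := by
  have h1 := ff_sq_le (P := P) hx i
  have h2 := P.ff_nonneg st i
  nlinarith

theorem one_le_ff_sq {P : Par V J} {st : St V J} (hx : ∀ i, |st.x i| ≤ 1) {i : V}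
    (hi : i ∈ P.alive st) : 1 ≤ P.ff st i ^ 2 := by
  rw [ff_sq hx hi]
  have := (sq_le_one_iff_abs_le_one _).2 (hx i)
  linarith

variable {P : Par V J} (hP : P.Ok)
include hP

theorem abs_c_le (j : J) (i : V) : |P.c j i| ≤ 1 := by
  have h1 : P.c j i ^ 2 ≤ 1 := le_trans
    (Finset.single_le_sum (f := fun j => P.c j i ^ 2) (fun j _ => sq_nonneg _)
      (Finset.mem_univ j)) (hP.hc i)
  exact (sq_le_one_iff_abs_le_one _).1 h1

theorem opOk {st : St V J} (hI : P.Inv st) :
    OpOk P.c (P.ff st) (P.wt st.k) P.e (16 * P.D) where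
  hw := P.wt_pos st.k
  hΛ0 := by positivity
  he := by
    have : (0 : ℝ) < 1 + 16 * P.D := by positivity
    unfold e; field_simp
  hΛ := by
    intro g
    have h1 : ∀ i, sg P.c (P.ff st) g i ^ 2
        ≤ 16 * ∑ j, (if P.c j i ≠ 0 then g j ^ 2 / P.wt st.k j else 0) := by
      intro i
      have hS0 : 0 ≤ ∑ j, (if P.c j i ≠ 0 then g j ^ 2 / P.wt st.k j else 0) :=
        Finset.sum_nonneg fun j _ => by
          split_ifs
          · exact div_nonneg (sq_nonneg _) (P.wt_pos st.k j).le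
          · exact le_rfl
      by_cases hi : i ∈ P.alive st
      · rw [sg_apply, mul_pow]
        have hl := (mem_alive.1 hi).2.1
        have e1 : (∑ j, P.c j i * g j) ^ 2 ≤ P.load st.k i *
            ∑ j, (if P.c j i ≠ 0 then g j ^ 2 / P.wt st.k j else 0) := by
          have h5 := Finset.sum_mul_sq_le_sq_mul_sq Finset.univ
            (fun j => √(P.wt st.k j) * P.c j i)
            (fun j => if P.c j i ≠ 0 then g j / √(P.wt st.k j) else 0)
          have a1 : ∑ j, (√(P.wt st.k j) * P.c j i) *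
              (if P.c j i ≠ 0 then g j / √(P.wt st.k j) else 0) = ∑ j, P.c j i * g j := by
            refine Finset.sum_congr rfl fun j _ => ?_
            have := sqrt_pos.2 (P.wt_pos st.k j)
            by_cases h0 : P.c j i = 0
            · simp [h0]
            · rw [if_pos h0]; field_simp
          have a2 : ∑ j, (√(P.wt st.k j) * P.c j i) ^ 2 = P.load st.k i := by
            refine Finset.sum_congr rfl fun j _ => ?_
            rw [mul_pow, sq_sqrt (P.wt_pos st.k j).le]
          have a3 : ∑ j, (if P.c j i ≠ 0 then g j / √(P.wt st.k j) else 0) ^ 2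
              = ∑ j, (if P.c j i ≠ 0 then g j ^ 2 / P.wt st.k j else 0) := by
            refine Finset.sum_congr rfl fun j _ => ?_
            split_ifs
            · rw [div_pow, sq_sqrt (P.wt_pos st.k j).le]
            · norm_num
          rw [a1, a2, a3] at h5
          exact h5
        have e2 := ff_sq_le (P := P) hI.hx i
        calc P.ff st i ^ 2 * (∑ j, P.c j i * g j) ^ 2
            ≤ 2 * (8 * ∑ j, (if P.c j i ≠ 0 then g j ^ 2 / P.wt st.k j else 0)) := by
              apply mul_le_mul e2 _ (sq_nonneg _) (by norm_num)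
              exact e1.trans (mul_le_mul_of_nonneg_right hl hS0)
          _ = _ := by ring
      · rw [sg_apply, ff_zero hi, zero_mul, zero_pow two_ne_zero]
        positivity
    calc ∑ i, sg P.c (P.ff st) g i ^ 2
        ≤ ∑ i, 16 * ∑ j, (if P.c j i ≠ 0 then g j ^ 2 / P.wt st.k j else 0) :=
          Finset.sum_le_sum fun i _ => h1 i
      _ = 16 * ∑ j, (#(univ.filter fun i => P.c j i ≠ 0) : ℝ) * (g j ^ 2 / P.wt st.k j) := by
          rw [← Finset.mul_sum, Finset.sum_comm]
          congr 1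
          refine Finset.sum_congr rfl fun j _ => ?_
          rw [← Finset.sum_filter, Finset.sum_const, nsmul_eq_mul]
      _ ≤ 16 * ∑ j, (P.D : ℝ) * (g j ^ 2 / P.wt st.k j) := by
          apply mul_le_mul_of_nonneg_left _ (by norm_num)
          refine Finset.sum_le_sum fun j _ => ?_
          apply mul_le_mul_of_nonneg_right _ (div_nonneg (sq_nonneg _) (P.wt_pos st.k j).le)
          exact_mod_cast hP.hrow j
      _ = _ := by rw [← Finset.mul_sum]; ring

theorem stOk {st : St V J} (hI : P.Inv st) :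
    StOk P.c (P.ff st) (P.wt st.k) P.e (16 * P.D) P.D P.W P.d where
  op := opOk hP hI
  hD := hP.hD1
  hc := abs_c_le hP
  hrow := hP.hrow
  hcol := hP.hcol
  hf0 := P.ff_nonneg st
  hf := ff_le hI.hx
  hW := by unfold W; positivity
  hw := fun j => by
    unfold W wt
    exact pow_le_pow_right₀ (by norm_num) (hI.hk j)
  hd := hP.hd

theorem Hop_le {st : St V J} (hI : P.Inv st) {i : V} (hi : i ∈ P.alive st) :
    Hop P.c (P.ff st) (P.wt st.k) (ee i) i ≤ 16 := by
  have h1 : Hop P.c (P.ff st) (P.wt st.k) (ee i) i = P.ff st i ^ 2 * P.load st.k i := by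
    have h2 : ∑ p, ee i p * Hop P.c (P.ff st) (P.wt st.k) (ee i) p
        = Hop P.c (P.ff st) (P.wt st.k) (ee i) i := sum_ee_mul _ _
    rw [← h2, ip_Hop]
    have h3 : ∀ j, sT P.c (P.ff st) (ee i) j = P.c j i * P.ff st i := by
      intro j
      rw [sT_apply, Finset.sum_eq_single i]
      · rw [ee_self, mul_one]
      · intro b _ hb
        simp [ee, hb]
      · intro h; exact absurd (Finset.mem_univ i) h
    simp only [h3]
    unfold load
    rw [Finset.mul_sum]
    exact Finset.sum_congr rfl fun j _ => by ring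
  rw [h1]
  have h2 := (mem_alive.1 hi).2.1
  have h3 := ff_sq_le (P := P) hI.hx i
  have h4 : 0 ≤ P.load st.k i :=
    Finset.sum_nonneg fun j _ => mul_nonneg (P.wt_pos _ j).le (sq_nonneg _)
  calc P.ff st i ^ 2 * P.load st.k i ≤ 2 * 8 := mul_le_mul h3 h2 h4 (by norm_num)
    _ = 16 := by norm_num

theorem U_pos : 0 < P.U := by
  unfold U UU W
  positivity

omit hP in
theorem nx_of_not_mem {st : St V J} {ξ : V → ℝ} {i : V} (hi : i ∉ P.alive st) :
    P.nx st ξ i = st.x i := by
  unfold nx mvx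
  rw [ff_zero hi, zero_mul, mul_zero, add_zero]

theorem abs_nx_sub {st : St V J} (hI : P.Inv st) {ξ : V → ℝ} (hξ : ∀ i, |ξ i| ≤ 1) (i : V) :
    |P.nx st ξ i - st.x i| ≤ P.γ * (2 * P.U) := by
  have h := stOk hP hI
  have h1 := abs_RO_le h.hc h.hrow h.hcol h.hf0 h.hf h.op.hw h.hw h.op zero_le_one h.hW hξ
    (2 * P.d) i
  rw [mul_one] at h1
  unfold nx mvx
  rw [add_sub_cancel_left, abs_mul, abs_of_pos hP.hγ, abs_mul, abs_of_nonneg (h.hf0 i)]
  apply mul_le_mul_of_nonneg_left _ hP.hγ.le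
  exact mul_le_mul (h.hf i) h1 (abs_nonneg _) (by norm_num)

theorem abs_nx_le {st : St V J} (hI : P.Inv st) {ξ : V → ℝ} (hξ : ∀ i, |ξ i| ≤ 1) (i : V) :
    |P.nx st ξ i| ≤ 1 := by
  by_cases hi : i ∈ P.alive st
  · have h1 := (mem_alive.1 hi).1
    have h2 := abs_nx_sub hP hI hξ i
    calc |P.nx st ξ i| = |st.x i + (P.nx st ξ i - st.x i)| := by congr 1; ring
      _ ≤ |st.x i| + |P.nx st ξ i - st.x i| := abs_add_le _ _
      _ ≤ (1 - P.δ) + P.γ * (2 * P.U) := add_le_add h1.le h2
      _ ≤ 1 := by linarith [hP.hδ]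
  · rw [nx_of_not_mem hi]; exact hI.hx i

theorem abs_dev_nx_sub {st : St V J} (hI : P.Inv st) {ξ : V → ℝ} (hξ : ∀ i, |ξ i| ≤ 1) (j : J) :
    |dev P.c P.z j (P.nx st ξ) - dev P.c P.z j st.x| ≤ P.ov := by
  have h1 : dev P.c P.z j (P.nx st ξ) - dev P.c P.z j st.x
      = ∑ i, P.c j i * (P.nx st ξ i - st.x i) := by
    unfold dev
    rw [← Finset.sum_sub_distrib]
    exact Finset.sum_congr rfl fun i _ => by ring
  rw [h1]
  have e1 : ∑ i, P.c j i * (P.nx st ξ i - st.x i)
      = ∑ i ∈ univ.filter (fun i => P.c j i ≠ 0), P.c j i * (P.nx st ξ i - st.x i) := by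
    rw [Finset.sum_filter_of_ne]
    intro i _ h h0
    exact h (by rw [h0, zero_mul])
  rw [e1]
  have hU := U_pos hP
  have hγ := hP.hγ
  calc _ ≤ ∑ i ∈ univ.filter (fun i => P.c j i ≠ 0), |P.c j i * (P.nx st ξ i - st.x i)| :=
        Finset.abs_sum_le_sum_abs _ _
    _ ≤ ∑ _i ∈ univ.filter (fun i => P.c j i ≠ 0), P.γ * (2 * P.U) := by
        refine Finset.sum_le_sum fun i _ => ?_
        rw [abs_mul]
        calc |P.c j i| * |P.nx st ξ i - st.x i| ≤ 1 * (P.γ * (2 * P.U)) :=
              mul_le_mul (abs_c_le hP j i) (abs_nx_sub hP hI hξ i) (abs_nonneg _) zero_le_one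
          _ = _ := one_mul _
    _ = #(univ.filter fun i => P.c j i ≠ 0) * (P.γ * (2 * P.U)) := by simp
    _ ≤ P.D * (P.γ * (2 * P.U)) := by
        apply mul_le_mul_of_nonneg_right _ (by positivity)
        exact_mod_cast hP.hrow j
    _ = _ := by unfold ov; ring

omit hP in
theorem dev_nx_stop {st : St V J} {ξ : V → ℝ} {j : J} (hj : ¬ st.k j ≤ P.K) :
    dev P.c P.z j (P.nx st ξ) = dev P.c P.z j st.x := by
  unfold dev
  refine Finset.sum_congr rfl fun i _ => ?_
  by_cases h : P.c j i = 0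
  · rw [h, zero_mul, zero_mul]
  · rw [nx_of_not_mem (fun hi => hj ((mem_alive.1 hi).2.2 j h))]

omit hP in
theorem step_k_of_up {st : St V J} {ξ : V → ℝ} {j : J} (h : P.Up st (P.nx st ξ) j) :
    (P.step st ξ).k j = st.k j + 1 := by
  simp [step, h]

omit hP in
theorem step_k_of_not_up {st : St V J} {ξ : V → ℝ} {j : J} (h : ¬ P.Up st (P.nx st ξ) j) :
    (P.step st ξ).k j = st.k j := by
  simp [step, h]

omit hP in
theorem step_s_of_up {st : St V J} {ξ : V → ℝ} {j : J} (h : P.Up st (P.nx st ξ) j) :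
    (P.step st ξ).s j = dev P.c P.z j (P.nx st ξ) := by
  simp [step, h]

omit hP in
theorem step_s_of_not_up {st : St V J} {ξ : V → ℝ} {j : J} (h : ¬ P.Up st (P.nx st ξ) j) :
    (P.step st ξ).s j = st.s j := by
  simp [step, h]

omit hP in
theorem step_x (st : St V J) (ξ : V → ℝ) : (P.step st ξ).x = P.nx st ξ := rfl

omit hP in
theorem k_le_step (st : St V J) (ξ : V → ℝ) (j : J) : st.k j ≤ (P.step st ξ).k j := by
  by_cases h : P.Up st (P.nx st ξ) j
  · rw [step_k_of_up h]; exact Nat.le_succ _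
  · rw [step_k_of_not_up h]

theorem ov_nonneg : 0 ≤ P.ov := by
  have := U_pos hP
  have := hP.hγ
  unfold ov; positivity

theorem GG_mono {k l : ℕ} (h : k ≤ l) : P.GG k ≤ P.GG l := by
  unfold GG
  apply Finset.sum_le_sum_of_subset_of_nonneg
  · exact Finset.range_subset_range.2 h
  · intro i _ _
    exact add_nonneg (hP.gp_pos i).le (ov_nonneg hP)

omit hP in
theorem GG_succ (k : ℕ) : P.GG (k + 1) = P.GG k + (P.gp k + P.ov) := by
  unfold GG; rw [Finset.sum_range_succ]

theorem inv_step {st : St V J} (hI : P.Inv st) {ξ : V → ℝ} (hξ : ∀ i, |ξ i| ≤ 1) :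
    P.Inv (P.step st ξ) where
  hx := abs_nx_le hP hI hξ
  hk := by
    intro j
    by_cases h : P.Up st (P.nx st ξ) j
    · rw [step_k_of_up h]; exact Nat.succ_le_succ h.1
    · rw [step_k_of_not_up h]; exact hI.hk j
  h1 := by
    intro j hj
    by_cases h : P.Up st (P.nx st ξ) j
    · rw [step_s_of_up h, step_x, sub_self, abs_zero]; exact hP.gp_pos _
    · rw [step_k_of_not_up h] at hj ⊢
      rw [step_s_of_not_up h, step_x]
      by_contra hcon
      exact h ⟨hj, not_lt.1 hcon⟩
  h2 := by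
    intro j hj
    by_cases h : P.Up st (P.nx st ξ) j
    · rw [step_s_of_up h, step_x]
    · rw [step_k_of_not_up h] at hj
      rw [step_s_of_not_up h, step_x, dev_nx_stop (by omega)]
      exact hI.h2 j hj
  h3 := by
    intro j
    by_cases h : P.Up st (P.nx st ξ) j
    · rw [step_s_of_up h, step_k_of_up h, GG_succ]
      have a1 := abs_dev_nx_sub hP hI hξ j
      have a2 := hI.h1 j h.1
      have a3 := hI.h3 j
      calc |dev P.c P.z j (P.nx st ξ)|
          = |st.s j + ((dev P.c P.z j st.x - st.s j)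
              + (dev P.c P.z j (P.nx st ξ) - dev P.c P.z j st.x))| := by congr 1; ring
        _ ≤ |st.s j| + (|dev P.c P.z j st.x - st.s j|
              + |dev P.c P.z j (P.nx st ξ) - dev P.c P.z j st.x|) :=
            (abs_add_le _ _).trans (add_le_add le_rfl (abs_add_le _ _))
        _ ≤ _ := add_le_add a3 (add_le_add a2.le a1)
    · rw [step_s_of_not_up h, step_k_of_not_up h]; exact hI.h3 j

theorem inv_st0 : P.Inv P.st0 where
  hx := hP.hz
  hk := fun j => Nat.zero_le _
  h1 := by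
    intro j _
    have : dev P.c P.z j P.st0.x - P.st0.s j = 0 := by simp [dev, st0]
    rw [this, abs_zero]
    exact hP.gp_pos _
  h2 := by
    intro j hj
    have : (0 : ℕ) = P.K + 1 := hj
    omega
  h3 := by
    intro j
    simp [st0, GG]

theorem inv_xs (ω : V → Fin P.N → Bool) (n : ℕ) : P.Inv (P.xs ω n) := by
  induction n with
  | zero => exact inv_st0 hP
  | succ n ih => exact inv_step hP ih fun i => (P.abs_bit ω n i).le

theorem abs_dev_le {st : St V J} (hI : P.Inv st) (j : J) :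
    |dev P.c P.z j st.x| ≤ P.GG (P.K + 1) := by
  rcases Nat.lt_or_ge P.K (st.k j) with h | h
  · have h1 : st.k j = P.K + 1 := le_antisymm (hI.hk j) h
    rw [hI.h2 j h1, ← h1]
    exact hI.h3 j
  · have h1 := hI.h1 j h
    have h2 := hI.h3 j
    calc |dev P.c P.z j st.x| = |st.s j + (dev P.c P.z j st.x - st.s j)| := by congr 1; ring
      _ ≤ |st.s j| + |dev P.c P.z j st.x - st.s j| := abs_add_le _ _
      _ ≤ P.GG (st.k j) + (P.gp (st.k j) + P.ov) :=
          add_le_add h2 (h1.le.trans (by linarith [ov_nonneg hP]))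
      _ = P.GG (st.k j + 1) := (GG_succ _).symm
      _ ≤ _ := GG_mono hP (by omega)

omit hP in
theorem load_mono (st : St V J) (ξ : V → ℝ) (i : V) :
    P.load st.k i ≤ P.load (P.step st ξ).k i := by
  unfold load
  refine Finset.sum_le_sum fun j _ => mul_le_mul_of_nonneg_right ?_ (sq_nonneg _)
  unfold wt
  exact pow_le_pow_right₀ (by norm_num) (k_le_step st ξ j)

omit hP in
theorem alive_step_subset (st : St V J) (ξ : V → ℝ) : P.alive (P.step st ξ) ⊆ P.alive st := by
  intro i hi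
  by_contra hcon
  rw [mem_alive] at hi
  obtain ⟨h1, h2, h3⟩ := hi
  apply hcon
  rw [mem_alive]
  rw [step_x, nx_of_not_mem hcon] at h1
  exact ⟨h1, (load_mono st ξ i).trans h2, fun j hj => (k_le_step st ξ j).trans (h3 j hj)⟩

omit hP in
theorem xs_setSlice (ω : V → Fin P.N → Bool) (n : Fin P.N) (ξ : V → Bool) :
    ∀ m : ℕ, m ≤ n → P.xs (setSlice n ω ξ) m = P.xs ω m := by
  intro m
  induction m with
  | zero => intro _; rfl
  | succ m ih =>
    intro hm
    have h1 : P.bit (setSlice n ω ξ) m = P.bit ω m := by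
      funext p
      unfold bit
      by_cases h : m < P.N
      · simp only [dif_pos h]
        congr 1
        unfold setSlice
        rw [Function.update_of_ne]
        intro h2
        have := congrArg Fin.val h2
        simp at this
        omega
      · simp only [dif_neg h]
    change P.step (P.xs (setSlice n ω ξ) m) (P.bit (setSlice n ω ξ) m) = P.step (P.xs ω m) (P.bit ω m)
    rw [ih (by omega), h1]

omit hP in
theorem xs_succ_setSlice (ω : V → Fin P.N → Bool) (n : Fin P.N) (ξ : V → Bool) :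
    P.xs (setSlice n ω ξ) (n + 1) = P.step (P.xs ω n) (fun p => sgb (ξ p)) := by
  have h1 : P.bit (setSlice n ω ξ) n = fun p => sgb (ξ p) := by
    funext p
    unfold bit
    simp [setSlice]
  change P.step (P.xs (setSlice n ω ξ) n) (P.bit (setSlice n ω ξ) n) = _
  rw [xs_setSlice ω n ξ n le_rfl, h1]

end Par

end Pool.Agent.Helper26.Bf
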