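import Pool.Agent.Helper26.Loc.Avg

namespace Pool.Agent.Helper26.Bf

open Finset Real
open Pool.Agent.Helper26.Loc

variable {V : Type*} [Fintype V] [DecidableEq V]

/-- exponential moment of a quadratic function of independent signs -/
theorem avg_exp_rad (l : V → ℝ) (m : V → V → ℝ) (hm : ∀ p q, m p q = m q p) (γ : ℝ)
    (hγ : 0 ≤ γ) :
    avg (fun ξ : V → Bool => exp (2 * γ * ∑ p, sgb (ξ p) * l p
        + γ ^ 2 * ∑ p, ∑ q, sgb (ξ p) * sgb (ξ q) * m p q))
      ≤ exp (γ ^ 2 * ∑ p, m p p + 2 * γ ^ 2 * ∑ p, (|l p| + γ * ∑ q, |m p q|) ^ 2) := by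
  set B : V → ℝ := fun p => |l p| + γ * ∑ q, |m p q| with hB
  have key : ∀ S : Finset V,
      avg (fun ξ : V → Bool => exp (2 * γ * ∑ p ∈ S, sgb (ξ p) * l p
        + γ ^ 2 * ∑ p ∈ S, ∑ q ∈ S, sgb (ξ p) * sgb (ξ q) * m p q))
      ≤ exp (γ ^ 2 * ∑ p ∈ S, m p p + 2 * γ ^ 2 * ∑ p ∈ S, B p ^ 2) := by
    intro S
    induction S using Finset.induction_on with
    | empty =>
      simp only [Finset.sum_empty, mul_zero, add_zero, exp_zero]
      rw [avg_const]
    | insert q S hq ih =>
      set G : (V → Bool) → ℝ := fun ξ => 2 * γ * ∑ p ∈ S, sgb (ξ p) * l p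
        + γ ^ 2 * ∑ p ∈ S, ∑ r ∈ S, sgb (ξ p) * sgb (ξ r) * m p r with hG
      set Lq : (V → Bool) → ℝ := fun ξ => l q + γ * ∑ p ∈ S, sgb (ξ p) * m p q with hLq
      have hsgb2 : ∀ b : Bool, sgb b * sgb b = 1 := by intro b; cases b <;> simp [sgb]
      have hexp : ∀ ξ : V → Bool, ∀ b : Bool,
          2 * γ * ∑ p ∈ insert q S, sgb ((Function.update ξ q b) p) * l p
          + γ ^ 2 * ∑ p ∈ insert q S, ∑ r ∈ insert q S,
              sgb ((Function.update ξ q b) p) * sgb ((Function.update ξ q b) r) * m p r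
          = G ξ + 2 * γ * sgb b * Lq ξ + γ ^ 2 * m q q := by
        intro ξ b
        have hne : ∀ p ∈ S, p ≠ q := fun p hp h => hq (h ▸ hp)
        have e1 : ∑ p ∈ S, sgb ((Function.update ξ q b) p) * l p = ∑ p ∈ S, sgb (ξ p) * l p :=
          Finset.sum_congr rfl fun p hp => by rw [Function.update_of_ne (hne p hp)]
        have e2 : ∑ r ∈ S, sgb ((Function.update ξ q b) q) * sgb ((Function.update ξ q b) r) * m q r
            = sgb b * ∑ p ∈ S, sgb (ξ p) * m p q := by
          rw [Finset.mul_sum]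
          exact Finset.sum_congr rfl fun p hp => by
            rw [Function.update_self, Function.update_of_ne (hne p hp), hm q p]; ring
        have e3 : ∑ p ∈ S, ∑ r ∈ insert q S,
              sgb ((Function.update ξ q b) p) * sgb ((Function.update ξ q b) r) * m p r
            = sgb b * ∑ p ∈ S, sgb (ξ p) * m p q
              + ∑ p ∈ S, ∑ r ∈ S, sgb (ξ p) * sgb (ξ r) * m p r := by
          rw [Finset.mul_sum, ← Finset.sum_add_distrib]
          refine Finset.sum_congr rfl fun p hp => ?_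
          rw [Finset.sum_insert hq, Function.update_self, Function.update_of_ne (hne p hp)]
          congr 1
          · ring
          · exact Finset.sum_congr rfl fun r hr => by rw [Function.update_of_ne (hne r hr)]
        rw [Finset.sum_insert hq, Finset.sum_insert hq, Finset.sum_insert hq, e1, e2, e3,
          Function.update_self, hsgb2]
        simp only [hG, hLq]
        ring
      have hLB : ∀ ξ : V → Bool, Lq ξ ^ 2 ≤ B q ^ 2 := by
        intro ξ
        rw [← sq_abs]
        apply pow_le_pow_left₀ (abs_nonneg _)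
        simp only [hLq, hB]
        refine (abs_add_le _ _).trans (add_le_add le_rfl ?_)
        rw [abs_mul, abs_of_nonneg hγ]
        apply mul_le_mul_of_nonneg_left _ hγ
        calc |∑ p ∈ S, sgb (ξ p) * m p q| ≤ ∑ p ∈ S, |sgb (ξ p) * m p q| :=
              Finset.abs_sum_le_sum_abs _ _
          _ = ∑ p ∈ S, |m q p| :=
              Finset.sum_congr rfl fun p _ => by rw [abs_mul, abs_sgb, one_mul, hm]
          _ ≤ _ := Finset.sum_le_sum_of_subset_of_nonneg (Finset.subset_univ _)
              fun p _ _ => abs_nonneg _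
      have hstep : ∀ ξ : V → Bool,
          (exp (G ξ + 2 * γ * sgb true * Lq ξ + γ ^ 2 * m q q)
            + exp (G ξ + 2 * γ * sgb false * Lq ξ + γ ^ 2 * m q q)) / 2
          ≤ exp (G ξ) * exp (γ ^ 2 * m q q + 2 * γ ^ 2 * B q ^ 2) := by
        intro ξ
        have h := cosh_le_exp_half_sq (2 * γ * Lq ξ)
        rw [cosh_eq] at h
        have e1 : exp (G ξ + 2 * γ * sgb true * Lq ξ + γ ^ 2 * m q q)
            = exp (G ξ) * exp (γ ^ 2 * m q q) * exp (2 * γ * Lq ξ) := by
          rw [← exp_add, ← exp_add]; congr 1; simp [sgb]; ring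
        have e2 : exp (G ξ + 2 * γ * sgb false * Lq ξ + γ ^ 2 * m q q)
            = exp (G ξ) * exp (γ ^ 2 * m q q) * exp (-(2 * γ * Lq ξ)) := by
          rw [← exp_add, ← exp_add]; congr 1; simp [sgb]; ring
        have h2 : exp ((2 * γ * Lq ξ) ^ 2 / 2) ≤ exp (2 * γ ^ 2 * B q ^ 2) := by
          apply exp_le_exp.2
          have := mul_le_mul_of_nonneg_left (hLB ξ) (show (0 : ℝ) ≤ 2 * γ ^ 2 by positivity)
          nlinarith
        have h0 : 0 ≤ exp (G ξ) * exp (γ ^ 2 * m q q) := by positivity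
        have h3 := mul_le_mul_of_nonneg_left (h.trans h2) h0
        have e3 : exp (G ξ) * exp (γ ^ 2 * m q q + 2 * γ ^ 2 * B q ^ 2)
            = exp (G ξ) * exp (γ ^ 2 * m q q) * exp (2 * γ ^ 2 * B q ^ 2) := by
          rw [← exp_add, ← exp_add, ← exp_add]; congr 1; ring
        rw [e1, e2, e3]
        refine le_trans (le_of_eq ?_) h3
        ring
      unfold avg
      rw [sum_bit q]
      simp only [hexp]
      calc _ ≤ (∑ ξ : V → Bool, exp (G ξ) * exp (γ ^ 2 * m q q + 2 * γ ^ 2 * B q ^ 2))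
              / Fintype.card (V → Bool) :=
            div_le_div_of_nonneg_right (Finset.sum_le_sum fun ξ _ => hstep ξ) (by positivity)
        _ = avg (fun ξ : V → Bool => exp (G ξ)) * exp (γ ^ 2 * m q q + 2 * γ ^ 2 * B q ^ 2) := by
            unfold avg
            rw [← Finset.sum_mul, div_mul_eq_mul_div]
        _ ≤ exp (γ ^ 2 * ∑ p ∈ S, m p p + 2 * γ ^ 2 * ∑ p ∈ S, B p ^ 2) *
              exp (γ ^ 2 * m q q + 2 * γ ^ 2 * B q ^ 2) :=
            mul_le_mul_of_nonneg_right ih (exp_pos _).le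
        _ = _ := by
            rw [← exp_add, Finset.sum_insert hq, Finset.sum_insert hq]
            congr 1; ring
  exact key univ

end Pool.Agent.Helper26.Bf
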