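import Pool.Agent.Helper26.Bf.En
import Pool.Agent.Helper26.Bf.Rad
import Pool.Agent.Helper26.GswWalk

set_option linter.unusedSectionVars false

namespace Pool.Agent.Helper26.Bf

open Finset Real
open Pool.Agent.Helper26.Loc (ee ee_self sum_ee_mul sum_mul_ee avg avg_mul_left avg_mono sgb)
open Pool.Agent.Helper26.Gsw (dev)

variable {V J : Type*} [Fintype V] [DecidableEq V] [Fintype J] [DecidableEq J]

/-- one move -/
noncomputable def mvx (c : J → V → ℝ) (f : V → ℝ) (w : J → ℝ) (e : ℝ) (d : ℕ) (γ : ℝ)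
    (x ξ : V → ℝ) : V → ℝ := fun i => x i + γ * (f i * RO c f w e (2 * d) ξ i)

/-- quadratic functional -/
noncomputable def QQ (c : J → V → ℝ) (z : V → ℝ) (α s : J → ℝ) (η : V → ℝ) (x : V → ℝ) : ℝ :=
  ∑ j, α j * (dev c z j x - s j) ^ 2 - ∑ i, η i * x i ^ 2

/-- standing hypotheses for one step -/
structure StOk (c : J → V → ℝ) (f : V → ℝ) (w : J → ℝ) (e Λ : ℝ) (D : ℕ) (W : ℝ) (d : ℕ) :
    Prop where
  op : OpOk c f w e Λ
  hD : 1 ≤ D
  hc : ∀ j i, |c j i| ≤ 1
  hrow : ∀ j, #(univ.filter fun i => c j i ≠ 0) ≤ D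
  hcol : ∀ i, #(univ.filter fun j => c j i ≠ 0) ≤ D
  hf0 : ∀ i, 0 ≤ f i
  hf : ∀ i, f i ≤ 2
  hW : 0 ≤ W
  hw : ∀ j, w j ≤ W
  hd : ((1 - e) ^ 2) ^ d ≤ 1 / 2

/-- sup norm constant -/
noncomputable def UU (D : ℕ) (W : ℝ) (d : ℕ) : ℝ := (2 + 4 * (D : ℝ) ^ 2 * W) ^ (2 * d)

section

variable {c : J → V → ℝ} {f : V → ℝ} {w : J → ℝ} {e Λ : ℝ} {D : ℕ} {W : ℝ} {d : ℕ}
variable (h : StOk c f w e Λ D W d)
include h

theorem StOk.U_pos : 0 < UU D W d := by
  have := h.hW
  unfold UU
  positivity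

theorem StOk.one_le_U : 1 ≤ UU D W d := by
  have := h.hW
  unfold UU
  apply one_le_pow₀
  have : 0 ≤ 4 * (D : ℝ) ^ 2 * W := by positivity
  linarith

theorem sum_RO_col (i : V) : ∑ p, |RO c f w e (2 * d) (ee p) i| ≤ UU D W d :=
  sum_abs_RO_le h.hc h.hrow h.hcol h.hf0 h.hf h.op.hw h.hw h.op h.hW (2 * d) i

theorem sum_RO_row (p : V) : ∑ i, |RO c f w e (2 * d) (ee p) i| ≤ UU D W d := by
  have := sum_RO_col h p
  simpa only [RO_ee_symm (2 * d) p] using this

omit h in
theorem sT_RO (p : V) (j : J) :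
    sT c f (RO c f w e (2 * d) (ee p)) j = RO c f w e (2 * d) (sg c f (es j)) p := by
  have h1 := adj (c := c) (f := f) (RO c f w e (2 * d) (ee p)) (es j)
  rw [sum_es_mul] at h1
  rw [h1]
  have h2 := RO_symm (c := c) (f := f) (w := w) (e := e) (2 * d) (sg c f (es j)) (ee p)
  rw [h2, sum_mul_ee]

theorem sum_y_sq (j : J) : ∑ p, sT c f (RO c f w e (2 * d) (ee p)) j ^ 2 ≤ vr c f w j := by
  simp only [sT_RO]
  rw [vr_eq]
  exact row_var h.op (um_isMin h.op.hw (es j)) d

theorem sum_wp_sq {i : V} (hi : Hop c f w (ee i) i ≤ 16) :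
    f i ^ 2 / 4624 ≤ ∑ p, (f i * RO c f w e (2 * d) (ee p) i) ^ 2 := by
  have h1 := diag_lower h.op d h.hd hi
  have h2 : ∑ p, (f i * RO c f w e (2 * d) (ee p) i) ^ 2
      = f i ^ 2 * ∑ p, RO c f w e (2 * d) (ee i) p ^ 2 := by
    rw [Finset.mul_sum]
    refine Finset.sum_congr rfl fun p _ => ?_
    rw [RO_ee_symm (2 * d) p i]; ring
  rw [h2]
  have := mul_le_mul_of_nonneg_left h1 (sq_nonneg (f i))
  linarith

theorem sum_abs_y (j : J) : ∑ p, |sT c f (RO c f w e (2 * d) (ee p)) j| ≤ 2 * D * UU D W d := by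
  have hU := h.U_pos
  calc ∑ p, |sT c f (RO c f w e (2 * d) (ee p)) j|
      ≤ ∑ p, ∑ i, |c j i * (f i * RO c f w e (2 * d) (ee p) i)| :=
        Finset.sum_le_sum fun p _ => Finset.abs_sum_le_sum_abs _ _
    _ = ∑ i, ∑ p, |c j i * (f i * RO c f w e (2 * d) (ee p) i)| := Finset.sum_comm
    _ = ∑ i ∈ univ.filter (fun i => c j i ≠ 0),
          ∑ p, |c j i * (f i * RO c f w e (2 * d) (ee p) i)| := by
        rw [Finset.sum_filter_of_ne]
        intro i _ h1 h0
        apply h1
        refine Finset.sum_eq_zero fun p _ => ?_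
        rw [h0, zero_mul, abs_zero]
    _ ≤ ∑ _i ∈ univ.filter (fun i => c j i ≠ 0), 2 * UU D W d := by
        refine Finset.sum_le_sum fun i _ => ?_
        calc ∑ p, |c j i * (f i * RO c f w e (2 * d) (ee p) i)|
            = ∑ p, |c j i| * (f i * |RO c f w e (2 * d) (ee p) i|) :=
              Finset.sum_congr rfl fun p _ => by
                rw [abs_mul, abs_mul, abs_of_nonneg (h.hf0 i)]
          _ = |c j i| * (f i * ∑ p, |RO c f w e (2 * d) (ee p) i|) := by
              rw [Finset.mul_sum, Finset.mul_sum]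
          _ ≤ 1 * (2 * UU D W d) := by
              apply mul_le_mul (h.hc j i) _ _ zero_le_one
              · exact mul_le_mul (h.hf i) (sum_RO_col h i)
                  (Finset.sum_nonneg fun p _ => abs_nonneg _) (by norm_num)
              · exact mul_nonneg (h.hf0 i) (Finset.sum_nonneg fun p _ => abs_nonneg _)
          _ = _ := one_mul _
    _ = #(univ.filter fun i => c j i ≠ 0) * (2 * UU D W d) := by simp
    _ ≤ D * (2 * UU D W d) := by
        apply mul_le_mul_of_nonneg_right _ (by positivity)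
        exact_mod_cast h.hrow j
    _ = _ := by ring

theorem sum_abs_y' (p : V) : ∑ j, |sT c f (RO c f w e (2 * d) (ee p)) j| ≤ 2 * D * UU D W d := by
  have hU := h.U_pos
  calc ∑ j, |sT c f (RO c f w e (2 * d) (ee p)) j|
      ≤ ∑ j, ∑ i, |c j i * (f i * RO c f w e (2 * d) (ee p) i)| :=
        Finset.sum_le_sum fun p _ => Finset.abs_sum_le_sum_abs _ _
    _ = ∑ i, ∑ j, |c j i * (f i * RO c f w e (2 * d) (ee p) i)| := Finset.sum_comm
    _ ≤ ∑ i, D * (2 * |RO c f w e (2 * d) (ee p) i|) := by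
        refine Finset.sum_le_sum fun i _ => ?_
        have e1 : ∑ j, |c j i * (f i * RO c f w e (2 * d) (ee p) i)|
            = ∑ j ∈ univ.filter (fun j => c j i ≠ 0),
              |c j i * (f i * RO c f w e (2 * d) (ee p) i)| := by
          rw [Finset.sum_filter_of_ne]
          intro j _ h1 h0
          apply h1
          rw [h0, zero_mul, abs_zero]
        rw [e1]
        calc _ ≤ ∑ _j ∈ univ.filter (fun j => c j i ≠ 0), 2 * |RO c f w e (2 * d) (ee p) i| := by
              refine Finset.sum_le_sum fun j _ => ?_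
              rw [abs_mul, abs_mul, abs_of_nonneg (h.hf0 i)]
              calc |c j i| * (f i * |RO c f w e (2 * d) (ee p) i|)
                  ≤ 1 * (2 * |RO c f w e (2 * d) (ee p) i|) :=
                    mul_le_mul (h.hc j i) (mul_le_mul_of_nonneg_right (h.hf i) (abs_nonneg _))
                      (mul_nonneg (h.hf0 i) (abs_nonneg _)) zero_le_one
                _ = _ := one_mul _
          _ = #(univ.filter fun j => c j i ≠ 0) * (2 * |RO c f w e (2 * d) (ee p) i|) := by simp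
          _ ≤ _ := by
              apply mul_le_mul_of_nonneg_right _ (by positivity)
              exact_mod_cast h.hcol i
    _ = D * (2 * ∑ i, |RO c f w e (2 * d) (ee p) i|) := by rw [Finset.mul_sum, Finset.mul_sum]
    _ ≤ D * (2 * UU D W d) := by
        apply mul_le_mul_of_nonneg_left _ (by positivity)
        exact mul_le_mul_of_nonneg_left (sum_RO_row h p) (by norm_num)
    _ = _ := by ring

/-- one step of a quadratic exponential moment -/
theorem step_exp (z x : V → ℝ) (hx : ∀ i, |x i| ≤ 1) (α s : J → ℝ) (η : V → ℝ)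
    (hα : ∀ j, 0 ≤ α j) (hη : ∀ i, 0 ≤ η i) {M : ℝ} (hαM : ∀ j, α j ≤ M) (hηM : ∀ i, η i ≤ M)
    (hH : ∀ i, η i ≠ 0 → Hop c f w (ee i) i ≤ 16) {γ : ℝ} (hγ : 0 ≤ γ) :
    avg (fun ξ : V → Bool => exp (QQ c z α s η (mvx c f w e d γ x fun p => sgb (ξ p))))
      ≤ exp (QQ c z α s η x
        + γ ^ 2 * (∑ j, α j * vr c f w j - (∑ i, η i * f i ^ 2) / 4624)
        + γ ^ 2 * (2 * ∑ j, α j ^ 2 * (dev c z j x - s j) ^ 2 / w j
            + 8 * ∑ i, f i ^ 2 * η i ^ 2)
        + 128 * γ ^ 4 * M * D ^ 4 * UU D W d ^ 4 * (∑ j, α j + ∑ i, η i)) := by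
  set U := UU D W d with hUdef
  have hU : 0 < U := h.U_pos
  have hD1 : (1 : ℝ) ≤ D := by exact_mod_cast h.hD
  set R := RO c f w e (2 * d) with hR
  set y : V → J → ℝ := fun p j => sT c f (R (ee p)) j with hy
  set wp : V → V → ℝ := fun p i => f i * R (ee p) i with hwp
  set l : V → ℝ := fun p => ∑ j, α j * (dev c z j x - s j) * y p j - ∑ i, η i * x i * wp p i
    with hl
  set m : V → V → ℝ := fun p q => ∑ j, α j * (y p j * y q j) - ∑ i, η i * (wp p i * wp q i)
    with hm
  have hmv : ∀ (ξ : V → Bool) (i : V), mvx c f w e d γ x (fun p => sgb (ξ p)) i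
      = x i + γ * ∑ p, sgb (ξ p) * wp p i := by
    intro ξ i
    unfold mvx
    congr 2
    have h2 : (fun p => sgb (ξ p)) = ∑ p, sgb (ξ p) • ee p := by
      funext q
      rw [Finset.sum_apply]
      simp [ee, Pi.single_apply]
    rw [h2, ← hR, map_sum, Finset.sum_apply, Finset.mul_sum]
    refine Finset.sum_congr rfl fun p _ => ?_
    rw [map_smul, Pi.smul_apply, smul_eq_mul, hwp]
    ring
  have hdev : ∀ (ξ : V → Bool) (j : J), dev c z j (mvx c f w e d γ x fun p => sgb (ξ p))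
      = dev c z j x + γ * ∑ p, sgb (ξ p) * y p j := by
    intro ξ j
    unfold dev
    simp only [hmv]
    have e1 : ∑ i, c j i * (x i + γ * ∑ p, sgb (ξ p) * wp p i - z i)
        = ∑ i, c j i * (x i - z i) + γ * ∑ i, c j i * ∑ p, sgb (ξ p) * wp p i := by
      rw [Finset.mul_sum, ← Finset.sum_add_distrib]
      exact Finset.sum_congr rfl fun i _ => by ring
    rw [e1]
    congr 2
    simp only [Finset.mul_sum]
    rw [Finset.sum_comm]
    refine Finset.sum_congr rfl fun p _ => ?_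
    simp only [hy, sT_apply, Finset.mul_sum, hwp]
    exact Finset.sum_congr rfl fun i _ => by ring
  have hQ : ∀ ξ : V → Bool, QQ c z α s η (mvx c f w e d γ x fun p => sgb (ξ p))
      = QQ c z α s η x + (2 * γ * ∑ p, sgb (ξ p) * l p
        + γ ^ 2 * ∑ p, ∑ q, sgb (ξ p) * sgb (ξ q) * m p q) := by
    intro ξ
    unfold QQ
    have e1 : ∀ j, α j * (dev c z j (mvx c f w e d γ x fun p => sgb (ξ p)) - s j) ^ 2
        = α j * (dev c z j x - s j) ^ 2
          + 2 * γ * ∑ p, sgb (ξ p) * (α j * (dev c z j x - s j) * y p j)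
          + γ ^ 2 * ∑ p, ∑ q, sgb (ξ p) * sgb (ξ q) * (α j * (y p j * y q j)) := by
      intro j
      rw [hdev]
      have p1 : ∑ p, sgb (ξ p) * (α j * (dev c z j x - s j) * y p j)
          = α j * (dev c z j x - s j) * ∑ p, sgb (ξ p) * y p j := by
        rw [Finset.mul_sum]; exact Finset.sum_congr rfl fun p _ => by ring
      have p2 : ∑ p, ∑ q, sgb (ξ p) * sgb (ξ q) * (α j * (y p j * y q j))
          = α j * (∑ p, sgb (ξ p) * y p j) ^ 2 := by
        rw [sq, Finset.sum_mul_sum, Finset.mul_sum]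
        refine Finset.sum_congr rfl fun p _ => ?_
        rw [Finset.mul_sum]
        exact Finset.sum_congr rfl fun q _ => by ring
      rw [p1, p2]; ring
    have e2 : ∀ i, η i * mvx c f w e d γ x (fun p => sgb (ξ p)) i ^ 2
        = η i * x i ^ 2 + 2 * γ * ∑ p, sgb (ξ p) * (η i * x i * wp p i)
          + γ ^ 2 * ∑ p, ∑ q, sgb (ξ p) * sgb (ξ q) * (η i * (wp p i * wp q i)) := by
      intro i
      rw [hmv]
      have p1 : ∑ p, sgb (ξ p) * (η i * x i * wp p i) = η i * x i * ∑ p, sgb (ξ p) * wp p i := by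
        rw [Finset.mul_sum]; exact Finset.sum_congr rfl fun p _ => by ring
      have p2 : ∑ p, ∑ q, sgb (ξ p) * sgb (ξ q) * (η i * (wp p i * wp q i))
          = η i * (∑ p, sgb (ξ p) * wp p i) ^ 2 := by
        rw [sq, Finset.sum_mul_sum, Finset.mul_sum]
        refine Finset.sum_congr rfl fun p _ => ?_
        rw [Finset.mul_sum]
        exact Finset.sum_congr rfl fun q _ => by ring
      rw [p1, p2]; ring
    have q1 : ∑ p, sgb (ξ p) * l p
        = ∑ j, ∑ p, sgb (ξ p) * (α j * (dev c z j x - s j) * y p j)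
          - ∑ i, ∑ p, sgb (ξ p) * (η i * x i * wp p i) := by
      rw [Finset.sum_comm, Finset.sum_comm (s := (Finset.univ : Finset V)) (t := Finset.univ)
        (f := fun i p => sgb (ξ p) * (η i * x i * wp p i)), ← Finset.sum_sub_distrib]
      refine Finset.sum_congr rfl fun p _ => ?_
      simp only [hl]
      rw [mul_sub, Finset.mul_sum, Finset.mul_sum]
    have q2 : ∑ p, ∑ q, sgb (ξ p) * sgb (ξ q) * m p q
        = ∑ j, ∑ p, ∑ q, sgb (ξ p) * sgb (ξ q) * (α j * (y p j * y q j))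
          - ∑ i, ∑ p, ∑ q, sgb (ξ p) * sgb (ξ q) * (η i * (wp p i * wp q i)) := by
      have a1 : ∑ j, ∑ p, ∑ q, sgb (ξ p) * sgb (ξ q) * (α j * (y p j * y q j))
          = ∑ p, ∑ q, ∑ j, sgb (ξ p) * sgb (ξ q) * (α j * (y p j * y q j)) := by
        rw [Finset.sum_comm]
        exact Finset.sum_congr rfl fun p _ => Finset.sum_comm
      have a2 : ∑ i, ∑ p, ∑ q, sgb (ξ p) * sgb (ξ q) * (η i * (wp p i * wp q i))
          = ∑ p, ∑ q, ∑ i, sgb (ξ p) * sgb (ξ q) * (η i * (wp p i * wp q i)) := by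
        rw [Finset.sum_comm]
        exact Finset.sum_congr rfl fun p _ => Finset.sum_comm
      rw [a1, a2, ← Finset.sum_sub_distrib]
      refine Finset.sum_congr rfl fun p _ => ?_
      rw [← Finset.sum_sub_distrib]
      refine Finset.sum_congr rfl fun q _ => ?_
      simp only [hm]
      rw [mul_sub, Finset.mul_sum, Finset.mul_sum]
    simp only [e1, e2, Finset.sum_add_distrib, ← Finset.mul_sum]
    rw [q1, q2]
    ring
  simp only [hQ, exp_add]
  rw [avg_mul_left]
  have hmsymm : ∀ p q, m p q = m q p := by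
    intro p q
    simp only [hm]
    congr 1
    · exact Finset.sum_congr rfl fun j _ => by ring
    · exact Finset.sum_congr rfl fun j _ => by ring
  have hrad := avg_exp_rad l m hmsymm γ hγ
  have hE : avg (fun ξ : V → Bool => exp (2 * γ * ∑ p, sgb (ξ p) * l p)
      * exp (γ ^ 2 * ∑ p, ∑ q, sgb (ξ p) * sgb (ξ q) * m p q))
      ≤ exp (γ ^ 2 * ∑ p, m p p + 2 * γ ^ 2 * ∑ p, (|l p| + γ * ∑ q, |m p q|) ^ 2) := by
    simp only [← exp_add]; exact hrad
  rw [mul_assoc, mul_assoc, ← exp_add, ← exp_add]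
  apply mul_le_mul_of_nonneg_left _ (exp_pos _).le
  refine hE.trans (exp_le_exp.2 ?_)
  -- diagonal
  have hdiag : ∑ p, m p p ≤ ∑ j, α j * vr c f w j - (∑ i, η i * f i ^ 2) / 4624 := by
    have e1 : ∑ p, m p p = ∑ j, α j * ∑ p, y p j ^ 2 - ∑ i, η i * ∑ p, wp p i ^ 2 := by
      simp only [hm, Finset.sum_sub_distrib, Finset.mul_sum]
      congr 1
      · rw [Finset.sum_comm]
        exact Finset.sum_congr rfl fun j _ => Finset.sum_congr rfl fun p _ => by ring
      · rw [Finset.sum_comm]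
        exact Finset.sum_congr rfl fun j _ => Finset.sum_congr rfl fun p _ => by ring
    rw [e1]
    apply sub_le_sub
    · exact Finset.sum_le_sum fun j _ => mul_le_mul_of_nonneg_left (sum_y_sq h j) (hα j)
    · rw [Finset.sum_div]
      refine Finset.sum_le_sum fun i _ => ?_
      by_cases h0 : η i = 0
      · rw [h0]; simp
      · have := mul_le_mul_of_nonneg_left (sum_wp_sq h (hH i h0)) (hη i)
        refine le_trans (le_of_eq ?_) this
        ring
  -- linear part
  set θ : J → ℝ := fun j => α j * (dev c z j x - s j) with hθ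
  set ζ : V → ℝ := fun i => f i * (η i * x i) with hζ
  have hlp : ∀ p, l p = R (sg c f θ) p - R ζ p := by
    intro p
    simp only [hl]
    congr 1
    · have h1 := adj (c := c) (f := f) (R (ee p)) θ
      have h2 := RO_symm (c := c) (f := f) (w := w) (e := e) (2 * d) (sg c f θ) (ee p)
      rw [sum_mul_ee] at h2
      rw [← hR] at h2
      rw [← h2, ← h1]
    · have h2 := RO_symm (c := c) (f := f) (w := w) (e := e) (2 * d) ζ (ee p)
      rw [sum_mul_ee] at h2
      rw [← hR] at h2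
      rw [← h2]
      refine Finset.sum_congr rfl fun i _ => ?_
      simp only [hζ, hwp]; ring
  have hl2 : ∑ p, l p ^ 2 ≤ (∑ j, α j ^ 2 * (dev c z j x - s j) ^ 2 / w j) / 2
      + 2 * ∑ i, f i ^ 2 * η i ^ 2 := by
    have h1 : ∑ p, l p ^ 2 ≤ 2 * ∑ p, R (sg c f θ) p ^ 2 + 2 * ∑ p, R ζ p ^ 2 := by
      rw [Finset.mul_sum, Finset.mul_sum, ← Finset.sum_add_distrib]
      refine Finset.sum_le_sum fun p _ => ?_
      rw [hlp]
      nlinarith [sq_nonneg (R (sg c f θ) p + R ζ p)]
    have h2 : ∑ p, R (sg c f θ) p ^ 2 ≤ (∑ j, θ j ^ 2 / w j) / 4 :=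
      (row_var h.op (um_isMin h.op.hw θ) d).trans (sgu_le h.op (um_isMin h.op.hw θ))
    have h3 : ∑ p, R ζ p ^ 2 ≤ ∑ i, f i ^ 2 * η i ^ 2 := by
      refine (RO_contr h.op (2 * d) ζ).trans ?_
      refine Finset.sum_le_sum fun i _ => ?_
      have h4 : x i ^ 2 ≤ 1 := (sq_le_one_iff_abs_le_one _).2 (hx i)
      have h5 : 0 ≤ f i ^ 2 * η i ^ 2 := by positivity
      calc ζ i ^ 2 = f i ^ 2 * η i ^ 2 * x i ^ 2 := by simp only [hζ]; ring
        _ ≤ f i ^ 2 * η i ^ 2 * 1 := mul_le_mul_of_nonneg_left h4 h5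
        _ = _ := mul_one _
    have h4 : ∑ j, θ j ^ 2 / w j = ∑ j, α j ^ 2 * (dev c z j x - s j) ^ 2 / w j :=
      Finset.sum_congr rfl fun j _ => by simp only [hθ]; ring
    rw [h4] at h2
    linarith
  -- off-diagonal part
  have hwabs : ∀ p i, |wp p i| ≤ 2 * |R (ee p) i| := by
    intro p i
    simp only [hwp]
    rw [abs_mul, abs_of_nonneg (h.hf0 i)]
    exact mul_le_mul_of_nonneg_right (h.hf i) (abs_nonneg _)
  have hwrow : ∀ p, ∑ i, |wp p i| ≤ 2 * U := by
    intro p
    calc ∑ i, |wp p i| ≤ ∑ i, 2 * |R (ee p) i| := Finset.sum_le_sum fun i _ => hwabs p i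
      _ = 2 * ∑ i, |R (ee p) i| := by rw [Finset.mul_sum]
      _ ≤ _ := mul_le_mul_of_nonneg_left (sum_RO_row h p) (by norm_num)
  have hwcol : ∀ i, ∑ p, |wp p i| ≤ 2 * U := by
    intro i
    calc ∑ p, |wp p i| ≤ ∑ p, 2 * |R (ee p) i| := Finset.sum_le_sum fun p _ => hwabs p i
      _ = 2 * ∑ p, |R (ee p) i| := by rw [Finset.mul_sum]
      _ ≤ _ := mul_le_mul_of_nonneg_left (sum_RO_col h i) (by norm_num)
  have hycol : ∀ j, ∑ p, |y p j| ≤ 2 * D * U := fun j => sum_abs_y h j
  have hyrow : ∀ p, ∑ j, |y p j| ≤ 2 * D * U := fun p => sum_abs_y' h p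
  have hM0 : 0 ≤ M ∨ (∀ j, α j = 0) ∧ ∀ i, η i = 0 := by
    by_cases hM : 0 ≤ M
    · exact Or.inl hM
    · right
      push Not at hM
      exact ⟨fun j => by linarith [hα j, hαM j], fun i => by linarith [hη i, hηM i]⟩
  have hRp : ∀ p, ∑ q, |m p q| ≤ 2 * D * U * ∑ j, α j * |y p j| + 2 * U * ∑ i, η i * |wp p i| := by
    intro p
    have h1 : ∀ q, |m p q| ≤ ∑ j, α j * (|y p j| * |y q j|) + ∑ i, η i * (|wp p i| * |wp q i|) := by
      intro q
      simp only [hm]
      refine (abs_sub _ _).trans (add_le_add ?_ ?_)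
      · refine (Finset.abs_sum_le_sum_abs _ _).trans (le_of_eq ?_)
        exact Finset.sum_congr rfl fun j _ => by rw [abs_mul, abs_mul, abs_of_nonneg (hα j)]
      · refine (Finset.abs_sum_le_sum_abs _ _).trans (le_of_eq ?_)
        exact Finset.sum_congr rfl fun j _ => by rw [abs_mul, abs_mul, abs_of_nonneg (hη j)]
    calc ∑ q, |m p q| ≤ ∑ q, (∑ j, α j * (|y p j| * |y q j|)
          + ∑ i, η i * (|wp p i| * |wp q i|)) := Finset.sum_le_sum fun q _ => h1 q
      _ = ∑ j, α j * |y p j| * ∑ q, |y q j| + ∑ i, η i * |wp p i| * ∑ q, |wp q i| := by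
          rw [Finset.sum_add_distrib]
          congr 1
          · rw [Finset.sum_comm]
            refine Finset.sum_congr rfl fun j _ => ?_
            rw [Finset.mul_sum]
            exact Finset.sum_congr rfl fun q _ => by ring
          · rw [Finset.sum_comm]
            refine Finset.sum_congr rfl fun j _ => ?_
            rw [Finset.mul_sum]
            exact Finset.sum_congr rfl fun q _ => by ring
      _ ≤ ∑ j, α j * |y p j| * (2 * D * U) + ∑ i, η i * |wp p i| * (2 * U) := by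
          apply add_le_add
          · exact Finset.sum_le_sum fun j _ =>
              mul_le_mul_of_nonneg_left (hycol j) (mul_nonneg (hα j) (abs_nonneg _))
          · exact Finset.sum_le_sum fun i _ =>
              mul_le_mul_of_nonneg_left (hwcol i) (mul_nonneg (hη i) (abs_nonneg _))
      _ = _ := by rw [← Finset.sum_mul, ← Finset.sum_mul]; ring
  have hR0 : ∀ p, 0 ≤ ∑ q, |m p q| := fun p => Finset.sum_nonneg fun q _ => abs_nonneg _
  have hα0 : 0 ≤ ∑ j, α j := Finset.sum_nonneg fun j _ => hα j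
  have hη0 : 0 ≤ ∑ i, η i := Finset.sum_nonneg fun i _ => hη i
  have hoff : ∑ p, (∑ q, |m p q|) ^ 2 ≤ 32 * M * D ^ 4 * U ^ 4 * (∑ j, α j + ∑ i, η i) := by
    rcases hM0 with hM | ⟨hA, hB⟩
    · have hsup : ∀ p, ∑ q, |m p q| ≤ 8 * M * D ^ 2 * U ^ 2 := by
        intro p
        have h1 : ∑ j, α j * |y p j| ≤ M * (2 * D * U) := by
          calc ∑ j, α j * |y p j| ≤ ∑ j, M * |y p j| :=
                Finset.sum_le_sum fun j _ => mul_le_mul_of_nonneg_right (hαM j) (abs_nonneg _)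
            _ = M * ∑ j, |y p j| := by rw [Finset.mul_sum]
            _ ≤ _ := mul_le_mul_of_nonneg_left (hyrow p) hM
        have h2 : ∑ i, η i * |wp p i| ≤ M * (2 * U) := by
          calc ∑ i, η i * |wp p i| ≤ ∑ i, M * |wp p i| :=
                Finset.sum_le_sum fun j _ => mul_le_mul_of_nonneg_right (hηM j) (abs_nonneg _)
            _ = M * ∑ i, |wp p i| := by rw [Finset.mul_sum]
            _ ≤ _ := mul_le_mul_of_nonneg_left (hwrow p) hM
        calc ∑ q, |m p q| ≤ 2 * D * U * (M * (2 * D * U)) + 2 * U * (M * (2 * U)) :=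
              (hRp p).trans (add_le_add (mul_le_mul_of_nonneg_left h1 (by positivity))
                (mul_le_mul_of_nonneg_left h2 (by positivity)))
          _ = 4 * (M * U ^ 2) * (D ^ 2 + 1) := by ring
          _ ≤ 4 * (M * U ^ 2) * (D ^ 2 + D ^ 2) := by
              apply mul_le_mul_of_nonneg_left _ (by positivity)
              have : (1 : ℝ) ≤ D ^ 2 := one_le_pow₀ hD1
              linarith
          _ = _ := by ring
      have htot : ∑ p, ∑ q, |m p q| ≤ 4 * D ^ 2 * U ^ 2 * (∑ j, α j + ∑ i, η i) := by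
        calc ∑ p, ∑ q, |m p q|
            ≤ ∑ p, (2 * D * U * ∑ j, α j * |y p j| + 2 * U * ∑ i, η i * |wp p i|) :=
              Finset.sum_le_sum fun p _ => hRp p
          _ = 2 * D * U * ∑ j, α j * ∑ p, |y p j| + 2 * U * ∑ i, η i * ∑ p, |wp p i| := by
              rw [Finset.sum_add_distrib, ← Finset.mul_sum, ← Finset.mul_sum, Finset.sum_comm,
                Finset.sum_comm (s := (Finset.univ : Finset V)) (t := (Finset.univ : Finset V))]
              congr 2
              · exact Finset.sum_congr rfl fun j _ => by rw [Finset.mul_sum]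
              · exact Finset.sum_congr rfl fun j _ => by rw [Finset.mul_sum]
          _ ≤ 2 * D * U * ∑ j, α j * (2 * D * U) + 2 * U * ∑ i, η i * (2 * U) := by
              apply add_le_add
              · apply mul_le_mul_of_nonneg_left _ (by positivity)
                exact Finset.sum_le_sum fun j _ => mul_le_mul_of_nonneg_left (hycol j) (hα j)
              · apply mul_le_mul_of_nonneg_left _ (by positivity)
                exact Finset.sum_le_sum fun j _ => mul_le_mul_of_nonneg_left (hwcol j) (hη j)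
          _ = 4 * D ^ 2 * U ^ 2 * (∑ j, α j) + 4 * 1 * U ^ 2 * ∑ i, η i := by
              rw [← Finset.sum_mul, ← Finset.sum_mul]; ring
          _ ≤ 4 * D ^ 2 * U ^ 2 * (∑ j, α j) + 4 * D ^ 2 * U ^ 2 * ∑ i, η i := by
              apply add_le_add le_rfl
              apply mul_le_mul_of_nonneg_right _ hη0
              apply mul_le_mul_of_nonneg_right _ (by positivity)
              have : (1 : ℝ) ≤ D ^ 2 := one_le_pow₀ hD1
              linarith
          _ = _ := by ring
      calc ∑ p, (∑ q, |m p q|) ^ 2 ≤ ∑ p, 8 * M * D ^ 2 * U ^ 2 * ∑ q, |m p q| := by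
            refine Finset.sum_le_sum fun p _ => ?_
            rw [sq]
            exact mul_le_mul_of_nonneg_right (hsup p) (hR0 p)
        _ = 8 * M * D ^ 2 * U ^ 2 * ∑ p, ∑ q, |m p q| := by rw [Finset.mul_sum]
        _ ≤ 8 * M * D ^ 2 * U ^ 2 * (4 * D ^ 2 * U ^ 2 * (∑ j, α j + ∑ i, η i)) :=
            mul_le_mul_of_nonneg_left htot (by positivity)
        _ = _ := by ring
    · have : ∀ p q, m p q = 0 := by
        intro p q
        simp only [hm, hA, hB, zero_mul, Finset.sum_const_zero, sub_zero]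
      simp only [this, abs_zero, Finset.sum_const_zero, hA, hB, ne_eq, OfNat.ofNat_ne_zero,
        not_false_eq_true, zero_pow, add_zero, mul_zero, le_refl]
  have hsq : ∑ p, (|l p| + γ * ∑ q, |m p q|) ^ 2
      ≤ 2 * ∑ p, l p ^ 2 + 2 * γ ^ 2 * ∑ p, (∑ q, |m p q|) ^ 2 := by
    rw [Finset.mul_sum, Finset.mul_sum, ← Finset.sum_add_distrib]
    refine Finset.sum_le_sum fun p _ => ?_
    have h1 := sq_abs (l p)
    nlinarith [sq_nonneg (|l p| - γ * ∑ q, |m p q|)]
  have hg2 : 0 ≤ γ ^ 2 := sq_nonneg _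
  have t1 := mul_le_mul_of_nonneg_left hdiag hg2
  have t2 := mul_le_mul_of_nonneg_left hsq (show 0 ≤ 2 * γ ^ 2 by positivity)
  have t3 := mul_le_mul_of_nonneg_left hl2 (show 0 ≤ 4 * γ ^ 2 by positivity)
  have t4 := mul_le_mul_of_nonneg_left hoff (show 0 ≤ 4 * γ ^ 4 by positivity)
  calc _ ≤ γ ^ 2 * (∑ j, α j * vr c f w j - (∑ i, η i * f i ^ 2) / 4624)
        + 2 * γ ^ 2 * (2 * ∑ p, l p ^ 2 + 2 * γ ^ 2 * ∑ p, (∑ q, |m p q|) ^ 2) :=
        add_le_add t1 t2
    _ = γ ^ 2 * (∑ j, α j * vr c f w j - (∑ i, η i * f i ^ 2) / 4624)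
        + 4 * γ ^ 2 * ∑ p, l p ^ 2 + 4 * γ ^ 4 * ∑ p, (∑ q, |m p q|) ^ 2 := by ring
    _ ≤ γ ^ 2 * (∑ j, α j * vr c f w j - (∑ i, η i * f i ^ 2) / 4624)
        + 4 * γ ^ 2 * ((∑ j, α j ^ 2 * (dev c z j x - s j) ^ 2 / w j) / 2
            + 2 * ∑ i, f i ^ 2 * η i ^ 2)
        + 4 * γ ^ 4 * (32 * M * D ^ 4 * U ^ 4 * (∑ j, α j + ∑ i, η i)) :=
        add_le_add (add_le_add le_rfl t3) t4
    _ = _ := by ring

end

end Pool.Agent.Helper26.Bf
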