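import Pool.Agent.Helper26.Bf.Pot

set_option linter.unusedSectionVars false

namespace Pool.Agent.Helper26.Bf

open Finset Real
open Pool.Agent.Helper26.Loc (ee ee_self sum_ee_mul sum_mul_ee avg avg_mul_left avg_mul_right
  avg_mono avg_const avg_slice sgb abs_sgb setSlice ind ind_true ind_false)
open Pool.Agent.Helper26.Gsw (dev)

namespace Par

variable {V J : Type*} [Fintype V] [DecidableEq V] [Fintype J] [DecidableEq J]

/-- survival functional -/
noncomputable def psi (P : Par V J) (I : Finset V) (st : St V J) : ℝ :=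
  if I ⊆ P.alive st then exp (-(1 / 314432) * ∑ i ∈ I, st.x i ^ 2) else 0

variable {P : Par V J} (hP : P.Ok)
include hP

theorem psi_one {st : St V J} (hI : P.Inv st)
    (hγs : 128 * P.γ ^ 2 * P.D ^ 4 * P.U ^ 4 ≤ 1) (I : Finset V) :
    avg (fun ξ : V → Bool => P.psi I (P.step st fun p => sgb (ξ p)))
      ≤ P.psi I st * exp (-(P.γ ^ 2 * #I / 2000000000)) := by
  by_cases hIA : I ⊆ P.alive st
  swap
  · have h1 : ∀ ξ : V → Bool, P.psi I (P.step st fun p => sgb (ξ p)) = 0 := by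
      intro ξ
      unfold psi
      rw [if_neg]
      exact fun h => hIA (h.trans (alive_step_subset st _))
    simp only [h1, avg_const]
    apply mul_nonneg _ (exp_pos _).le
    unfold psi
    split_ifs
    exact le_rfl
  have hst := stOk hP hI
  set η : V → ℝ := fun i => if i ∈ I then 1 / 314432 else 0 with hη
  have hη0 : ∀ i, 0 ≤ η i := fun i => by simp only [hη]; split_ifs <;> norm_num
  have hηM : ∀ i, η i ≤ 1 / 314432 := fun i => by simp only [hη]; split_ifs <;> norm_num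
  have hηI : ∀ g : V → ℝ, ∑ i, η i * g i = 1 / 314432 * ∑ i ∈ I, g i := by
    intro g
    rw [Finset.mul_sum, ← Finset.sum_subset (Finset.subset_univ I)]
    · exact Finset.sum_congr rfl fun i hi => by simp [hη, hi]
    · intro i _ hi; simp [hη, hi]
  have hQQ : ∀ x' : V → ℝ, QQ P.c P.z (fun _ => 0) (fun _ => 0) η x'
      = -(1 / 314432) * ∑ i ∈ I, x' i ^ 2 := by
    intro x'
    unfold QQ
    rw [hηI]
    simp
  have hpt : ∀ ξ : V → Bool, P.psi I (P.step st fun p => sgb (ξ p))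
      ≤ exp (QQ P.c P.z (fun _ => 0) (fun _ => 0) η
          (mvx P.c (P.ff st) (P.wt st.k) P.e P.d P.γ st.x fun p => sgb (ξ p))) := by
    intro ξ
    rw [hQQ]
    unfold psi
    split_ifs
    · exact le_rfl
    · exact (exp_pos _).le
  have hmain := step_exp hst P.z st.x hI.hx (fun _ => 0) (fun _ => 0) η (fun _ => le_rfl) hη0
    (M := 1 / 314432) (fun _ => by norm_num) hηM
    (fun i hi => by
      have : i ∈ I := by
        by_contra h
        exact hi (by simp [hη, h])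
      exact Hop_le hP hI (hIA this)) hP.hγ.le
  refine (avg_mono hpt).trans (hmain.trans ?_)
  unfold psi
  rw [if_pos hIA, ← exp_add]
  apply exp_le_exp.2
  rw [hQQ]
  have t1 : (#I : ℝ) / 314432 ≤ ∑ i, η i * P.ff st i ^ 2 := by
    rw [hηI]
    have : (#I : ℝ) ≤ ∑ i ∈ I, P.ff st i ^ 2 := by
      calc (#I : ℝ) = ∑ _i ∈ I, (1 : ℝ) := by simp
        _ ≤ _ := Finset.sum_le_sum fun i hi => one_le_ff_sq hI.hx (hIA hi)
    linarith
  have t2 : ∑ i, P.ff st i ^ 2 * η i ^ 2 ≤ 2 * (1 / 314432) ^ 2 * #I := by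
    have e1 : ∀ i, P.ff st i ^ 2 * η i ^ 2 = η i * (η i * P.ff st i ^ 2) := fun i => by ring
    simp only [e1]
    rw [hηI]
    have : ∑ i ∈ I, η i * P.ff st i ^ 2 ≤ ∑ _i ∈ I, (1 / 314432 * 2 : ℝ) :=
      Finset.sum_le_sum fun i _ => mul_le_mul (hηM i) (ff_sq_le hI.hx i) (sq_nonneg _) (by norm_num)
    rw [Finset.sum_const, nsmul_eq_mul] at this
    linarith
  have t3 : ∑ i, η i = 1 / 314432 * #I := by
    have := hηI (fun _ => 1)
    simpa using this
  have t4 : 128 * P.γ ^ 4 * (1 / 314432) * P.D ^ 4 * UU P.D P.W P.d ^ 4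
      * (∑ _j : J, (0 : ℝ) + ∑ i, η i) ≤ P.γ ^ 2 * (1 / 314432) ^ 2 * #I := by
    have hUU : UU P.D P.W P.d = P.U := rfl
    rw [hUU, t3, Finset.sum_const_zero, zero_add]
    calc 128 * P.γ ^ 4 * (1 / 314432) * P.D ^ 4 * P.U ^ 4 * (1 / 314432 * (#I : ℝ))
        = (128 * P.γ ^ 2 * P.D ^ 4 * P.U ^ 4) * (P.γ ^ 2 * (1 / 314432) ^ 2 * #I) := by ring
      _ ≤ 1 * (P.γ ^ 2 * (1 / 314432) ^ 2 * #I) :=
          mul_le_mul_of_nonneg_right hγs (by positivity)
      _ = _ := one_mul _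
  have hg2 : 0 ≤ P.γ ^ 2 := sq_nonneg _
  simp only [zero_mul, Finset.sum_const_zero, zero_div, mul_zero, ne_eq, OfNat.ofNat_ne_zero,
    not_false_eq_true, zero_pow, zero_add] at t4 ⊢
  have t1' := mul_le_mul_of_nonneg_left t1 (show 0 ≤ P.γ ^ 2 / 4624 by positivity)
  have t2' := mul_le_mul_of_nonneg_left t2 (show 0 ≤ P.γ ^ 2 * 8 by positivity)
  have hI0 : 0 ≤ P.γ ^ 2 * (#I : ℝ) := by positivity
  have e2 : P.γ ^ 2 * (0 - (∑ i, η i * P.ff st i ^ 2) / 4624)
      = -(P.γ ^ 2 / 4624 * ∑ i, η i * P.ff st i ^ 2) := by ring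
  rw [e2]
  have e3 : P.γ ^ 2 * (8 * ∑ i, P.ff st i ^ 2 * η i ^ 2)
      = P.γ ^ 2 * 8 * ∑ i, P.ff st i ^ 2 * η i ^ 2 := by ring
  rw [e3]
  have e4 : P.γ ^ 2 / 4624 * ((#I : ℝ) / 314432) = (P.γ ^ 2 * #I) * (1 / 4624 / 314432) := by ring
  have e5 : P.γ ^ 2 * 8 * (2 * (1 / 314432) ^ 2 * (#I : ℝ))
      = (P.γ ^ 2 * #I) * (16 / 314432 ^ 2) := by ring
  have e6 : P.γ ^ 2 * (1 / 314432) ^ 2 * (#I : ℝ) = (P.γ ^ 2 * #I) * (1 / 314432 ^ 2) := by ring
  rw [e4] at t1'
  rw [e5] at t2'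
  rw [e6] at t4
  have e7 : P.γ ^ 2 * (#I : ℝ) / 2000000000 = (P.γ ^ 2 * #I) * (1 / 2000000000) := by ring
  rw [e7]
  nlinarith

/-- joint probability of survival -/
theorem surv_prob (hγs : 128 * P.γ ^ 2 * P.D ^ 4 * P.U ^ 4 ≤ 1) (I : Finset V) :
    avg (fun ω : V → Fin P.N → Bool => ind (I ⊆ P.alive (P.xs ω P.N)))
      ≤ exp (1 - P.N * P.γ ^ 2 / 2000000000) ^ #I := by
  have hmom : ∀ n : ℕ, n ≤ P.N → avg (fun ω : V → Fin P.N → Bool => P.psi I (P.xs ω n))
      ≤ exp (-(n * (P.γ ^ 2 * #I / 2000000000))) := by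
    intro n
    induction n with
    | zero =>
      intro _
      have h1 : ∀ ω : V → Fin P.N → Bool, P.psi I (P.xs ω 0) ≤ 1 := by
        intro ω
        unfold psi
        split_ifs
        · apply exp_le_one_iff.2
          have : 0 ≤ ∑ i ∈ I, (P.xs ω 0).x i ^ 2 := Finset.sum_nonneg fun i _ => sq_nonneg _
          linarith
        · exact zero_le_one
      refine (avg_mono h1).trans ?_
      rw [avg_const]
      simp
    | succ n ih =>
      intro hn
      have ih := ih (by omega)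
      set n' : Fin P.N := ⟨n, hn⟩ with hn'
      rw [avg_slice n']
      have hstep : ∀ (ω : V → Fin P.N → Bool) (ξ : V → Bool), P.xs (setSlice n' ω ξ) (n + 1)
          = P.step (P.xs ω n) (fun p => sgb (ξ p)) := fun ω ξ => xs_succ_setSlice ω n' ξ
      simp only [hstep]
      refine (avg_mono fun ω => psi_one hP (inv_xs hP ω n) hγs I).trans ?_
      rw [avg_mul_right]
      refine (mul_le_mul_of_nonneg_right ih (exp_pos _).le).trans (le_of_eq ?_)
      rw [← exp_add]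
      congr 1
      push_cast
      ring
  have h1 : ∀ ω : V → Fin P.N → Bool, ind (I ⊆ P.alive (P.xs ω P.N))
      ≤ exp #I * P.psi I (P.xs ω P.N) := by
    intro ω
    unfold psi
    by_cases h : I ⊆ P.alive (P.xs ω P.N)
    · rw [ind_true h, if_pos h, ← exp_add]
      apply one_le_exp
      have h2 : ∑ i ∈ I, (P.xs ω P.N).x i ^ 2 ≤ #I := by
        calc ∑ i ∈ I, (P.xs ω P.N).x i ^ 2 ≤ ∑ _i ∈ I, (1 : ℝ) :=
              Finset.sum_le_sum fun i _ =>
                (sq_le_one_iff_abs_le_one _).2 ((inv_xs hP ω P.N).hx i)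
          _ = #I := by simp
      have h3 : (0 : ℝ) ≤ #I := by positivity
      linarith
    · rw [ind_false h, if_neg h, mul_zero]
  refine (avg_mono h1).trans ?_
  rw [avg_mul_left]
  refine (mul_le_mul_of_nonneg_left (hmom P.N le_rfl) (exp_pos _).le).trans (le_of_eq ?_)
  rw [← exp_add, ← exp_nat_mul]
  congr 1
  ring

end Par

end Pool.Agent.Helper26.Bf
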